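import Pool.Agent.Lib.GV40.TRA
import Pool.Agent.Lib.GU40.B_CON
import Pool.Agent.Lib.GT40.B_GLU

/-! Project gv40: two systems of quadrics differ by a scaling. -/

open scoped Manifold ContDiff Topology Matrix
open Set Filter Metric Complex Sum

set_option linter.unusedVariables false
set_option linter.unusedSectionVars false

noncomputable section

namespace Pool.Agent.Lib.GV40

open Pool.Agent.Lib.GT40 (E Gr Full Spans cx RAct Act)
open Pool.Agent.Lib.GU40

variable {R : Type} [Fintype R] [DecidableEq R] {ip : R → R → ℤ} {C C' : R → R → R → R → ℂ}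

namespace ALG

/-- The variable part of a quadric. -/
def qq (C : R → R → R → R → ℂ) (r δ : R) (x : R → ℂ) : ℂ := ∑ a, ∑ b, C r δ a b * x a * x b

/-- Support in a face. -/
def Su (ip : R → R → ℤ) (L : List R) (x : R → ℂ) : Prop := ∀ c, ¬Face ip L c → x c = 0

/-- The point of the cone with given free coordinates. -/
def lf (ip : R → R → ℤ) (C : R → R → R → R → ℂ) (r : R) (x : R → ℂ) : R → ℂ :=
  fun c => if ip r c = 0 then -qq C r c x / x r else x c

theorem qd (C : R → R → R → R → ℂ) (r δ : R) (x : R → ℂ) :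
    Qd C r δ x = x r * x δ + qq C r δ x := rfl

theorem d_qq (C : R → R → R → R → ℂ) (r δ : R) : Differentiable ℂ (qq C r δ) := by
  unfold qq
  fun_prop

theorem c_qd (C : R → R → R → R → ℂ) (r δ : R) : Continuous (Qd C r δ) := by
  unfold Qd
  fun_prop

theorem dep (h : Qs ip C) {r δ : R} {x y : R → ℂ} (e : ∀ a, ip r a = 1 → x a = y a) :
    qq C r δ x = qq C r δ y :=
  Finset.sum_congr rfl fun a _ => Finset.sum_congr rfl fun b _ => by
    by_cases k : C r δ a b = 0
    · simp [k]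
    · rw [e a (h.su _ _ _ _ k).1, e b (h.su _ _ _ _ (h.sy r δ a b ▸ k)).1]

theorem van (h : Qs ip C) {r δ : R} {x : R → ℂ}
    (e : ∀ a b, ip r a = 1 → Rel ip r δ a b → x a = 0 ∨ x b = 0) : qq C r δ x = 0 :=
  Finset.sum_eq_zero fun a _ => Finset.sum_eq_zero fun b _ => by
    by_cases k : C r δ a b = 0
    · simp [k]
    · rcases e a b (h.su _ _ _ _ k).1 (h.su _ _ _ _ k).2 with j | j <;> simp [j]

theorem off (h : Qs ip C) {L : List R} {r δ : R} {x : R → ℂ} (hr : Face ip L r)
    (hδ : ¬Face ip L δ) (hx : Su ip L x) : qq C r δ x = 0 :=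
  van h fun a b _ e => by
    by_contra c
    rw [not_or] at c
    refine hδ fun l hl => ?_
    have := e l
    rw [by_contra (fun j => c.1 (hx a j)) l hl, by_contra (fun j => c.2 (hx b j)) l hl,
      hr l hl] at this
    omega

theorem lf_ne {r c : R} (k : ip r c ≠ 0) (x : R → ℂ) : lf ip C r x c = x c := if_neg k

theorem lf_r (hi : Ip ip) (r : R) (x : R → ℂ) : lf ip C r x r = x r :=
  lf_ne (by rw [hi.two]; omega) x

theorem lf_cn (hi : Ip ip) (h : Qs ip C) {r : R} {x : R → ℂ} (hx : x r ≠ 0) :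
    Cn ip C r (lf ip C r x) := fun δ k => by
  rw [qd, lf_r hi, dep h (y := x) fun a j => lf_ne (by omega) x, lf, if_pos k]
  field_simp
  ring

theorem lf_eq {r : R} {x : R → ℂ} (hx : x r ≠ 0) (hc : Cn ip C r x) : lf ip C r x = x :=
  funext fun c => by
    unfold lf
    split_ifs with k
    · rw [div_eq_iff hx]
      linear_combination -(qd C r c x).symm.trans (hc c k)
    · rfl

theorem lf_su (h : Qs ip C) {L : List R} {r : R} {x : R → ℂ} (hr : Face ip L r) (hx : Su ip L x) :
    Su ip L (lf ip C r x) := fun c k => by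
  unfold lf
  split_ifs
  · rw [off h hr k hx, neg_zero, zero_div]
  · exact hx c k

theorem pair (hi : Ip ip) {r δ a b : R} (h0 : ip r δ = 0) (e : Rel ip r δ a b) :
    ip r a = 1 ∨ a = r ∧ b = δ ∨ a = δ ∧ b = r := by
  have e1 := e r
  have e2 := e δ
  rw [hi.two] at e1 e2
  rcases hi.cases r a with rfl | k | k
  · exact Or.inr (Or.inl ⟨rfl, hi.eq2 (by omega)⟩)
  · exact Or.inl k
  · obtain rfl : b = r := hi.eq2 (by omega)
    exact Or.inr (Or.inr ⟨hi.eq2 (by omega), rfl⟩)

theorem nz (hi : Ip ip) (h : Qs ip C) {r δ a b : R} (h0 : ip r δ = 0) (h1 : ip r a = 1)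
    (e : Rel ip r δ a b) : qq C r δ (ax a 1 + ax b 1) ≠ 0 := fun c => by
  obtain ⟨h2, h3, -, -⟩ := hi.snd h0 h1 e
  set y : R → ℂ := ax r 1 + (ax a 1 + ax b 1) with hy
  have y0 : y r = 1 := by simp [hy, ax, (hi.ne1 h1).symm, (hi.ne1 h2).symm]
  have y1 : lf ip C r y a = 1 := by
    rw [lf_ne (by omega)]
    simp [hy, ax, hi.ne1 h1, (hi.ne0 h3).symm]
  have y2 : lf ip C r y b = 1 := by
    rw [lf_ne (by omega)]
    simp [hy, ax, hi.ne1 h2, hi.ne0 h3]
  have y3 : lf ip C r y δ = 0 := by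
    rw [lf, if_pos h0, dep h (y := ax a 1 + ax b 1) fun a' j => by simp [hy, ax, hi.ne1 j], c,
      neg_zero, zero_div]
  have k := h.key r a (lf ip C r y) h1 (by rw [lf_r hi, y0]; exact one_ne_zero) (by rw [y1]; exact one_ne_zero)
    (lf_cn hi h (by rw [y0]; exact one_ne_zero)) b h3
  rw [qd, y1, y2, van h fun a' b' j e' => ?_] at k
  · simp at k
  rcases pair hi h0 (e.trans e') with i | ⟨rfl, rfl⟩ | ⟨rfl, rfl⟩
  · left
    have i2 : a' ≠ b := fun c => by rw [c] at j; omega
    rw [lf_ne (by omega)]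
    simp [hy, ax, hi.ne1 i, hi.ne1 j, i2]
  · exact Or.inr y3
  · exact Or.inl y3

theorem den (hi : Ip ip) (h : Qs ip C) {L : List R} {r : R} (hr : Face ip L r) {T : R → Prop}
    (hT : ∀ t, T t → Face ip L t ∧ (ip r t = 0 →
      ∃ a b, Face ip L a ∧ Face ip L b ∧ ip r a = 1 ∧ Rel ip r t a b))
    {f : (R → ℂ) → ℂ} (hf : Continuous f)
    (h0 : ∀ x, Su ip L x → x r ≠ 0 → Cn ip C r x → (∀ t, T t → x t ≠ 0) → f x = 0)
    {x : R → ℂ} (hx : Su ip L x) (hx0 : x r ≠ 0) (hc : Cn ip C r x) : f x = 0 := by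
  classical
  set π : (R → ℂ) → R → ℂ := fun y c => if Face ip L c then y c else 0 with hπ
  have π1 : Differentiable ℂ π := differentiable_pi.2 fun c => by
    simp only [hπ]
    split_ifs <;> fun_prop
  have π2 : ∀ y, Su ip L y → π y = y := fun y hy => funext fun c => by
    simp only [hπ]
    split_ifs with k
    · rfl
    · exact (hy c k).symm
  set g : R → (R → ℂ) → ℂ := fun t y =>
    if T t then (if ip r t = 0 then qq C r t (π y) else y t) else 1 with hg
  have g1 : ∀ t, Differentiable ℂ (g t) := fun t => by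
    simp only [hg]
    split_ifs
    · exact (d_qq C r t).comp π1
    · fun_prop
    · fun_prop
  have g2 : ∀ t, ∃ y, g t y ≠ 0 := fun t => by
    simp only [hg]
    split_ifs with k k'
    · obtain ⟨a, b, i1, i2, i3, i4⟩ := (hT t k).2 k'
      refine ⟨ax a 1 + ax b 1, ?_⟩
      rw [π2 _ fun c j => ?_]
      · exact nz hi h k' i3 i4
      · have j1 : c ≠ a := fun e => j (e ▸ i1)
        have j2 : c ≠ b := fun e => j (e ▸ i2)
        simp [ax, j1, j2]
    · exact ⟨1, one_ne_zero⟩
    · exact ⟨1, one_ne_zero⟩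
  have hD := GT40.GLUB.dense_all (fun t => {y | g t y ≠ 0})
    (fun t => isOpen_ne_fun (g1 t).continuous continuous_const) fun t => (st_CON R _ (g1 t)).2 (g2 t)
  have π3 : ∀ y, π y r = y r := fun y => if_pos hr
  have c1 : ContinuousAt (fun y => f (lf ip C r (π y))) x := by
    refine hf.continuousAt.comp (continuousAt_pi.2 fun c => ?_)
    simp only [lf, π3]
    split_ifs
    · exact ((d_qq C r c).comp π1).continuous.continuousAt.neg.div (continuousAt_apply r x) hx0
    · exact ((continuous_apply c).comp π1.continuous).continuousAt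
  have nb := mem_closure_iff_nhdsWithin_neBot.1 (hD x)
  have e := tendsto_nhds_unique (c1.tendsto.mono_left nhdsWithin_le_nhds)
    (tendsto_const_nhds.congr' (show (fun _ => (0 : ℂ)) =ᶠ[𝓝[{P | ∀ t, P ∈ {y | g t y ≠ 0}}] x] _
      from ?_))
  · rwa [π2 x hx, lf_eq hx0 hc] at e
  filter_upwards [self_mem_nhdsWithin,
    nhdsWithin_le_nhds ((continuousAt_apply r x).eventually_ne hx0)] with y h1 h2
  have h3 : π y r ≠ 0 := by rwa [π3]
  refine (h0 _ (lf_su h hr fun c k => if_neg k) (by rwa [lf_r hi]) (lf_cn hi h h3)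
    fun t k => ?_).symm
  have h4 : g t y ≠ 0 := h1 t
  simp only [hg, if_pos k] at h4
  unfold lf
  split_ifs at h4 ⊢
  · exact div_ne_zero (neg_ne_zero.2 h4) h3
  · simpa only [hπ, if_pos (hT t k).1] using h4

theorem face_nil (c : R) : Face ip [] c := fun l hl => by simp at hl

theorem su_nil (x : R → ℂ) : Su ip [] x := fun c k => (k (face_nil c)).elim

theorem full (hi : Ip ip) (h : Qs ip C) {r : R} {x : R → ℂ} (hx : x r ≠ 0) (hc : Cn ip C r x)
    (r' : R) : Cn ip C r' x := fun δ k => by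
  refine den hi h (face_nil r) (T := fun _ => True) (fun t _ => ⟨face_nil t, fun j => ?_⟩)
    (c_qd C r' δ) (fun y _ h1 h2 h3 => ?_) (su_nil x) hx hc
  · obtain ⟨a, b, i⟩ := hi.cn r t j
    exact ⟨a, b, face_nil a, face_nil b, i⟩
  rcases hi.cases r r' with rfl | j | j
  · exact h2 δ k
  · exact h.key r r' y j h1 (h3 _ trivial) h2 δ k
  · obtain ⟨a, b, i1, i2⟩ := hi.cn r r' j
    exact h.key a r' y (by rw [hi.sym]; exact (hi.snd j i1 i2).2.2.1) (h3 _ trivial) (h3 _ trivial)
      (h.key r a y i1 h1 (h3 _ trivial) h2) δ k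

theorem fin (hi : Ip ip) (h : Qs ip C) {L : List R} {r : R} (hr : Face ip L r)
    {D : (R → ℂ) → ℂ} (hD : ∀ x y, (∀ a, ip r a = 1 → x a = y a) → D x = D y)
    (h0 : ∀ x, Su ip L x → x r ≠ 0 → Cn ip C r x → D x = 0) {x : R → ℂ} (hx : Su ip L x) :
    D x = 0 := by
  rw [hD x (lf ip C r (Function.update x r 1)) fun a j => by
    rw [lf_ne (by omega), Function.update_of_ne (hi.ne1 j)]]
  refine h0 _ (lf_su h hr fun c k => ?_) (by simp [lf_r hi]) (lf_cn hi h (by simp))
  rw [Function.update_of_ne fun e : c = r => k (e ▸ hr), hx c k]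

theorem prop0 (hi : Ip ip) (h : Qs ip C) {r δ a b : R} (h0 : ip r δ = 0) (h1 : ip r a = 1)
    (e : Rel ip r δ a b) : ∃ c, c ≠ 0 ∧ ∀ x, Qd C a b x = c * Qd C r δ x := by
  obtain ⟨h2, h3, -, -⟩ := hi.snd h0 h1 e
  have r1 : ip r r ≠ 1 := by rw [hi.two]; omega
  have sp : ∀ x, qq C a b x = 2 * C a b r δ * (x r * x δ) +
      ∑ a', ∑ b', if ip r a' = 1 ∧ ip r b' = 1 then C a b a' b' * x a' * x b' else 0 := fun x => by
    have t : ∀ a' b', C a b a' b' * x a' * x b' =
        ((if a' = r then if b' = δ then C a b r δ * (x r * x δ) else 0 else 0) +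
        if a' = δ then if b' = r then C a b r δ * (x r * x δ) else 0 else 0) +
        if ip r a' = 1 ∧ ip r b' = 1 then C a b a' b' * x a' * x b' else 0 := fun a' b' => by
      by_cases k : C a b a' b' = 0
      · by_cases j1 : a' = r ∧ b' = δ
        · obtain ⟨rfl, rfl⟩ := j1
          simp [k]
        by_cases j2 : a' = δ ∧ b' = r
        · obtain ⟨rfl, rfl⟩ := j2
          rw [h.sy] at k
          simp [k, h.sy a b a' b']
        rw [← ite_and, ← ite_and, if_neg j1, if_neg j2]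
        simp [k]
      have e' := e.trans (h.su _ _ _ _ k).2
      rcases pair hi h0 e' with i | ⟨rfl, rfl⟩ | ⟨rfl, rfl⟩
      · have i2 : a' ≠ δ := fun c => by rw [c] at i; omega
        simp [i, (hi.snd h0 i e').1, hi.ne1 i, i2]
      · simp [r1, (hi.ne0 h0).symm, mul_assoc]
      · simp [r1, hi.ne0 h0, h.sy a b a' b']
        ring
    unfold qq
    rw [Finset.sum_congr rfl fun a' _ => Finset.sum_congr rfl fun b' _ => t a' b']
    simp only [Finset.sum_add_distrib, Finset.sum_ite_irrel, Finset.sum_ite_eq', Finset.mem_univ,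
      if_true, Finset.sum_const_zero]
    ring
  have key : ∀ x, Qd C a b x = 2 * C a b r δ * Qd C r δ x := fun x => by
    refine sub_eq_zero.1 (fin hi h (face_nil r)
      (D := fun x => Qd C a b x - 2 * C a b r δ * Qd C r δ x) (fun x y j => ?_)
      (fun x _ h4 h5 => by rw [full hi h h4 h5 a b h3, h5 δ h0, mul_zero, sub_zero]) (su_nil x))
    simp only [qd, sp, dep h j, j a h1, j b h2]
    rw [Finset.sum_congr rfl fun a' _ => Finset.sum_congr rfl fun b' _ =>
      if_ctx_congr Iff.rfl (fun i : ip r a' = 1 ∧ ip r b' = 1 => by rw [j a' i.1, j b' i.2])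
        fun _ => rfl]
    ring
  refine ⟨_, fun c => ?_, key⟩
  have := key (ax a 1 + ax b 1)
  rw [c, zero_mul, qd, van h fun a' b' j _ => Or.inl ?_] at this
  · simp [ax, hi.ne0 h3, (hi.ne0 h3).symm] at this
  · have i2 : a' ≠ b := fun c => by rw [c] at j; omega
    simp [ax, hi.ne1 j, i2]

theorem ext (hi : Ip ip) (h : Qs ip C) (h' : Qs ip C') {L : List R} {r₀ : R} {u : R → ℂ}
    (hu : ∀ c, u c ≠ 0) (h0 : Face ip L r₀) (hc : Conn ip L r₀)
    (H : ∀ x, Su ip L x → x r₀ ≠ 0 → Cn ip C r₀ x → Cn ip C' r₀ (u * x)) {r δ : R}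
    (hr : Face ip L r) (k : ip r δ = 0) {x : R → ℂ} (hx : Su ip L x) :
    Qd C' r δ (u * x) = u r * u δ * Qd C r δ x := by
  have t : ∀ x, Qd C' r δ (u * x) - u r * u δ * Qd C r δ x =
      qq C' r δ (u * x) - u r * u δ * qq C r δ x := fun x => by
    simp only [qd, Pi.mul_apply]
    ring
  refine sub_eq_zero.1 (fin hi h hr (D := fun x => Qd C' r δ (u * x) - u r * u δ * Qd C r δ x)
    (fun x y j => ?_) (fun x h1 h2 h3 => ?_) hx)
  · rw [t, t, dep h j, dep h' (y := u * y) fun a i => by rw [Pi.mul_apply, j a i, Pi.mul_apply]]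
  rw [h3 δ k, mul_zero, sub_zero]
  refine den hi h hr (T := fun t => t = r₀) (fun t e => e ▸ ⟨h0, hc r hr⟩)
    (f := fun x => Qd C' r δ (u * x)) ((c_qd C' r δ).comp (continuous_const.mul continuous_id))
    (fun y i1 i2 i3 i4 => ?_) h1 h2 h3
  exact full hi h' (mul_ne_zero (hu r₀) (i4 _ rfl)) (H y i1 (i4 _ rfl) (full hi h i2 i3 r₀)) r δ k

theorem scal (hi : Ip ip) (h : Qs ip C) (h' : Qs ip C') : ∃ u : R → ℂ, (∀ c, u c ≠ 0) ∧
    ∀ r δ, ip r δ = 0 → ∀ x, Qd C' r δ (u * x) = u r * u δ * Qd C r δ x := by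
  obtain ⟨u, h1, h2⟩ := hi.ch (fun L => ∃ u : R → ℂ, (∀ c, u c ≠ 0) ∧ ∀ r δ, Face ip L r →
    Face ip L δ → ip r δ = 0 → ∀ x, Su ip L x → Qd C' r δ (u * x) = u r * u δ * Qd C r δ x)
    (fun L hL => ⟨1, fun _ => one_ne_zero, fun r δ i1 i2 i3 x hx => by
      have z : ∀ a b, ip r a = 1 → Rel ip r δ a b → x a = 0 ∨ x b = 0 := fun a b j e => by
        by_contra c
        rw [not_or] at c
        exact hL r δ a b i1 i2 (by_contra fun j => c.1 (hx a j)) (by_contra fun j => c.2 (hx b j))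
          i3 j e
      rw [one_mul, qd, qd, van h z, van h' z]
      simp⟩) fun L r₀ h0 hc ⟨u, hu, H⟩ => by
      have fc : ∀ a, Face ip (r₀ :: L) a ↔ ip r₀ a = 1 ∧ Face ip L a := fun a =>
        List.forall_mem_cons
      have : ∀ δ, ∃ m : ℂ, m ≠ 0 ∧ (ip r₀ δ = 0 → ∀ x, Su ip (r₀ :: L) x →
          qq C' r₀ δ (u * x) = m * qq C r₀ δ x) := fun δ => by
        by_cases k : ip r₀ δ = 0 ∧ ∃ a b, Face ip L a ∧ Face ip L b ∧ ip r₀ a = 1 ∧ Rel ip r₀ δ a b
        · obtain ⟨k, a, b, i1, i2, i3, i4⟩ := k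
          obtain ⟨c, c0, e⟩ := prop0 hi h k i3 i4
          obtain ⟨c', c0', e'⟩ := prop0 hi h' k i3 i4
          obtain ⟨i5, i6, -, -⟩ := hi.snd k i3 i4
          refine ⟨u a * u b * c / c', div_ne_zero (mul_ne_zero (mul_ne_zero (hu a) (hu b)) c0) c0',
            fun _ x hx => ?_⟩
          have e1 := H a b ((fc a).2 ⟨i3, i1⟩) ((fc b).2 ⟨i5, i2⟩) i6 x hx
          have x0 : x r₀ = 0 := hx _ fun j => by
            have := ((fc _).1 j).1
            rw [hi.two] at this
            omega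
          rw [e, e', qd, qd, Pi.mul_apply, x0] at e1
          field_simp
          linear_combination e1
        · refine ⟨1, one_ne_zero, fun j x hx => ?_⟩
          have z : ∀ a b, ip r₀ a = 1 → Rel ip r₀ δ a b → x a = 0 ∨ x b = 0 := fun a b i e => by
            by_contra c
            rw [not_or] at c
            exact k ⟨j, a, b, ((fc a).1 (by_contra fun j => c.1 (hx a j))).2,
              ((fc b).1 (by_contra fun j => c.2 (hx b j))).2, i, e⟩
          rw [van h z, van h' (x := u * x) fun a b i e => (z a b i e).imp (mul_eq_zero_of_right _)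
            (mul_eq_zero_of_right _), mul_zero]
      choose m m0 hm using this
      set u' : R → ℂ := fun c => if ip r₀ c = 1 then u c else if ip r₀ c = 0 then m c else 1
        with hu'
      have n0 : ∀ c, u' c ≠ 0 := fun c => by
        simp only [hu']
        split_ifs
        exacts [hu c, m0 c, one_ne_zero]
      refine ⟨u', n0, fun r δ i1 _ i3 x hx => ext hi h h' n0 h0 hc (fun x i1 i2 i3 δ k => ?_)
        i1 i3 hx⟩
      have e := hm δ k (fun c => if ip r₀ c = 1 then x c else 0) fun c j => by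
        by_cases i : ip r₀ c = 1
        · exact (if_pos i).trans (i1 c fun i' => j ((fc c).2 ⟨i, i'⟩))
        · exact if_neg i
      rw [dep h (y := x) fun a j => if_pos j,
        dep h' (y := u' * x) fun a j => by simp [hu', j]] at e
      have e1 := i3 δ k
      rw [qd] at e1 ⊢
      simp only [Pi.mul_apply, e]
      simp only [hu', hi.two, k]
      norm_num
      linear_combination m δ * e1
  exact ⟨u, h1, fun r δ k x => h2 r δ (face_nil r) (face_nil δ) k x (su_nil x)⟩

end ALG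

end Pool.Agent.Lib.GV40
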