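import Pool.Agent.Lib.GV40.RS
import Pool.Agent.Lib.GT40.B_PJ

/-! Project gv40: lines, and frames. -/

open scoped Manifold ContDiff Topology Matrix
open Set Filter Metric Complex Sum

set_option linter.unusedVariables false
set_option linter.unusedSectionVars false

noncomputable section

namespace Pool.Agent.Lib.GV40

open Pool.Agent.Lib.GT40 (E Gr Full Spans cx RAct Act)
open Pool.Agent.Lib.GU40

namespace LIN

variable {q : ℕ}

/-- The vector lies on the line. -/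
def On (P : Gr 1 q) (y : Fin (1 + q) → ℂ) : Prop := Matrix.of P.1 *ᵥ y = y

/-- The square of the norm. -/
def nr (y : Fin (1 + q) → ℂ) : ℂ := ∑ c, star (y c) * y c

theorem spans_iff (P : Gr 1 q) (A : Fin (1 + q) → Fin 1 → ℂ) :
    Spans P A ↔ On P fun a => A a 0 := by
  refine ⟨fun h => funext fun a => congrFun (congrFun h a) 0, fun h => ?_⟩
  ext a m
  rw [Subsingleton.elim m 0]
  exact congrFun h a

theorem full_iff (A : Fin (1 + q) → Fin 1 → ℂ) : Full A ↔ (fun a => A a 0) ≠ 0 := by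
  constructor
  · intro h c
    have : (1 : Fin 1 → ℂ) = 0 := h (funext fun a => by
      simp [Matrix.mulVec, dotProduct, show A a 0 = 0 from congrFun c a])
    exact one_ne_zero (congrFun this 0)
  · intro h v v' e
    obtain ⟨a, ha⟩ := Function.ne_iff.1 h
    have := congrFun e a
    simp only [Matrix.mulVec, dotProduct, Fin.sum_univ_one, Matrix.of_apply] at this
    funext m
    rw [Subsingleton.elim m 0]
    exact mul_left_cancel₀ ha this

theorem gram (y : Fin (1 + q) → ℂ) :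
    ((Matrix.of fun a (_ : Fin 1) => y a)ᴴ * Matrix.of fun a (_ : Fin 1) => y a).det = nr y := by
  simp [Matrix.mul_apply, nr]

theorem nr_ne {y : Fin (1 + q) → ℂ} (hy : y ≠ 0) : nr y ≠ 0 := by
  rw [← gram]
  exact ((Matrix.isUnit_iff_isUnit_det _).1
    (GT40.PJ.part1 (fun a _ => y a) ((full_iff _).2 hy)).1).ne_zero

theorem form {P : Gr 1 q} {y : Fin (1 + q) → ℂ} (hy : y ≠ 0) (h : On P y) (a b : Fin (1 + q)) :
    P.1 a b = y a * star (y b) / nr y := by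
  have e := ((GT40.PJ.part1 (fun a _ => y a) ((full_iff _).2 hy)).2.2 P).1 ((spans_iff _ _).2 h)
  have e1 := congrFun (congrFun e a) b
  rw [GT40.pj, Matrix.inv_def, gram] at e1
  simp only [Matrix.mul_apply, Matrix.of_apply, Fin.sum_univ_one, Matrix.adjugate_fin_one,
    Matrix.smul_apply, Matrix.one_apply_eq, Ring.inverse_eq_inv', smul_eq_mul, mul_one,
    Matrix.conjTranspose_apply] at e1
  rw [e1]
  ring

theorem uq {P P' : Gr 1 q} {y : Fin (1 + q) → ℂ} (hy : y ≠ 0) (h : On P y) (h' : On P' y) :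
    P = P' :=
  Subtype.ext (funext fun a => funext fun b => (form hy h a b).trans (form hy h' a b).symm)

theorem ex0 {y : Fin (1 + q) → ℂ} (hy : y ≠ 0) : ∃ P, On P y := by
  obtain ⟨-, ⟨P, hP⟩, h⟩ := GT40.PJ.part1 (fun a _ => y a) ((full_iff _).2 hy)
  exact ⟨P, (spans_iff _ _).1 ((h P).2 hP)⟩

theorem ex (y : Fin (1 + q) → ℂ) : ∃ P, On P y := by
  by_cases hy : y = 0
  · obtain ⟨P, -⟩ := ex0 (q := q) (y := 1) fun c => one_ne_zero (congrFun c ⟨0, by omega⟩)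
    exact ⟨P, by simp [On, hy]⟩
  · exact ex0 hy

theorem On.smul {P : Gr 1 q} {y : Fin (1 + q) → ℂ} (h : On P y) (c : ℂ) : On P (c • y) := by
  unfold On at h ⊢
  rw [Matrix.mulVec_smul, h]

theorem col (P : Gr 1 q) (b : Fin (1 + q)) : On P fun a => P.1 a b :=
  funext fun a => congrFun (congrFun P.2.2.1 a) b

theorem diag (P : Gr 1 q) : ∃ b, P.1 b b ≠ 0 := by
  by_contra c
  have h := P.2.2.2
  rw [Matrix.trace, Finset.sum_eq_zero (f := (Matrix.of P.1).diag)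
    fun b _ => by_contra fun j => c ⟨b, j⟩] at h
  simp at h

theorem par {P : Gr 1 q} {y y' : Fin (1 + q) → ℂ} (hy : y ≠ 0) (h : On P y) (h' : On P y') :
    ∃ c : ℂ, y' = c • y := by
  refine ⟨(∑ b, star (y b) * y' b) / nr y, funext fun a => ?_⟩
  rw [← congrFun h' a]
  simp only [Matrix.mulVec, dotProduct, Matrix.of_apply, form hy h, Pi.smul_apply, smul_eq_mul,
    Finset.sum_div, Finset.sum_mul]
  exact Finset.sum_congr rfl fun b _ => by ring

theorem diag_iff {P : Gr 1 q} {y : Fin (1 + q) → ℂ} (hy : y ≠ 0) (h : On P y) (b : Fin (1 + q)) :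
    P.1 b b ≠ 0 ↔ y b ≠ 0 := by
  simp [form hy h, nr_ne hy]

theorem rot {θ : Fin (1 + q) → ℝ} {P P' : Gr 1 q} (e : Rot θ P P') {y : Fin (1 + q) → ℂ}
    (h : On P y) : On P' fun a => exp (I * θ a) * y a := by
  funext a
  rw [← congrFun h a]
  simp only [Matrix.mulVec, dotProduct, Matrix.of_apply, e a, Finset.mul_sum]
  refine Finset.sum_congr rfl fun b _ => ?_
  have := exp_ne_zero (I * θ b)
  rw [exp_neg]
  field_simp

end LIN

variable {ι R F : Type} [Fintype ι] [Fintype R] [DecidableEq R] {q : ℕ}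

/-- Frames. -/
structure Frm (K : Set (Fin (1 + q) → ℂ)) (l₀ : Fin (1 + q)) (em : R → Fin (1 + q))
    (wt : Fin (1 + q) → ι → ℤ) (s : R → Fin (1 + q) → Fin (1 + q)) (e : R → Fin (1 + q) → ℤ)
    (ip : R → R → ℤ) (pm : F → Equiv.Perm (Fin (1 + q))) (ε : F → Fin (1 + q) → ℂ)
    (nb : F → R → F) : Prop where
  rs : Rs (fun o r => wt (pm o (em r)) - wt (pm o l₀)) nb (fun o => pm o l₀) ip
  sq : ∀ o μ, ε o μ * ε o μ = 1
  pn : ∀ o r μ, pm (nb o r) μ = pm o (s r μ)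
  en : ∀ o r μ, ε (nb o r) μ = ε o (s r μ) * e r μ
  inK : ∀ o y, (fun μ => ε o μ * y (pm o μ)) ∈ K ↔ y ∈ K
  cov : ∀ μ, ∃ o, pm o l₀ = μ

variable {X : Set (Gr 1 q)} {K : Set (Fin (1 + q) → ℂ)} {l₀ : Fin (1 + q)} {em : R → Fin (1 + q)}
  {v : (R → ℂ) → Fin (1 + q) → ℂ} {wt : Fin (1 + q) → ι → ℤ} {cv : R → ι → ℤ}
  {s : R → Fin (1 + q) → Fin (1 + q)} {e : R → Fin (1 + q) → ℤ} {ip : R → R → ℤ}

theorem frames (h : Md X K l₀ em v wt cv s e ip) : ∃ (F : Type) (_ : Finite F)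
    (pm : F → Equiv.Perm (Fin (1 + q))) (ε : F → Fin (1 + q) → ℂ) (nb : F → R → F),
    Frm K l₀ em wt s e ip pm ε nb := by
  classical
  let sp : R → Equiv.Perm (Fin (1 + q)) := fun r => Function.Involutive.toPerm (s r) (h.ss r)
  let eu : R → Fin (1 + q) → ℤˣ := fun r μ => if e r μ = 1 then 1 else -1
  have eu1 : ∀ r μ, (eu r μ : ℤ) = e r μ := fun r μ => by
    rcases h.e1 r μ with j | j <;> simp [eu, j]
  let n0 : Equiv.Perm (Fin (1 + q)) × (Fin (1 + q) → ℤˣ) → R →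
      Equiv.Perm (Fin (1 + q)) × (Fin (1 + q) → ℤˣ) :=
    fun o r => (o.1 * sp r, fun μ => o.2 (s r μ) * eu r μ)
  let Re : Equiv.Perm (Fin (1 + q)) × (Fin (1 + q) → ℤˣ) → Prop :=
    fun o => ∀ p : _ → Prop, p (1, 1) → (∀ o r, p o → p (n0 o r)) → p o
  have R1 : Re (1, 1) := fun p a _ => a
  have R2 : ∀ o r, Re o → Re (n0 o r) := fun o r j p a b => b o r (j p a b)
  let nb : Subtype Re → R → Subtype Re := fun o r => ⟨n0 o.1 r, R2 _ r o.2⟩
  have ind : ∀ p : Subtype Re → Prop, p ⟨_, R1⟩ → (∀ o r, p o → p (nb o r)) → ∀ o, p o :=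
    fun p a b o => (o.2 (fun o => ∃ j : Re o, p ⟨o, j⟩) ⟨R1, a⟩
      fun o r ⟨j, i⟩ => ⟨R2 o r j, b ⟨o, j⟩ r i⟩).2
  have inv : ∀ o r, nb (nb o r) r = o := fun o r => by
    refine Subtype.ext (Prod.ext (Equiv.ext fun μ => congrArg o.1.1 (h.ss r μ)) (funext fun μ => ?_))
    change o.1.2 (s r (s r μ)) * eu r (s r μ) * eu r μ = o.1.2 μ
    simp only [eu, h.ss, h.ee, mul_assoc, Int.units_mul_self, mul_one]
  have lin : ∀ o : Subtype Re, ∃ M : (ι → ℤ) →+ (ι → ℤ), ∀ μ, wt (o.1.1 μ) = M (wt μ) := by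
    refine ind _ ⟨AddMonoidHom.id _, fun μ => rfl⟩ fun o r ⟨M, hM⟩ =>
      ⟨M.comp (AddMonoidHom.mk' (fun y => y - (y ⬝ᵥ cv r) • (wt (em r) - wt l₀)) fun y y' => ?_),
        fun μ => (hM (s r μ)).trans (congrArg M (h.rf r μ))⟩
    rw [add_dotProduct, add_smul]
    abel
  have ref : ∀ (o : Subtype Re) r r', wt ((nb o r).1.1 (em r')) - wt ((nb o r).1.1 l₀) =
      wt (o.1.1 (em r')) - wt (o.1.1 l₀) - ip r r' • (wt (o.1.1 (em r)) - wt (o.1.1 l₀)) := by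
    intro o r r'
    obtain ⟨M, hM⟩ := lin o
    change wt (o.1.1 (s r (em r'))) - wt (o.1.1 (s r l₀)) = _
    simp only [hM, ← map_sub, ← map_zsmul]
    rw [h.rf, h.rf r l₀, h.ipe, sub_dotProduct, sub_smul]
    congr 1
    abel
  have sq : ∀ u : ℤˣ, ((u : ℤ) : ℂ) * ((u : ℤ) : ℂ) = 1 := fun u => by
    rw [← Int.cast_mul, ← Units.val_mul, Int.units_mul_self]
    simp
  refine ⟨Subtype Re, inferInstance, fun o => o.1.1, fun o μ => ((o.1.2 μ : ℤ) : ℂ), nb,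
    ⟨h.tab, ?_, ref, inv, fun p hp o o' a => ?_, fun o r r' j => ?_, ⟨⟨_, R1⟩⟩⟩,
    fun o μ => sq _, fun o r μ => rfl, fun o r μ => ?_, ?_, fun μ => ?_⟩
  · refine ind _ (fun r => ⟨cv r, fun r' => (h.ipe r r').symm⟩) fun o r₀ j r => ?_
    obtain ⟨ξ, hξ⟩ := j r
    obtain ⟨ξ₀, hξ₀⟩ := j r₀
    refine ⟨ξ - ip r r₀ • ξ₀, fun r' => ?_⟩
    simp only [ref, sub_dotProduct _ (_ • _), smul_dotProduct, dotProduct_sub, dotProduct_smul, hξ,
      hξ₀, h.tab.two, smul_eq_mul]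
    ring
  · exact ind p (ind (fun o => p o → p ⟨_, R1⟩) id
      (fun o r j i => j (inv o r ▸ hp _ r trivial i)) o a) (fun o r => hp o r trivial) o'
  · change o.1.1 (s r (s r' l₀)) = o.1.1 (s r' l₀)
    rw [h.s0, h.tri r r' j]
  · change (((o.1.2 (s r μ) * eu r μ : ℤˣ) : ℤ) : ℂ) = _
    rw [Units.val_mul, Int.cast_mul, eu1]
  · refine ind _ (fun y => by simp) fun o r j y => Iff.trans ?_ (j y)
    have e1 : ∀ μ, ((((nb o r).1.2 μ : ℤˣ) : ℤ) : ℂ) * y ((nb o r).1.1 μ) =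
        e r μ * ((((o.1.2 (s r μ) : ℤˣ) : ℤ) : ℂ) * y (o.1.1 (s r μ))) := fun μ => by
      change (((o.1.2 (s r μ) * eu r μ : ℤˣ) : ℤ) : ℂ) * y (o.1.1 (s r μ)) = _
      rw [Units.val_mul, Int.cast_mul, eu1]
      ring
    simp only [e1]
    refine ⟨fun i => ?_, h.act r _⟩
    have := h.act r _ i
    simp only [h.ss, h.ee, ← mul_assoc, ← eu1, sq, one_mul] at this
    exact this
  · obtain ⟨lv, hl⟩ := h.tr
    induction j : lv μ using Nat.strong_induction_on generalizing μ with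
    | _ n ih =>
      rcases hl μ with rfl | ⟨r, i⟩
      · exact ⟨⟨_, R1⟩, rfl⟩
      obtain ⟨o, ho⟩ := ih _ (j ▸ i) _ rfl
      obtain ⟨o', ho'⟩ := ind (fun o => ∃ o' : Subtype Re, ∀ ν, o'.1.1 ν = s r (o.1.1 ν))
        ⟨nb ⟨_, R1⟩ r, fun ν => rfl⟩ (fun o r' ⟨o', j⟩ => ⟨nb o' r', fun ν => j _⟩) o
      exact ⟨o', by rw [ho', ho, h.ss]⟩

end Pool.Agent.Lib.GV40
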