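import Pool.Agent.Lib.GV40.CUB
import Pool.Agent.Lib.GV40.FRM

/-! Project gv40: the Cayley plane is a model. -/

open scoped Manifold ContDiff Topology Matrix
open Set Filter Metric Complex Sum

set_option linter.unusedVariables false
set_option linter.unusedSectionVars false

noncomputable section

namespace Pool.Agent.Lib.GV40

open Pool.Agent.Lib.GT40 (E Gr Full Spans cx RAct Act)
open Pool.Agent.Lib.GU40

open CUB LIN

namespace E6

/-- The neighbours of the first index. -/
def em : Fin 16 → Fin 27 := ![1, 2, 3, 6, 12, 13, 14, 15, 16, 17, 19, 20, 22, 23, 25, 26]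

/-- The weights. -/
def wt (μ : Fin 27) (i : Fin 6) : ℤ := (dg
  4983447760543438214709557518618840669788673568677171028680542133799825609064286158082995064493400
  2 (6 * μ + i) : ℕ) - 1

/-- The coroots. -/
def cv (r : Fin 16) (i : Fin 6) : ℤ := (dg
  149986343244668986272729695129186697908937396409570848475409346288097974871311646569683
  3 (6 * r + i) : ℕ) - 3

/-- The inner products. -/
def ip (r c : Fin 16) : ℤ := (dg
  7764742318149427068487863345241327150885597535181218652782719491397305584975204954951069632614873447580282217126682977856957428147717552921611742903353350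
  2 (16 * r + c) : ℕ)

/-- The distance to the first index. -/
def lv (μ : Fin 27) : ℕ := dg 6290741251447380 2 μ

/-- The cell at the first index. -/
def v (x : Fin 16 → ℂ) : Fin 27 → ℂ :=
  ![1, x 0, x 1, x 2, x 0 * x 2 + x 7 * x 11 + x 8 * x 13 + x 9 * x 15, x 1 * x 2 - x 4 * x 11 -
  x 5 * x 13 - x 6 * x 15, x 3, x 0 * x 3 - x 7 * x 10 - x 8 * x 12 - x 9 * x 14, x 1 * x 3 + x 4
  * x 10 + x 5 * x 12 + x 6 * x 14, 0 - x 0 * x 4 - x 1 * x 7 + x 12 * x 15 - x 13 * x 14, 0 - x
  0 * x 5 - x 1 * x 8 - x 10 * x 15 + x 11 * x 14, 0 - x 0 * x 6 - x 1 * x 9 + x 10 * x 13 - x 11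
  * x 12, x 4, x 5, x 6, x 7, x 8, x 9, 0 - x 2 * x 10 - x 3 * x 11 + x 5 * x 9 - x 6 * x 8, x
  10, x 11, 0 - x 2 * x 12 - x 3 * x 13 - x 4 * x 9 + x 6 * x 7, x 12, x 13, 0 - x 2 * x 14 - x 3
  * x 15 + x 4 * x 8 - x 5 * x 7, x 14, x 15]

theorem tab : Ip ip := by
  refine ⟨by decide +kernel, by decide +kernel, by decide +kernel,
    ⟨12, by norm_num, by decide +kernel⟩, by decide +kernel, fun p a b => ?_⟩
  refine b [] 0 (by simp [Face]) (by unfold Conn; decide +kernel)
    (b [0] 1 (by decide +kernel) (by unfold Conn; decide +kernel)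
    (b [1, 0] 10 (by decide +kernel) (by unfold Conn; decide +kernel)
    (a _ fun r δ a b h1 h2 h3 h4 => ?_)))
  revert b
  revert a
  revert δ
  revert r
  decide +kernel

theorem wsum (j : Fin 27) : ∀ p ∈ L j, wt p.1 + wt p.2.1 = -wt j := fun p hp => of_decide_eq_true
  (List.all_eq_true.1
    ((by decide +kernel : ∀ j, (L j).all fun p => wt p.1 + wt p.2.1 = -wt j) j) p hp)

theorem far : ∀ μ, μ = 0 ∨ (∃ r, μ = em r) ∨ μ ∈ [4, 5, 7, 8, 9, 10, 11, 18, 21, 24] := by
  decide +kernel

theorem vem (x : Fin 16 → ℂ) (r : Fin 16) : v x (em r) = x r := by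
  fin_cases r <;> rfl

theorem vK (x : Fin 16 → ℂ) (j : Fin 27) : D (v x) j = 0 := by
  fin_cases j <;> simp [D_eq, v] <;> ring

theorem md : Md (q := 26) Cay {y : Fin 27 → ℂ | ∀ j, D y j = 0} (0 : Fin 27) em v wt cv
    (fun r => s6 r.castSucc) (fun r => e6 r.castSucc) ip := by
  refine ⟨tab, ?_, fun P y hy h => ⟨fun c => (fd0 y).1 (c y h), fun c y' h' => ?_⟩, fun x => rfl, vem,
    ?_, vK, fun (y : Fin 27 → ℂ) h h0 => funext fun μ => ?_, fun r y h j => ?_,
    fun τ y h j => ?_, fun r => ss6 _, fun r => ee6 _, fun r => e61 _, by decide +kernel,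
    by decide +kernel, by decide +kernel, by decide +kernel, fun r z μ h1 h2 => ?_,
    lv, by decide +kernel⟩
  · have e : Cay = ⋂ (y : Fin 27 → ℂ) (j : Fin 27), {P | D (Matrix.of P.1 *ᵥ y) j = 0} := by
      ext P
      simp only [mem_iInter, mem_ofPred_eq]
      exact ⟨fun h y => (fd0 _).1 (h _ (by rw [Matrix.mulVec_mulVec, P.2.2.1])),
        fun h y e => (fd0 _).2 (e ▸ h y)⟩
    rw [e]
    exact isClosed_iInter fun y => isClosed_iInter fun j => isClosed_eq ((d_D j).continuous.comp
      (Continuous.matrix_mulVec continuous_subtype_val continuous_const)) continuous_const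
  · obtain ⟨a, rfl⟩ := par hy h h'
    exact (fd0 _).2 fun j => (D_smul a y j).trans (by rw [c j, mul_zero])
  · refine differentiable_pi.2 fun (μ : Fin 27) => ?_
    fin_cases μ <;> simp [v] <;> fun_prop
  · rcases far μ with rfl | ⟨r, rfl⟩ | j
    · exact h0
    · exact (vem (fun r => y (em r)) r).symm
    have h : ∀ j, D y j = 0 := h
    have h0 : y 0 = 1 := h0
    simp only [List.mem_cons, List.not_mem_nil, or_false] at j
    rcases j with rfl | rfl | rfl | rfl | rfl | rfl | rfl | rfl | rfl | rfl <;>
      simp only [v, em, Matrix.cons_val]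
    · have k := h 8
      simp only [D_eq, Matrix.cons_val] at k
      linear_combination k - y 4 * h0
    · have k := h 7
      simp only [D_eq, Matrix.cons_val] at k
      linear_combination -k - y 5 * h0
    · have k := h 5
      simp only [D_eq, Matrix.cons_val] at k
      linear_combination -k - y 7 * h0
    · have k := h 4
      simp only [D_eq, Matrix.cons_val] at k
      linear_combination k - y 8 * h0
    · have k := h 18
      simp only [D_eq, Matrix.cons_val] at k
      linear_combination -k - y 9 * h0
    · have k := h 21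
      simp only [D_eq, Matrix.cons_val] at k
      linear_combination -k - y 10 * h0
    · have k := h 24
      simp only [D_eq, Matrix.cons_val] at k
      linear_combination -k - y 11 * h0
    · have k := h 9
      simp only [D_eq, Matrix.cons_val] at k
      linear_combination -k - y 18 * h0
    · have k := h 10
      simp only [D_eq, Matrix.cons_val] at k
      linear_combination -k - y 21 * h0
    · have k := h 11
      simp only [D_eq, Matrix.cons_val] at k
      linear_combination -k - y 24 * h0
  · exact (D_act _ y j).trans (by rw [h _, mul_zero])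
  · exact (D_sc (c := chi (-wt j) τ) (fun p hp => by rw [← chi_plus, wsum j p hp]) y).trans
      (by rw [h _, mul_zero])
  · rcases far μ with rfl | ⟨r', rfl⟩ | j
    · exact (h1 rfl).elim
    · exact (vem _ r').trans (if_neg fun c => h2 (congrArg em c))
    have z : ∀ a b, a ≠ b → ax r z a * ax r z b = 0 := fun a b k => by
      by_cases i : a = r
      · simp [ax, show b ≠ r from i ▸ k.symm]
      · simp [ax, i]
    simp only [List.mem_cons, List.not_mem_nil, or_false] at j
    rcases j with rfl | rfl | rfl | rfl | rfl | rfl | rfl | rfl | rfl | rfl <;>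
      simp [v, z]

end E6

end Pool.Agent.Lib.GV40
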