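import Pool.Agent.Lib.GV40.E7A
import Pool.Agent.Lib.GU40.B_GLU

/-! Project gv40: the Freudenthal variety is a model. -/

open scoped Manifold ContDiff Topology Matrix
open Set Filter Metric Complex Sum

set_option linter.unusedVariables false
set_option linter.unusedSectionVars false

noncomputable section

namespace Pool.Agent.Lib.GV40

open Pool.Agent.Lib.GT40 (E Gr Full Spans cx RAct Act)
open Pool.Agent.Lib.GU40

open CUB LIN

theorem clos {q : ℕ} {A : Type} {f : A → Fin (1 + q) → ℂ} (hf : ∀ x, f x ≠ 0) (P : Gr 1 q)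
    (y : Fin (1 + q) → ℂ) (hy : y ≠ 0) (h : On P y) :
    P ∈ closure {P | ∃ x, On P (f x)} ↔ y ∈ closure {y | ∃ (c : ℂ) (x : A), y = c • f x} := by
  constructor
  · intro hP
    have := map_mem_closure (f := fun P' : Gr 1 q => Matrix.of P'.1 *ᵥ y)
      (t := {y | ∃ (c : ℂ) (x : A), y = c • f x})
      (Continuous.matrix_mulVec continuous_subtype_val continuous_const) hP
      fun P' ⟨x, hx⟩ => (par (hf x) hx (by
        rw [On, Matrix.mulVec_mulVec, P'.2.2.1])).imp fun c e => ⟨x, e⟩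
    rwa [show Matrix.of P.1 *ᵥ y = y from h] at this
  · intro hK
    rw [closure_subtype, show P.1 = fun a b => y a * star (y b) / nr y from
      funext fun a => funext (form hy h a)]
    have c : ContinuousAt (fun (y : Fin (1 + q) → ℂ) a b => y a * star (y b) / nr y) y := by
      refine continuousAt_pi.2 fun a => continuousAt_pi.2 fun b => ContinuousAt.div (by fun_prop)
        ?_ (nr_ne hy)
      unfold nr
      fun_prop
    refine closure_mono ?_ (mem_closure_image c ((isOpen_ne (x := 0)).inter_closure ⟨hy, hK⟩))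
    rintro _ ⟨_, ⟨h0, a, x, rfl⟩, rfl⟩
    obtain ⟨P', hP'⟩ := ex (f x)
    exact ⟨P', ⟨x, hP'⟩, funext fun i => funext (form h0 (hP'.smul a) i)⟩

namespace E7

theorem f0 (x : Fin 27 → ℂ) : frd x 0 = 1 := rfl

theorem f1 (x : Fin 27 → ℂ) (r : Fin 27) : frd x (em r) = x r := by
  have := r.2
  simp [frd, em, show (r : ℕ) + 1 < 28 by omega]

theorem f2 (x : Fin 27 → ℂ) (r : Fin 27) : frd x (du r) = D x r := by
  have := r.2
  simp [frd, du, show (r : ℕ) + 28 < 55 by omega, fd1]

theorem f3 (x : Fin 27 → ℂ) : frd x 55 = cub x := rfl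

theorem d_frd : Differentiable ℂ frd := differentiable_pi.2 fun μ => by
  rcases cases μ with rfl | ⟨r, rfl⟩ | ⟨r, rfl⟩ | rfl
  · exact differentiable_const 1
  · simp only [f1]
    fun_prop
  · simp only [f2]
    exact d_D r
  · exact d_cub

/-- The homogeneous equations of the cell. -/
def Z (y : Fin 56 → ℂ) : Prop := (∀ j, y 0 * y (du j) = D (fun r => y (em r)) j) ∧
  y 0 * y 0 * y 55 = cub fun r => y (em r)

theorem crit {y : Fin 56 → ℂ} (h : Z y) (h0 : y 0 ≠ 0) :
    y = y 0 • frd ((y 0)⁻¹ • fun r => y (em r)) := funext fun μ => by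
  rw [Pi.smul_apply, smul_eq_mul]
  rcases cases μ with rfl | ⟨r, rfl⟩ | ⟨r, rfl⟩ | rfl
  · rw [f0, mul_one]
  · rw [f1, Pi.smul_apply, smul_eq_mul, mul_inv_cancel_left₀ h0]
  · rw [f2, D_smul, ← h.1]
    field_simp
  · rw [f3, cub_smul, ← h.2]
    field_simp

/-- The cone over the cell. -/
def C0 : Set (Fin 56 → ℂ) := {y | ∃ (c : ℂ) (x : Fin 27 → ℂ), y = c • frd x}

theorem zc {y : Fin 56 → ℂ} (h : y ∈ closure C0) : Z y := by
  refine closure_minimal (t := {y | Z y}) ?_ ?_ h
  · rintro _ ⟨c, x, rfl⟩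
    have e : (fun r => (c • frd x) (em r)) = c • x := funext fun r => by simp [f1]
    refine ⟨fun j => ?_, ?_⟩ <;> rw [e] <;>
      simp only [Pi.smul_apply, smul_eq_mul, f0, f2, f3, D_smul, cub_smul] <;> ring
  · have c : Continuous fun (y : Fin 56 → ℂ) r => y (em r) := by fun_prop
    simp only [Z, setOf_and, setOf_forall]
    exact (isClosed_iInter fun j => isClosed_eq (by fun_prop) ((d_D j).continuous.comp c)).inter
      (isClosed_eq (by fun_prop) (d_cub.continuous.comp c))

theorem keep {t : Fin 56 → ℂ} {s : Fin 56 → Fin 56}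
    (h : ∀ x, (fun μ => t μ * frd x (s μ)) ∈ closure C0) {y : Fin 56 → ℂ} (hy : y ∈ closure C0) :
    (fun μ => t μ * y (s μ)) ∈ closure C0 := by
  refine closure_closure (s := C0) ▸ map_mem_closure
    (f := fun (y : Fin 56 → ℂ) μ => t μ * y (s μ)) (by fun_prop) hy ?_
  rintro _ ⟨c, x, rfl⟩
  have := map_mem_closure (f := fun y : Fin 56 → ℂ => c • y) (t := C0) (by fun_prop) (h x)
    fun _ ⟨a, x, e⟩ => ⟨c * a, x, by simp only [e, smul_smul]⟩
  exact (congrArg (· ∈ closure C0) (funext fun μ => mul_left_comm _ _ _)).mp this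

theorem acth (a : Fin 17) {y : Fin 56 → ℂ} (hy : y ∈ closure C0) :
    (fun μ => eh a μ * y (sh a μ)) ∈ closure C0 := by
  refine keep (fun x => subset_closure ⟨1, fun μ => e6 a μ * x (s6 a μ), funext fun μ => ?_⟩) hy
  rw [one_smul]
  rcases cases μ with rfl | ⟨r, rfl⟩ | ⟨r, rfl⟩ | rfl
  · simp [eh, sh, f0]
  · rw [(hat a r).1, (hat a r).2.2.1, f1, f1]
  · rw [(hat a r).2.1, (hat a r).2.2.2, f2, f2, D_act]
  · simp [eh, sh, f3, cub_act]

theorem frv (x : Fin 27 → ℂ) : frd x = Fin.cons 1 (Fin.snoc (Fin.append x (D x)) (cub x)) := by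
  funext μ
  rcases cases μ with rfl | ⟨r, rfl⟩ | ⟨r, rfl⟩ | rfl
  · rfl
  · rw [f1]
    fin_cases r <;> rfl
  · rw [f2]
    fin_cases r <;> rfl
  · rfl

theorem act0 {y : Fin 56 → ℂ} (hy : y ∈ closure C0) :
    (fun μ => e7 0 μ * y (s7 0 μ)) ∈ closure C0 := by
  refine keep (fun x => ?_) hy
  have c : Continuous fun x μ => e7 0 μ * frd x (s7 0 μ) :=
    continuous_pi fun μ => continuous_const.mul (continuous_pi_iff.1 d_frd.continuous _)
  refine map_mem_closure c (GLUB.dense_ne 0 x) fun x hx => ?_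
  have p : ∀ a : ℂ, ((1 : ℤ) : ℂ) * a = a := fun a => by simp
  have m : ∀ a : ℂ, ((-1 : ℤ) : ℂ) * a = -a := fun a => by simp
  have a0 : e7 0 0 * frd x (s7 0 0) = -x 0 := by
    rw [sv, ev, frv]
    exact m _
  have a1 : (fun r => e7 0 (em r) * frd x (s7 0 (em r))) = Ya x := funext fun r => by
    rw [sv, ev, frv]
    fin_cases r <;> first | exact p _ | exact m _
  have a2 : ∀ r, e7 0 (du r) * frd x (s7 0 (du r)) = Yb x r := fun r => by
    rw [sv, ev, frv]
    fin_cases r <;> first | exact p _ | exact m _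
  have a3 : e7 0 55 * frd x (s7 0 55) = D x 0 := by
    rw [sv, ev, frv]
    exact p _
  exact ⟨_, _, crit ⟨fun j => by simp only [a0, a1, a2, idA], by simp only [a0, a1, a3, idB]⟩
    (a0.trans_ne (neg_ne_zero.2 hx))⟩

theorem md : Md (q := 55) Fre (closure C0) (0 : Fin 56) em frd wt cv s7 e7 ip := by
  refine ⟨tab, isClosed_closure, clos fun x c => one_ne_zero (congrFun c (0 : Fin 56)), f0, f1, d_frd,
    fun x => subset_closure ⟨1, x, (one_smul _ _).symm⟩, fun (y : Fin 56 → ℂ) h h0 => ?_,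
    fun r y h => ?_, fun τ y h => keep (s := id) (fun x => subset_closure ?_) h, ss, ee, e1, s0, rf,
    ipe, tri, fun r z μ h1 h2 => ?_, lv, tr⟩
  · have h0 : y 0 = 1 := h0
    have := crit (zc h) (by simp [h0])
    rwa [h0, one_smul, inv_one, one_smul] at this
  · refine (congrArg (· ∈ closure C0) (funext fun μ => ?_)).mp
      (acth (ga r) (acth (gb r) (act0 (acth (gb r) (acth (ga r) h)))))
    rw [(conj r μ).1, (conj r μ).2]
    push_cast
    ring
  · have e : ∀ j, D (fun r => chi (wt (em r)) τ * x r) j = chi (wt 0) τ * chi (wt (du j)) τ * D x j :=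
      fun j => D_sc (fun p hp => by rw [← chi_plus, wsum j p hp, chi_plus]) x
    refine ⟨_, _, crit ⟨fun j => ?_, ?_⟩ (mul_ne_zero (chi_ne _ _) one_ne_zero)⟩
    · simp only [id, f0, f1, f2, e]
      ring
    · simp only [id, f0, f1, f3, eul, e, Finset.mul_sum, Finset.sum_div]
      refine Finset.sum_congr rfl fun j _ => ?_
      have := congrArg (chi · τ) (wsum' j)
      simp only [chi_plus] at this
      linear_combination -(chi (wt 0) τ * x j * D x j / 3) * this
  · rcases cases μ with rfl | ⟨r', rfl⟩ | ⟨r', rfl⟩ | rfl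
    · exact (h1 rfl).elim
    · exact (f1 _ r').trans (if_neg fun c => h2 (congrArg em c))
    · exact (f2 _ r').trans (D_ax r z r')
    · exact (eul _).trans (by simp [D_ax])

end E7

end Pool.Agent.Lib.GV40
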