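import Pool.Agent.Lib.GV40.PRJ
import Pool.Agent.Lib.GV40.E6
import Pool.Agent.Lib.GV40.E7
import Pool.Agent.Lib.GU40.All

/-! Project gv40: the theorem. -/

open scoped Manifold ContDiff Topology Matrix
open Set Filter Metric Complex Sum

set_option linter.unusedVariables false
set_option linter.unusedSectionVars false

noncomputable section

namespace Pool.Agent.Lib.GV40

open Pool.Agent.Lib.GT40 (E Gr Full Spans cx RAct Act)
open Pool.Agent.Lib.GU40

variable {k q d : ℕ}

theorem comp_rot {S : Matrix (Fin (k + q)) (Fin (k + q)) ℂ} {θ : Fin (k + q) → ℝ}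
    (h : ∀ (t : ℝ) a b, exp (I * (t • θ) a) * S a b * exp (I * (t • θ) b) = S a b) {P₀ P P' : Gr k q}
    (hP : P ∈ connectedComponentIn (Iso S) P₀) (e : Rot θ P P') :
    P' ∈ connectedComponentIn (Iso S) P₀ := by
  choose γ hγ using fun t : ℝ => GT40.MODB.conj_ex (t • θ) P
  have c : Continuous γ := by
    refine Continuous.subtype_mk (f := fun t => (γ t).1)
      (continuous_pi fun a => continuous_pi fun b => ?_) _
    simp only [hγ, Pi.smul_apply, smul_eq_mul]
    fun_prop
  have i : range γ ⊆ Iso S := by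
    rintro _ ⟨t, rfl⟩
    have h0 : (Matrix.of P.1)ᵀ * S * Matrix.of P.1 = 0 := connectedComponentIn_subset (Iso S) _ hP
    change (Matrix.of (γ t).1)ᵀ * S * Matrix.of (γ t).1 = 0
    ext a b
    have h1 := congrFun (congrFun h0 a) b
    simp only [Matrix.mul_apply, Matrix.transpose_apply, Matrix.of_apply, Finset.sum_mul, hγ,
      Matrix.zero_apply] at h1 ⊢
    rw [← mul_zero (exp (-(I * (t • θ) a)) * exp (-(I * (t • θ) b))), ← h1]
    simp only [Finset.mul_sum]
    refine Finset.sum_congr rfl fun c _ => Finset.sum_congr rfl fun e _ => ?_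
    linear_combination (exp (-(I * (t • θ) a)) * exp (-(I * (t • θ) b)) * P.1 e a * P.1 c b) *
      h t e c
  have g0 : γ 0 = P := Subtype.ext (funext fun a => funext fun b => by simp [hγ])
  have g1 : γ 1 = P' := Subtype.ext (funext fun a => funext fun b => by rw [hγ, one_smul, e])
  rw [connectedComponentIn_eq hP]
  exact (isPreconnected_range c).subset_connectedComponentIn ⟨0, g0⟩ i ⟨1, g1⟩

theorem tor {S : Matrix (Fin (k + q)) (Fin (k + q)) ℂ}
    (hS : S = 0 ∨ k = q ∧ (S = Fm k q 1 ∨ S = Fm k q (-1))) {P₀ : Gr k q} {Y : Type}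
    [TopologicalSpace Y] [ChartedSpace (E d) Y] {Φ : connectedComponentIn (Iso S) P₀ ≃ₜ Y}
    (h : DiagHol d Φ) : TorusHol d S Φ := fun θ hθ => h θ fun P hP P' e => by
  rcases hS with rfl | ⟨rfl, hS⟩
  · exact comp_rot (fun t a b => by simp) hP e
  obtain ⟨ε, rfl⟩ : ∃ ε, S = Fm k k ε := hS.elim (fun h => ⟨_, h⟩) fun h => ⟨_, h⟩
  have e1 : ∀ a, exp (I * (big fun c => θ (finSumFinEquiv (inr c))) a) = exp (I * θ a) := fun a => by
    obtain ⟨c | c, rfl⟩ := finSumFinEquiv.surjective a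
    · have := hθ (finSumFinEquiv (inl c)) (finSumFinEquiv (inr c))
      rw [show Fm k k ε (finSumFinEquiv (inl c)) (finSumFinEquiv (inr c)) = 1 from by
        simp [Fm, add_comm], mul_one] at this
      simp only [big, Equiv.symm_apply_apply, Sum.elim_inl, ofReal_neg, mul_neg, exp_neg]
      exact (eq_inv_of_mul_eq_one_left this).symm
    · simp only [big, Equiv.symm_apply_apply, Sum.elim_inr]
  refine comp_rot (θ := big fun c => θ (finSumFinEquiv (inr c))) (fun t a b => ?_) hP
    fun a b => by rw [e a b, exp_neg, exp_neg, e1, e1]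
  rw [show t • (big fun c => θ (finSumFinEquiv (inr c))) =
    big fun c => t * θ (finSumFinEquiv (inr c)) from funext fun a => by
      obtain ⟨c | c, rfl⟩ := finSumFinEquiv.surjective a <;>
        simp only [big, Pi.smul_apply, Equiv.symm_apply_apply, Sum.elim_inl, Sum.elim_inr,
          smul_eq_mul, mul_neg]]
  exact DATB.big_fm ε _ a b

theorem main (hk : 0 < k) (hq : 0 < q) (X : Set (Gr k q)) (hX : Model k q X) (Y : Type)
    [TopologicalSpace Y] [ChartedSpace (E d) Y] [IsManifold 𝓘(ℂ, E d) ω Y]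
    (hK : X ≠ univ → ∃ h : Y → HS.Mat d, GH.Kaehler h) (Φ : X ≃ₜ Y) (h1 : Diffeo d Φ)
    (h2 : DiagHol d Φ) : ∃ Ψ : X ≃ₜ Y, Bihol d Ψ := by
  by_cases hu : X = univ
  · exact ZERB.all hk hq X hu Φ h1 fun θ _ => h2 θ fun _ _ P' _ => hu ▸ mem_univ P'
  obtain ⟨h, hh⟩ := hK hu
  rcases hX with ⟨S, hS, P, hP, rfl⟩ | e | e
  · exact st_MAIN k q d S P Y Φ hk hq hS hP (fun _ => ⟨h, hh⟩) h1 (tor hS h2)
  · cases e
    exact proj E6.md Φ hh h1 h2
  · cases e
    exact proj E7.md Φ hh h1 h2

end Pool.Agent.Lib.GV40
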