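import Pool.Agent.Lib.GV40.SDefs
import Pool.Agent.Lib.GU40.Blue

/-! Project gv40: objects and statements. -/

open scoped Manifold ContDiff Topology Matrix
open Set Filter Metric Complex Sum

set_option linter.unusedVariables false
set_option linter.unusedSectionVars false

noncomputable section

namespace Pool.Agent.Lib.GV40

open Pool.Agent.Lib.GT40 (E Gr Full Spans cx RAct Act)
open Pool.Agent.Lib.GU40

section gen

variable {ι R F Λ : Type} [Fintype ι] [Fintype R] [DecidableEq R]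

/-- The combinatorics of weights and neighbours. -/
structure Cmb (w : F → R → ι → ℤ) (nb : F → R → F) : Prop where
  sep : ∀ o r r', r' ≠ r → ∃ θ : ι → ℝ, chi (w o r) (cx θ) = 1 ∧ chi (w o r') (cx θ) ≠ 1
  nz : ∀ o r, ∃ a, w o r a ≠ 0
  con : ∀ o s, s ≠ 0 → ∃ τ, ∀ r, chi (w o r) τ = s
  opp : ∀ o r, w (nb o r) r = -w o r

/-- Two pairs with the same sum. -/
def Rel (ip : R → R → ℤ) (r δ a b : R) : Prop := ∀ c, ip c a + ip c b = ip c r + ip c δ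

/-- A face. -/
def Face (ip : R → R → ℤ) (L : List R) (a : R) : Prop := ∀ l ∈ L, ip l a = 1

/-- A face without relations. -/
def Triv (ip : R → R → ℤ) (L : List R) : Prop := ∀ r δ a b, Face ip L r → Face ip L δ →
  Face ip L a → Face ip L b → ip r δ = 0 → ip r a = 1 → ¬Rel ip r δ a b

/-- A face with enough relations. -/
def Conn (ip : R → R → ℤ) (L : List R) (r₀ : R) : Prop := ∀ r, Face ip L r → ip r r₀ = 0 →
  ∃ a b, Face ip L a ∧ Face ip L b ∧ ip r a = 1 ∧ Rel ip r r₀ a b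

/-- The table of inner products. -/
structure Ip (ip : R → R → ℤ) : Prop where
  two : ∀ r, ip r r = 2
  le1 : ∀ r r', r ≠ r' → ip r r' = 0 ∨ ip r r' = 1
  sym : ∀ r r', ip r r' = ip r' r
  eul : ∃ N : ℕ, 0 < N ∧ ∀ r, ∑ c, ip c r = N
  cn : ∀ r δ, ip r δ = 0 → ∃ a b, ip r a = 1 ∧ Rel ip r δ a b
  ch : ∀ p : List R → Prop, (∀ L, Triv ip L → p L) →
    (∀ L r, Face ip L r → Conn ip L r → p (r :: L) → p L) → p []

/-- Frames that move by reflections. -/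
structure Rs (w : F → R → ι → ℤ) (nb : F → R → F) (vx : F → Λ) (ip : R → R → ℤ) : Prop where
  tab : Ip ip
  cor : ∀ o r, ∃ ξ, ∀ r', w o r' ⬝ᵥ ξ = ip r r'
  ref : ∀ o r r', w (nb o r) r' = w o r' - ip r r' • w o r
  inv : ∀ o r, nb (nb o r) r = o
  gen : Gen nb fun _ => True
  tri : ∀ o r r', ip r r' = 1 → vx (nb (nb o r) r') = vx (nb o r')
  ne : Nonempty F

/-- A system of cells with holomorphic transition maps. -/
structure TC {Y : Type} [TopologicalSpace Y] (w : F → R → ι → ℤ) (nb : F → R → F) (vx : F → Λ)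
    (ψ : F → (R → ℂ) → Y) (η : F → Y → R → ℂ) : Prop where
  cont : ∀ o, Continuous (ψ o)
  inv : ∀ o x, η o (ψ o x) = x
  op : ∀ o, IsOpen (range (ψ o))
  ci : ∀ o x, ContinuousAt (η o) (ψ o x)
  hol : ∀ o o' x, ψ o x ∈ range (ψ o') → DifferentiableAt ℂ (fun y => η o' (ψ o y)) x
  eq : ∀ τ o o' x x', ψ o x = ψ o' x' → ψ o (sg (w o) τ x) = ψ o' (sg (w o') τ x')
  edge : ∀ o r, ψ o (ax r 1) ∈ range (ψ (nb o r))
  same : ∀ o o', vx o = vx o' → ψ o 0 = ψ o' 0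

/-- The quadrics. -/
def Qd (C : R → R → R → R → ℂ) (r δ : R) (x : R → ℂ) : ℂ :=
  x r * x δ + ∑ a, ∑ b, C r δ a b * x a * x b

/-- The quadrics through a direction vanish. -/
def Cn (ip : R → R → ℤ) (C : R → R → R → R → ℂ) (r : R) (x : R → ℂ) : Prop :=
  ∀ δ, ip r δ = 0 → Qd C r δ x = 0

/-- A system of quadrics. -/
structure Qs (ip : R → R → ℤ) (C : R → R → R → R → ℂ) : Prop where
  sy : ∀ r δ a b, C r δ a b = C r δ b a
  su : ∀ r δ a b, C r δ a b ≠ 0 → ip r a = 1 ∧ Rel ip r δ a b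
  key : ∀ r r' x, ip r r' = 1 → x r ≠ 0 → x r' ≠ 0 → Cn ip C r x → Cn ip C r' x

/-- The transition map with coefficients. -/
def gt (ip : R → R → ℤ) (k : R → ℂ) (C : R → R → R → R → ℂ) (r : R) (x : R → ℂ) : R → ℂ :=
  fun c => k c * (if c = r then 1 else if ip r c = 1 then x c else Qd C r c x) / x r

/-- The shape of the transition maps. -/
structure Trn {Y : Type} (nb : F → R → F) (ip : R → R → ℤ) (ψ : F → (R → ℂ) → Y)
    (k : F → R → R → ℂ) (C : F → R → R → R → R → ℂ) : Prop where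
  ne : ∀ o r c, k o r c ≠ 0
  sy : ∀ o r δ a b, C o r δ a b = C o r δ b a
  su : ∀ o r δ a b, C o r δ a b ≠ 0 → ip r a = 1 ∧ Rel ip r δ a b
  tr : ∀ o r x, x r ≠ 0 → ψ (nb o r) (gt ip (k o r) (C o) r x) = ψ o x

/-- A model in a projective space. -/
structure Md {q : ℕ} (X : Set (Gr 1 q)) (K : Set (Fin (1 + q) → ℂ)) (l₀ : Fin (1 + q))
    (em : R → Fin (1 + q)) (v : (R → ℂ) → Fin (1 + q) → ℂ) (wt : Fin (1 + q) → ι → ℤ)
    (cv : R → ι → ℤ) (s : R → Fin (1 + q) → Fin (1 + q)) (e : R → Fin (1 + q) → ℤ)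
    (ip : R → R → ℤ) : Prop where
  tab : Ip ip
  cl : IsClosed X
  mem : ∀ (P : Gr 1 q) y, y ≠ 0 → Matrix.of P.1 *ᵥ y = y → (P ∈ X ↔ y ∈ K)
  v0 : ∀ x, v x l₀ = 1
  vem : ∀ x r, v x (em r) = x r
  vd : Differentiable ℂ v
  vK : ∀ x, v x ∈ K
  cell : ∀ y ∈ K, y l₀ = 1 → y = v fun r => y (em r)
  act : ∀ r, ∀ y ∈ K, (fun μ => e r μ * y (s r μ)) ∈ K
  tor : ∀ τ, ∀ y ∈ K, (fun μ => chi (wt μ) τ * y μ) ∈ K
  ss : ∀ r μ, s r (s r μ) = μ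
  ee : ∀ r μ, e r (s r μ) = e r μ
  e1 : ∀ r μ, e r μ = 1 ∨ e r μ = -1
  s0 : ∀ r, s r l₀ = em r
  rf : ∀ r μ, wt (s r μ) = wt μ - (wt μ ⬝ᵥ cv r) • (wt (em r) - wt l₀)
  ipe : ∀ r r', ip r r' = (wt (em r') - wt l₀) ⬝ᵥ cv r
  tri : ∀ r r', ip r r' = 1 → s r (em r') = em r'
  ax : ∀ r z μ, μ ≠ l₀ → μ ≠ em r → v (ax r z) μ = 0
  tr : ∃ lv : Fin (1 + q) → ℕ, ∀ μ, μ = l₀ ∨ ∃ r, lv (s r μ) < lv μ

end gen

/-! ### Statements -/

/-- The orientation is constant along an axis; the differential is bijective. -/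
def St_SG1 : Prop := ∀ (ι R F : Type) [Fintype ι] [Fintype R] [DecidableEq R] (d : ℕ) (Y : Type)
  [TopologicalSpace Y] [ChartedSpace (E d) Y] [IsManifold 𝓘(ℂ, E d) ω Y] (w : F → R → ι → ℤ)
  (nb : F → R → F) (s : F → (R → ℂ) → Y) (κ : F → Y → R → ℂ) (ρ : (ι → ℝ) → Y → Y),
  Cmb w nb → Dat d w nb s κ ρ → (∀ o x, Function.Bijective (Dv d (s o) x)) ∧ ∀ o r,
    ((∀ z, Ori d (s o) (ax r z) (ax r 1) 1) ∨ ∀ z, Ori d (s o) (ax r z) (ax r 1) (-1)) ∧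
    ∀ z, ¬(Ori d (s o) (ax r z) (ax r 1) 1 ∧ Ori d (s o) (ax r z) (ax r 1) (-1))

/-- Moment functions exist. -/
def St_MOM : Prop := ∀ (ι R F : Type) [Fintype ι] [Fintype R] [DecidableEq R] (d : ℕ) (Y : Type)
  [TopologicalSpace Y] [ChartedSpace (E d) Y] [IsManifold 𝓘(ℂ, E d) ω Y] (w : F → R → ι → ℤ)
  (nb : F → R → F) (s : F → (R → ℂ) → Y) (κ : F → Y → R → ℂ) (ρ : (ι → ℝ) → Y → Y)
  (h : Y → HS.Mat d) (ξ : ι → ℤ), Cmb w nb → Dat d w nb s κ ρ → GH.Kaehler h →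
  ∃ H, Mom d w s κ ξ H

/-- The cell at a vertex. -/
def St_CEL : Prop := ∀ (ι R F : Type) [Fintype ι] [Fintype R] [DecidableEq R] (d : ℕ) (Y : Type)
  [TopologicalSpace Y] [T2Space Y] [ChartedSpace (E d) Y] [IsManifold 𝓘(ℂ, E d) ω Y]
  (w : F → R → ι → ℤ) (nb : F → R → F) (s : F → (R → ℂ) → Y) (κ : F → Y → R → ℂ)
  (ρ : (ι → ℝ) → Y → Y) (A : (ι → ℂ) → Y → Y), Cmb w nb → Dat d w nb s κ ρ → Act d ρ A →
  ∀ o, (∀ r, Ori d (s o) 0 (ax r 1) 1) → ∃ ψ η, Cl d A (w o) (s o 0) ψ η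

/-- The axis of a cell meets the neighbouring cell. -/
def St_EDG : Prop := ∀ (ι R F : Type) [Fintype ι] [Fintype R] [DecidableEq R] (d : ℕ) (Y : Type)
  [TopologicalSpace Y] [T2Space Y] [ChartedSpace (E d) Y] [IsManifold 𝓘(ℂ, E d) ω Y]
  (w : F → R → ι → ℤ) (nb : F → R → F) (s : F → (R → ℂ) → Y) (κ : F → Y → R → ℂ)
  (ρ : (ι → ℝ) → Y → Y) (A : (ι → ℂ) → Y → Y) (o : F) (r : R) (ψ ψ' : (R → ℂ) → Y)
  (η η' : Y → R → ℂ), Cmb w nb → Dat d w nb s κ ρ → Act d ρ A → Cl d A (w o) (s o 0) ψ η →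
  Cl d A (w (nb o r)) (s (nb o r) 0) ψ' η' → ψ (ax r 1) ∈ range ψ'

/-- Gluing. -/
def St_GLU : Prop := ∀ (ι R F : Type) [Fintype ι] [Fintype R] [DecidableEq R] [Finite F] (d : ℕ)
  (X Y : Type) [TopologicalSpace X] [CompactSpace X] [TopologicalSpace Y] [T2Space Y]
  [ChartedSpace (E d) Y] (w : F → R → ι → ℤ) (nb : F → R → F) (Piv : R → Prop)
  (tr : F → R → (R → ℂ) → R → ℂ) (σ : F → (R → ℂ) → X) (ψ : F → (R → ℂ) → Y)
  (η : F → Y → R → ℂ) (G : F → (R → ℂ) → Prop), Cmb w nb → Gen nb Piv → Nonempty (X ≃ₜ Y) →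
  Mod w nb Piv tr σ → Cell d w nb ψ η → Nrm nb Piv tr ψ G →
  (∀ o o', ψ o 0 = ψ o' 0 → σ o 0 = σ o' 0) →
  ∃ (φ : X ≃ₜ Y) (u : F → R → ℂ), (∀ o r, u o r ≠ 0) ∧ ∀ o x, φ (σ o x) = ψ o (u o * x)

end Pool.Agent.Lib.GV40
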