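import Pool.Agent.Lib.GV40.Blue
import Pool.Agent.Lib.GU40.B_SG1
import Pool.Agent.Lib.GU40.B_MOM
import Pool.Agent.Lib.GU40.B_CEL

/-! Project gv40: blocks of project gu40 with a weaker hypothesis, first part. -/

open scoped Manifold ContDiff Topology Matrix
open Set Filter Metric Complex Sum

set_option linter.unusedVariables false
set_option linter.unusedSectionVars false

noncomputable section

namespace Pool.Agent.Lib.GV40

open Pool.Agent.Lib.GT40 (E cx Act hol_ch hol_symm sm_ch sm_symm st_ID)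
open Pool.Agent.Lib.GU40

section sg1

variable {ι R F : Type} [Fintype ι] [Fintype R] [DecidableEq R] {d : ℕ} {Y : Type}
  [TopologicalSpace Y] [ChartedSpace (E d) Y] [IsManifold 𝓘(ℂ, E d) ω Y]
  {w : F → R → ι → ℤ} {nb : F → R → F} {s : F → (R → ℂ) → Y} {κ : F → Y → R → ℂ}
  {ρ : (ι → ℝ) → Y → Y} {A : (ι → ℂ) → Y → Y}

open SG1B

/-- The image of the tangent line of an axis is a complex line. -/
theorem exi (hc : Cmb w nb) (h : Dat d w nb s κ ρ) (o : F) (r : R) (z : ℂ) :
    ∃ a b : ℝ, b ≠ 0 ∧ I • Dv d (s o) (ax r z) (ax r 1) =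
      a • Dv d (s o) (ax r z) (ax r 1) + b • Dv d (s o) (ax r z) (I • ax r 1) := by
  obtain ⟨hi, hs⟩ := bij h o (ax r z)
  obtain ⟨u, hu⟩ := hs (I • Dv d (s o) (ax r z) (ax r 1))
  have hu' : u = ax r (u r) := by
    funext r'
    by_cases hr : r' = r
    · simp [ax, hr]
    rw [ax, if_neg hr]
    obtain ⟨θ, h1, h2⟩ := hc.sep o r r' hr
    have fx (z : ℂ) : sg (w o) (cx θ) (ax r z) = ax r z := by rw [sg_ax, h1, one_mul]
    obtain ⟨L, hL⟩ := equi h o (fx z)
    have e1 : sg (w o) (cx θ) u = u := by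
      apply hi
      rw [hL, hu, map_smul, ← hL, fx]
    by_contra h0
    exact h2 (mul_right_cancel₀ h0 ((congrFun e1 r').trans (one_mul _).symm))
  have e3 : I • Dv d (s o) (ax r z) (ax r 1) =
      (u r).re • Dv d (s o) (ax r z) (ax r 1) + (u r).im • Dv d (s o) (ax r z) (I • ax r 1) := by
    have e0 := congrArg (Dv d (s o) (ax r z)) (hu'.trans (ax_eq r (u r)))
    rw [map_add, map_smul, map_smul, hu] at e0
    exact e0
  refine ⟨(u r).re, (u r).im, fun h0 => ?_, e3⟩
  rw [h0, zero_smul, add_zero, ← Complex.coe_smul, ← sub_eq_zero, ← sub_smul] at e3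
  rcases smul_eq_zero.1 e3 with c | c
  · have := congrArg im c
    simp at this
  · exact dv_ne h o _ r c

theorem opn (hC : Cmb w nb) (h : Dat d w nb s κ ρ) (o : F) (r : R) (ε : ℝ) :
    IsOpen {z : ℂ | Ori d (s o) (ax r z) (ax r 1) ε} := by
  refine isOpen_iff_mem_nhds.2 fun w₀ hw => ?_
  obtain ⟨a₀, b₀, hb₀, e₀⟩ := hw
  have hp := mem_chart_source (E d) (s o (ax r w₀))
  set e := chartAt (E d) (s o (ax r w₀)) with he
  obtain ⟨c, hc⟩ := Function.ne_iff.1 (dv_ne h o (ax r w₀) r)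
  have h1 : ContinuousAt (fun w => fderiv ℝ (e ∘ s o) (ax r w)) w₀ :=
    ContinuousAt.comp (f := ax r) ((sm_ch (h.sm o _) hp).continuousAt_fderiv (by simp))
      (cont_ax r).continuousAt
  have h2 : ∀ v, ContinuousAt (fun w => fderiv ℝ (e ∘ s o) (ax r w) v c) w₀ := fun v =>
    (continuous_apply c).continuousAt.comp (h1.clm_apply continuousAt_const)
  set P : ℂ → ℂ := fun w => fderiv ℝ (e ∘ s o) (ax r w) (ax r 1) c with hP
  set Q : ℂ → ℂ := fun w => fderiv ℝ (e ∘ s o) (ax r w) (I • ax r 1) c with hR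
  have cP : ContinuousAt P w₀ := h2 _
  have cR : ContinuousAt Q w₀ := h2 _
  have cg : ContinuousAt (fun w => ε * ((Q w).im * (P w).re - (Q w).re * (P w).im)) w₀ :=
    continuousAt_const.mul
      (((continuous_im.continuousAt.comp cR).mul (continuous_re.continuousAt.comp cP)).sub
        ((continuous_re.continuousAt.comp cR).mul (continuous_im.continuousAt.comp cP)))
  have g0 : 0 < ε * ((Q w₀).im * (P w₀).re - (Q w₀).re * (P w₀).im) := by
    have e1 : I * P w₀ = a₀ * P w₀ + b₀ * Q w₀ := congrFun e₀ c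
    have e2 := sq_eq e1
    have e3 : 0 < (P w₀).re ^ 2 + (P w₀).im ^ 2 := by
      have := normSq_pos.2 (show P w₀ ≠ 0 from hc)
      rw [normSq_apply] at this
      nlinarith
    have hb : b₀ ≠ 0 := fun c => by simp [c] at hb₀
    have e4 : 0 < b₀ ^ 2 * (ε * ((Q w₀).im * (P w₀).re - (Q w₀).re * (P w₀).im)) := by
      have := mul_pos hb₀ e3
      rw [← e2] at this
      nlinarith
    exact (mul_pos_iff_of_pos_left (by positivity)).1 e4
  have hsrc : ∀ᶠ w in 𝓝 w₀, s o (ax r w) ∈ e.source :=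
    ((h.sm o).continuous.comp (cont_ax r)).continuousAt.preimage_mem_nhds
      (e.open_source.mem_nhds hp)
  filter_upwards [cg.eventually (lt_mem_nhds g0), hsrc] with w hw1 hw2
  obtain ⟨a, b, hb, e1⟩ := exi hC h o r w
  refine ⟨a, b, ?_, e1⟩
  obtain ⟨L, hL⟩ := chg (f := id) (p := s o (ax r w)) (p' := s o (ax r w₀)) (h.sm o _)
    mdifferentiableAt_id (mem_chart_source (E d) _) hw2
  have e2 := congrArg L e1
  rw [map_smul, map_add, L.map_smul_of_tower, L.map_smul_of_tower] at e2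
  have e3 : I * P w = a * P w + b * Q w := by
    have := congrFun e2 c
    simp only [Dv, ← hL] at this
    exact this
  have e4 := sq_eq e3
  have hε : ε ≠ 0 := fun c => by simp [c] at hb₀
  have e5 : 0 ≤ (ε * b) * (ε * ((Q w).im * (P w).re - (Q w).re * (P w).im)) := by
    have : (ε * b) * (ε * ((Q w).im * (P w).re - (Q w).re * (P w).im)) =
        ε ^ 2 * ((P w).re ^ 2 + (P w).im ^ 2) := by rw [← e4]; ring
    rw [this]
    positivity
  exact lt_of_le_of_ne (nonneg_of_mul_nonneg_left e5 hw1) (mul_ne_zero hε hb).symm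

theorem st_SG1 : St_SG1 := by
  intro ι R F _ _ _ d Y _ _ _ w nb s κ ρ hC h
  refine ⟨bij h, fun o r => ⟨?_, fun z => excl h o _ r⟩⟩
  have hu : (univ : Set ℂ) ⊆ {z : ℂ | Ori d (s o) (ax r z) (ax r 1) 1} ∪
      {z : ℂ | Ori d (s o) (ax r z) (ax r 1) (-1)} := fun z _ => by
    obtain ⟨a, b, hb, e⟩ := exi hC h o r z
    rcases lt_or_gt_of_ne hb with c | c
    · exact Or.inr ⟨a, b, by linarith, e⟩
    · exact Or.inl ⟨a, b, by linarith, e⟩
  rcases isPreconnected_univ.subset_or_subset (opn hC h o r 1) (opn hC h o r (-1))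
    (disjoint_left.2 fun z h1 h2 => excl h o _ r ⟨h1, h2⟩) hu with c | c
  · exact Or.inl fun z => c (mem_univ z)
  · exact Or.inr fun z => c (mem_univ z)

open CELB in
theorem cline [T2Space Y] (hc : Cmb w nb) (h : Dat d w nb s κ ρ) (hA : Act d ρ A) (o : F) (hp : ∀ τ, A τ (s o 0) = s o 0)
    (r : R) (hO : Ori d (s o) 0 (ax r 1) 1) :
    Dv d (s o) 0 (I • ax r 1) = I • Dv d (s o) 0 (ax r 1) := by
  obtain ⟨a, b, hb, e⟩ := hO
  rw [one_mul] at hb
  have hb' : (b : ℂ) ≠ 0 := by exact_mod_cast hb.ne'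
  have hne := SG1B.dv_ne h o 0 r
  obtain ⟨θ, hθ⟩ := quarter (hc.nz o r)
  have e1 : Dv d (s o) 0 (I • ax r 1) = ((I - a) / b) • Dv d (s o) 0 (ax r 1) := by
    rw [div_eq_inv_mul, mul_smul, sub_smul, e, ← Complex.coe_smul, ← Complex.coe_smul,
      add_sub_cancel_left, smul_smul, inv_mul_cancel₀ hb', one_smul]
  have r1 := realL h hA o hp θ ((1 : ℂ) • ax r 1)
  have r2 := realL h hA o hp θ (I • ax r 1)
  rw [hθ, one_smul, mul_one, e1] at r1
  rw [hθ, e1, map_smul, r1, I_mul_I, neg_smul, one_smul, map_neg, smul_smul,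
    ← neg_one_smul ℂ (Dv d (s o) 0 (ax r 1))] at r2
  have c2 := smul_left_injective ℂ hne r2
  have c3 : ((I - a) / b - I) * ((I - a) / b + I) = 0 := by
    have : ((I - a) / b - I) * ((I - a) / b + I) = (I - a) / b * ((I - a) / b) - I * I := by ring
    rw [this, I_mul_I, c2]
    ring
  rcases mul_eq_zero.1 c3 with c4 | c4
  · rw [e1, sub_eq_zero.1 c4]
  · exfalso
    have c5 := congrArg Complex.im c4
    simp only [add_im, div_ofReal_im, sub_im, I_im, ofReal_im, sub_zero, zero_im] at c5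
    have : 0 < 1 / b := by positivity
    linarith

end sg1

open MOMB in
theorem st_MOM (hKF : St_KF) (hPOT : St_POT) : St_MOM := by
  intro ι R F _ _ _ d Y _ _ _ w nb s κ ρ h ξ hC hD hh
  choose Ω h1 h2 h3 h4 using fun o => hKF R d Y h (s o) hh (hD.sm o)
  choose H L hH using fun o => hPOT R (fun r => w o r ⬝ᵥ ξ) (Ω o) (h1 o) (h3 o) (h4 o)
  refine ⟨H, fun o o' hc => ?_, fun o r u ε hO hu hε => ?_, fun o r u ε hO hu hε => ?_,
    fun o r u h0 => flat (h3 o) (hH o) r u h0⟩
  · have hd (x) (hx : s o x ∈ range (s o')) :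
        HasFDerivAt (fun x => H o x - H o' (κ o' (s o x))) (0 : (R → ℂ) →L[ℝ] ℝ) x := by
      refine ((hH o x).1.sub ((hH o' _).1.comp x (diff_g hD hx).hasFDerivAt)).congr_fderiv ?_
      ext v
      have h5 : s o' (κ o' (s o x)) = s o x := back hD hx
      rw [_root_.sub_apply, ContinuousLinearMap.comp_apply, (hH o x).2, (hH o' _).2,
        _root_.zero_apply, sub_eq_zero]
      refine intervalIntegral.integral_congr fun θ _ => ?_
      have h0 : s o (rot (fun r => w o r ⬝ᵥ ξ) θ x) ∈ range (s o') := by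
        rw [rot_eq]
        exact ⟨_, s_sg hD hx _⟩
      simp only [h2]
      rw [← om_g hD h0, dg_gen hD hx]
      simp only [Function.comp_apply, rot_eq, dg_sg hD hx, g_sg hD hx]
    obtain ⟨c, hc⟩ := (isOpen_ov hD o o').exists_is_const_of_fderiv_eq_zero (𝕜 := ℝ) hc
      (fun x hx => (hd x hx).differentiableAt.differentiableWithinAt) fun x hx => (hd x hx).fderiv
    exact ⟨c, fun x hx => by linarith [hc x hx]⟩
  · have hε0 : ε ≠ 0 := fun c => by simp [c] at hε
    have := mono (σ := 1) (h1 o).continuous (h3 o) (hH o) r hu fun z => by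
      rw [h2, one_mul]
      refine (mul_pos_iff_of_pos_left (mul_self_pos.2 hε0)).1 ?_
      nlinarith [mul_pos hε (om_sign hD hh o _ r (hO z))]
    linarith
  · have hε0 : ε ≠ 0 := fun c => by simp [c] at hε
    have := mono (σ := -1) (h1 o).continuous (h3 o) (hH o) r hu fun z => by
      rw [h2]
      refine (mul_pos_iff_of_pos_left (mul_self_pos.2 hε0)).1 ?_
      nlinarith [mul_pos (neg_pos.2 hε) (om_sign hD hh o _ r (hO z))]
    linarith

open CELB in
theorem st_CEL : St_CEL := by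
  intro ι R F _ _ _ d Y _ _ _ _ w nb s κ ρ A hc h hA o hO
  have hp := fix h hA o
  have hx := expand (Dv d (s o) 0) fun r => cline hc h hA o hp r (hO r)
  let DL : (R → ℂ) →ₗ[ℂ] E d :=
    { toFun := Dv d (s o) 0
      map_add' := map_add _
      map_smul' := fun c v => by
        rw [hx (c • v), hx v]
        simp only [Finset.smul_sum, Pi.smul_apply, smul_eq_mul, RingHom.id_apply, smul_smul] }
  let D : (R → ℂ) ≃L[ℂ] E d :=
    (LinearEquiv.ofBijective DL (SG1B.bij h o 0)).toContinuousLinearEquiv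
  obtain ⟨τ₀, hτ₀⟩ := hc.con o (1 / 2) (by norm_num)
  have hD : ∀ τ v, fderiv ℂ (chartAt (E d) (s o 0) ∘ A τ ∘ (chartAt (E d) (s o 0)).symm)
      (chartAt (E d) (s o 0) (s o 0)) (D v) = D (sg (w o) τ v) := fun τ v => by
    refine st_ID _ d (E d) univ (fun τ => fderiv ℂ (chartAt (E d) (s o 0) ∘ A τ ∘
        (chartAt (E d) (s o 0)).symm) (chartAt (E d) (s o 0) (s o 0)) (D v))
      (fun τ => D (sg (w o) τ v)) isOpen_univ convex_univ (mem_univ _)
      (fun t _ => mdifferentiableAt_iff_differentiableAt.2 (holL hA hp _ t))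
      (fun t _ => mdifferentiableAt_iff_differentiableAt.2 ?_)
      (fun θ _ => realL h hA o hp θ v) τ (mem_univ _)
    refine D.differentiableAt.comp t (differentiableAt_pi.2 fun r => ?_)
    simp only [sg, chi]
    fun_prop
  obtain ⟨ψ, η, h1, h2, h3, h4, h5, h6⟩ := GT40.KOEB.core (τ₀ := τ₀) hA hp fun v => by
    rw [← D.apply_symm_apply v, hD, ← map_smul]
    exact congrArg _ (funext fun r => by simp [sg, hτ₀])
  refine ⟨ψ ∘ D, D.symm ∘ η, fun x => ?_, ?_, fun x => ?_, ?_, fun x => ?_, fun τ x => ?_⟩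
  · exact (h1 _).comp x (mdifferentiableAt_iff_differentiableAt.2 D.differentiableAt)
  · rw [Function.comp_apply, map_zero, h2]
  · simp only [Function.comp_apply, h3, D.symm_apply_apply]
  · rwa [D.surjective.range_comp]
  · exact (mdifferentiableAt_iff_differentiableAt.2 D.symm.differentiableAt).comp _ (h5 _)
  · simp only [Function.comp_apply, h6, hD]

end Pool.Agent.Lib.GV40
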