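import Pool.Agent.Lib.GV40.Blue
import Pool.Agent.Lib.GU40.B_EDG
import Pool.Agent.Lib.GU40.B_GLU

/-! Project gv40: blocks of project gu40 with a weaker hypothesis, second part. -/

open scoped Manifold ContDiff Topology Matrix
open Set Filter Metric Complex Sum

set_option linter.unusedVariables false
set_option linter.unusedSectionVars false

noncomputable section

namespace Pool.Agent.Lib.GV40

open Pool.Agent.Lib.GT40 (E cx Act hol_ch sm_ch sm_symm)
open Pool.Agent.Lib.GU40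

open EDGB in
theorem st_EDG : St_EDG := by
  intro ι R F _ _ _ d Y _ _ _ _ w nb s κ ρ A o r ψ ψ' η η' hC hD hA hψ hψ'
  classical
  set o' := nb o r with ho'
  set Fix : Set Y := {y | ∀ θ, chi (w o r) (cx θ) = 1 → ρ θ y = y} with hFix
  have hsw : ∀ y, (∀ θ, chi (w o' r) (cx θ) = 1 → ρ θ y = y) ↔ y ∈ Fix := fun y => by
    simp only [ho', hC.opp, chi_opp, inv_eq_one, hFix, mem_ofPred_eq]
  have f1 : ∀ x, s o x ∈ Fix ↔ ∃ z, x = ax r z :=
    fix_ax ρ (w o) r (hC.sep o r) (s o) (Function.LeftInverse.injective (hD.inv o))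
      fun θ x => hD.eqv θ o x
  have f2 : ∀ x, s o' x ∈ Fix ↔ ∃ z, x = ax r z := fun x => (hsw _).symm.trans
    (fix_ax ρ (w o') r (hC.sep o' r) (s o') (Function.LeftInverse.injective (hD.inv o'))
      (fun θ x => hD.eqv θ o' x) x)
  have f3 : ∀ x, ψ x ∈ Fix ↔ ∃ z, x = ax r z :=
    fix_ax ρ (w o) r (hC.sep o r) ψ (Function.LeftInverse.injective hψ.inv) fun θ x => by
      rw [← hA.re, hψ.eqv]
  have f4 : ∀ x, ψ' x ∈ Fix ↔ ∃ z, x = ax r z := fun x => (hsw _).symm.trans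
    (fix_ax ρ (w o') r (hC.sep o' r) ψ' (Function.LeftInverse.injective hψ'.inv)
      (fun θ x => by rw [← hA.re, hψ'.eqv]) x)
  obtain ⟨c, hc0, htr⟩ := hD.edge.1 o r
  have htr' : ∀ z, z ≠ 0 → s o (ax r (c / z)) = s o' (ax r z) := fun z hz => by
    rw [← htr _ (div_ne_zero hc0 hz), div_div_cancel₀ hc0]
  have hc : ∀ o, Continuous fun z => s o (ax r z) := fun o =>
    (hD.sm o).continuous.comp (ax_smooth r).continuous
  set K : Set Y := (fun z => s o (ax r z)) '' closedBall 0 1 ∪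
    (fun z => s o' (ax r z)) '' closedBall 0 ‖c‖ with hK
  have hKc : IsCompact K :=
    ((isCompact_closedBall 0 1).image (hc o)).union ((isCompact_closedBall 0 _).image (hc o'))
  have hKp : IsPreconnected K := by
    refine IsPreconnected.union (s o (ax r 1)) ⟨1, by simp, rfl⟩ ⟨c, by simp, ?_⟩
      ((convex_closedBall 0 1).isPreconnected.image _ (hc o).continuousOn)
      ((convex_closedBall 0 _).isPreconnected.image _ (hc o').continuousOn)
    simpa using htr 1 one_ne_zero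
  have hcp : 0 < ‖c‖ := norm_pos_iff.2 hc0
  have hKe : ∀ y, y ∈ K ↔ y ∈ Fix ∧ y ∈ range (s o) ∪ range (s o') := fun y => by
    constructor
    · rintro (⟨z, -, rfl⟩ | ⟨z, -, rfl⟩)
      · exact ⟨(f1 _).2 ⟨z, rfl⟩, Or.inl ⟨_, rfl⟩⟩
      · exact ⟨(f2 _).2 ⟨z, rfl⟩, Or.inr ⟨_, rfl⟩⟩
    · rintro ⟨hy, ⟨x, rfl⟩ | ⟨x, rfl⟩⟩
      · obtain ⟨z, rfl⟩ := (f1 x).1 hy
        by_cases hz : ‖z‖ ≤ 1
        · exact Or.inl ⟨z, mem_closedBall_zero_iff.2 hz, rfl⟩
        · refine Or.inr ⟨c / z, ?_, htr z fun h => hz (by simp [h])⟩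
          rw [mem_closedBall_zero_iff, norm_div]
          exact div_le_self hcp.le (not_le.1 hz).le
      · obtain ⟨z, rfl⟩ := (f2 x).1 hy
        by_cases hz : ‖z‖ ≤ ‖c‖
        · exact Or.inr ⟨z, mem_closedBall_zero_iff.2 hz, rfl⟩
        · refine Or.inl ⟨c / z, ?_, htr' z fun h => hz (by simp [h])⟩
          rw [mem_closedBall_zero_iff, norm_div]
          exact div_le_one_of_le₀ (not_le.1 hz).le (norm_nonneg _)
  have hAc : ∀ y, Continuous fun τ => A τ y := fun y =>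
    hA.hol.continuous.comp (continuous_id.prodMk continuous_const)
  have hAK : ∀ y ∈ K, ∀ τ, A τ y ∈ K := fun y hy => by
    have hF : ∀ τ, A τ y ∈ Fix := fun τ θ hθ => by
      rw [← hA.re, ← hA.add, add_comm, hA.add, hA.re, ((hKe y).1 hy).1 θ hθ]
    have hcl : IsClopen ((fun τ => A τ y) ⁻¹' K) := by
      refine ⟨hKc.isClosed.preimage (hAc y), ?_⟩
      have : (fun τ => A τ y) ⁻¹' K = (fun τ => A τ y) ⁻¹' (range (s o) ∪ range (s o')) :=
        Set.ext fun τ => (hKe _).trans (and_iff_right (hF τ))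
      rw [this]
      exact ((hD.op o).union (hD.op o')).preimage (hAc y)
    intro τ
    have := hcl.eq_univ ⟨0, by simpa only [mem_preimage, hA.zero] using hy⟩
    exact (this ▸ mem_univ τ : τ ∈ (fun τ => A τ y) ⁻¹' K)
  have hback : ∀ τ y, A (-τ) (A τ y) = y := fun τ y => by rw [← hA.add, neg_add_cancel, hA.zero]
  by_cases hcov : K ⊆ range ψ ∪ range ψ'
  · obtain ⟨y, hy, ⟨x, hx⟩, x', hx'⟩ := hKp _ _ hψ.op hψ'.op hcov
      ⟨s o 0, Or.inl ⟨0, by simp, by simp only [ax_zero]⟩, 0, hψ.zero⟩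
      ⟨s o' 0, Or.inr ⟨0, by simp, by simp only [ax_zero]⟩, 0, hψ'.zero⟩
    have hyF := ((hKe y).1 hy).1
    obtain ⟨z, rfl⟩ := (f3 x).1 (hx ▸ hyF)
    obtain ⟨z', rfl⟩ := (f4 x').1 (hx' ▸ hyF)
    have hz : z ≠ 0 := by
      rintro rfl
      obtain ⟨τ, hτ⟩ := hC.con o' 2 two_ne_zero
      have e1 := hψ.eqv τ (ax r 0)
      have e2 := hψ'.eqv τ (ax r z')
      simp only [sg_ax, mul_zero, hτ] at e1 e2
      rw [hx] at e1
      rw [hx', e1, ← hx'] at e2
      have e3 := congrFun (Function.LeftInverse.injective hψ'.inv e2) r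
      simp only [ax_at] at e3
      have e4 : z' = 0 := by linear_combination -e3
      rw [e4, ax_zero, hψ'.zero] at hx'
      rw [ax_zero, hψ.zero] at hx
      exact hD.edge.2 o r (hx'.trans hx.symm)
    obtain ⟨τ, hτ⟩ := hC.con o z⁻¹ (inv_ne_zero hz)
    have e1 := hψ.eqv τ (ax r z)
    rw [sg_ax, hτ, inv_mul_cancel₀ hz] at e1
    rw [← e1, hx, ← hx', hψ'.eqv]
    exact ⟨_, rfl⟩
  · exfalso
    set B := K \ (range ψ ∪ range ψ') with hB
    have hBc : IsCompact B := hKc.diff (hψ.op.union hψ'.op)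
    have hBn : B.Nonempty := by
      obtain ⟨y, hy, hy'⟩ := not_subset.1 hcov
      exact ⟨y, hy, hy'⟩
    have hBA : ∀ y ∈ B, ∀ τ, A τ y ∈ B := fun y hy τ => by
      refine ⟨hAK y hy.1 τ, fun h => hy.2 ?_⟩
      rw [← hback τ y]
      rcases h with ⟨x, hx⟩ | ⟨x, hx⟩
      · exact Or.inl ⟨_, by rw [← hx, hψ.eqv]⟩
      · exact Or.inr ⟨_, by rw [← hx, hψ'.eqv]⟩
    have hBs : ∀ y ∈ B, y = s o (ax r (κ o y r)) := by
      rintro y ⟨⟨z, -, rfl⟩ | ⟨z, -, rfl⟩, hy⟩
      · simp only [hD.inv, ax_at]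
      · have hz : z ≠ 0 := by
          rintro rfl
          exact hy (Or.inr ⟨0, by simp only [hψ'.zero, ax_zero]⟩)
        simp only [← htr' z hz, hD.inv, ax_at]
    obtain ⟨y0, hy0, hmin⟩ := hBc.exists_isMinOn hBn (f := fun y => normSq (κ o y r))
      fun y hy => by
        have h1 : ContinuousAt (κ o) y := by
          rw [hBs y hy]
          exact (hD.smi o _).continuousAt
        exact (continuous_normSq.continuousAt.comp ((continuous_apply r).continuousAt.comp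
          h1)).continuousWithinAt
    set u0 := κ o y0 r with hu0
    have hy0s : y0 = s o (ax r u0) := hBs y0 hy0
    set e := chartAt (E d) y0 with he
    obtain ⟨a, ha⟩ := hC.nz o r
    have ha' : (w o r a : ℂ) ≠ 0 := Int.cast_ne_zero.2 ha
    set ξ : ℂ → ι → ℂ := fun t => Pi.single a (t / w o r a) with hξ
    have hξ0 : ξ 0 = 0 := by simp [hξ]
    have hξd : Differentiable ℂ ξ := differentiable_pi.2 fun a' => by
      by_cases h : a' = a
      · simp [hξ, h]
      · simp [hξ, h]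
    have hm : MDifferentiable 𝓘(ℂ, ℂ) 𝓘(ℂ, E d) fun t => A (ξ t) y0 :=
      hA.hol.comp (hξd.mdifferentiable.prodMk mdifferentiable_const)
    have h00 : A (ξ 0) y0 = y0 := by rw [hξ0, hA.zero]
    have hsrc : ∀ᶠ t in 𝓝 (0 : ℂ), A (ξ t) y0 ∈ e.source :=
      hm.continuous.continuousAt.preimage_mem_nhds (by
        rw [h00]
        exact e.open_source.mem_nhds (mem_chart_source _ _))
    have hz : u0 = 0 := by
      refine GT40.EDGB.core (e ∘ fun t => A (ξ t) y0) (fun t => κ o (A (ξ t) y0) r)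
        (e ∘ fun z => s o (ax r z)) (fun z => κ o (e.symm z) r) u0
        (hol_ch (hm 0) (by rw [h00]; exact mem_chart_source _ _)) ?_ ?_ ?_ ?_ (fun t => ?_)
        fun t => hmin (hBA y0 hy0 _)
      · refine (sm_ch ((hD.sm o).comp (ax_smooth r).contMDiff u0) ?_).differentiableAt (by simp)
        show s o (ax r u0) ∈ _
        rw [← hy0s]
        exact mem_chart_source _ _
      · simp only [Function.comp, h00]
        have h1 : ContMDiffAt 𝓘(ℝ, E d) 𝓘(ℝ, R → ℂ) ∞ (κ o ∘ e.symm) (e y0) := by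
          refine ContMDiffAt.comp _ ?_ (sm_symm (mem_chart_target _ _))
          rw [e.left_inv (mem_chart_source _ _), hy0s]
          exact hD.smi o _
        exact (((contDiff_apply ℝ ℂ r).contDiffAt.comp _
          (contMDiffAt_iff_contDiffAt.1 h1))).differentiableAt (by simp)
      · filter_upwards [hsrc] with t ht
        simp only [Function.comp, e.left_inv ht]
      · refine Eventually.of_forall fun t => ?_
        simp only [Function.comp]
        rw [← hBs _ (hBA y0 hy0 _)]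
      · have h1 : ξ t = cx (Pi.single a (t / w o r a)) := funext fun a' => by
          by_cases h : a' = a <;> simp [hξ, cx, h]
        rw [h1, hA.re, hy0s, hD.eqv, hD.inv, sg_ax, ax_at, ← h1]
        simp [chi, hξ, Pi.single_apply, mul_div_cancel₀ _ ha']
    rw [hz, ax_zero, ← hψ.zero] at hy0s
    exact hy0.2 (Or.inl ⟨0, hy0s.symm⟩)

theorem exists_ts {ι R F : Type} [Fintype ι] [Fintype R] [DecidableEq R]
    {w : F → R → ι → ℤ} {nb : F → R → F} (h : Cmb w nb) :
    ∃ ts : F → ℂ → ι → ℂ, ∀ o s, s ≠ 0 → ∀ y, sg (w o) (ts o s) y = s • y := by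
  choose! ts hts using h.con
  exact ⟨ts, fun o s hs y => funext fun r => by rw [sg, hts o s hs, Pi.smul_apply, smul_eq_mul]⟩

open GLUB in
theorem st_GLU : St_GLU := by
  intro ι R F _ _ _ _ d X Y _ _ _ _ _ w nb Piv tr σ ψ η G hcmb hGEN ⟨Φ⟩ hM hC hN hv
  classical
  obtain ⟨ts, hts⟩ := exists_ts hcmb
  obtain ⟨o₀, u₀, hG₀⟩ := hN.ex
  have hσi : ∀ o, Function.Injective (σ o) := fun o => (hM.emb o).injective
  have hψi : ∀ o, Function.Injective (ψ o) := fun o => Function.LeftInverse.injective (hC.inv o)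
  have hψc : ∀ o, Continuous (ψ o) := fun o => (hC.hol o).continuous
  have hW : Dense {P | ∀ o, P ∈ range (σ o)} :=
    GT40.GLUB.dense_all (fun o => range (σ o)) (fun o => (hM.emb o).isOpen_range)
      (dense_rg hGEN hM)
  have hex : ∀ o, ∃ u, G o u ∧ ∀ x x₀, σ o x = σ o₀ x₀ → (∀ o', σ o x ∈ range (σ o')) →
      ψ o (u * x) = ψ o₀ (u₀ * x₀) := by
    intro o
    refine hGEN (fun o => ∃ u, G o u ∧ ∀ x x₀, σ o x = σ o₀ x₀ →
      (∀ o', σ o x ∈ range (σ o')) → ψ o (u * x) = ψ o₀ (u₀ * x₀)) ?_ o₀ o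
      ⟨u₀, hG₀, fun x x₀ h _ => by rw [hσi o₀ h]⟩
    rintro o₁ r hr ⟨u, hu, h⟩
    obtain ⟨u', hu', h'⟩ := hN.step o₁ u r hr hu
    refine ⟨u', hu', fun y x₀ hy hall => ?_⟩
    obtain ⟨x, hx⟩ := hall o₁
    have hne : x r ≠ 0 := hM.mem o₁ r x hr ⟨y, hx.symm⟩
    have hyx : tr o₁ r x = y := hσi _ ((hM.tr o₁ r x hr hne).trans hx)
    rw [← hyx, h' x hne]
    exact h x x₀ (hx.trans hy) fun o' => hx ▸ hall o'
  choose u hu hu' using hex
  have hne : ∀ o r, u o r ≠ 0 := fun o => hN.ne o (u o) (hu o)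
  set f : F → X → Y := fun o P => ψ o (u o * Function.invFun (σ o) P) with hf
  have hfσ : ∀ o x, f o (σ o x) = ψ o (u o * x) := fun o x => by
    simp only [hf]
    rw [Function.leftInverse_invFun (hσi o) x]
  have hcu : ∀ o, Continuous fun x : R → ℂ => ψ o (u o * x) := fun o =>
    (hψc o).comp (continuous_const.mul continuous_id)
  have hfc : ∀ o x, ContinuousAt (f o) (σ o x) := fun o x => by
    rw [← (hM.emb o).continuousAt_iff]
    have e : f o ∘ σ o = fun x : R → ℂ => ψ o (u o * x) := funext (hfσ o)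
    rw [e]
    exact (hcu o).continuousAt
  have hff : ∀ o o' P, (∀ o'', P ∈ range (σ o'')) → f o P = f o' P := by
    intro o o' P hP
    obtain ⟨x₀, h₀⟩ := hP o₀
    have a : ∀ o, f o P = ψ o₀ (u₀ * x₀) := fun o => by
      obtain ⟨x, hx⟩ := hP o
      rw [← hx, hfσ]
      exact hu' o x x₀ (hx.trans h₀.symm) fun o' => hx ▸ hP o'
    rw [a o, a o']
  have hcomp : ∀ o o' x x', σ o x = σ o' x' → ψ o (u o * x) = ψ o' (u o' * x') := by
    intro o o' x x' h
    have hb : (𝓝[{P | ∀ o, P ∈ range (σ o)}] (σ o x)).NeBot :=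
      mem_closure_iff_nhdsWithin_neBot.1 (hW _)
    have t1 : Tendsto (f o) (𝓝[{P | ∀ o, P ∈ range (σ o)}] (σ o x)) (𝓝 (f o (σ o x))) :=
      (hfc o x).tendsto.mono_left nhdsWithin_le_nhds
    have t2 : Tendsto (f o') (𝓝[{P | ∀ o, P ∈ range (σ o)}] (σ o x)) (𝓝 (f o' (σ o' x'))) := by
      rw [h]
      exact (hfc o' x').tendsto.mono_left nhdsWithin_le_nhds
    have e : f o =ᶠ[𝓝[{P | ∀ o, P ∈ range (σ o)}] (σ o x)] f o' := by
      filter_upwards [self_mem_nhdsWithin] with P hP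
      exact hff o o' P hP
    rw [← hfσ, ← hfσ]
    exact tendsto_nhds_unique (t1.congr' e) t2
  choose oo hoo using hM.cov
  set φ : X → Y := fun P => f (oo P) P with hφ
  have hφσ : ∀ o x, φ (σ o x) = ψ o (u o * x) := fun o x => by
    obtain ⟨y, hy⟩ := hoo (σ o x)
    have e : φ (σ o x) = f (oo (σ o x)) (σ (oo (σ o x)) y) := by rw [hy]
    rw [e, hfσ]
    exact hcomp _ _ _ _ hy
  have hφc : Continuous φ := by
    refine continuous_iff_continuousAt.2 fun P => ?_
    obtain ⟨x, hx⟩ := hoo P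
    rw [← hx, ← (hM.emb (oo P)).continuousAt_iff]
    have e : φ ∘ σ (oo P) = fun x : R → ℂ => ψ (oo P) (u (oo P) * x) := funext (hφσ _)
    rw [e]
    exact (hcu _).continuousAt
  have hsurj : Function.Surjective φ := by
    have hX : PreconnectedSpace X :=
      (dense_rg hGEN hM o₀).preconnectedSpace (hM.emb o₀).continuous
    have hY : PreconnectedSpace Y := Φ.surjective.denseRange.preconnectedSpace Φ.continuous
    have e : range φ = ⋃ o, range (ψ o) := by
      refine Subset.antisymm ?_ ?_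
      · rintro _ ⟨P, rfl⟩
        obtain ⟨x, hx⟩ := hoo P
        refine mem_iUnion.2 ⟨oo P, u (oo P) * x, ?_⟩
        rw [← hφσ, hx]
      · refine iUnion_subset fun o => ?_
        rintro _ ⟨y, rfl⟩
        obtain ⟨x, rfl⟩ := mul_onto (hne o) y
        exact ⟨σ o x, hφσ o x⟩
    have hcl : IsClopen (range φ) :=
      ⟨(isCompact_range hφc).isClosed, e ▸ isOpen_iUnion fun o => hC.op o⟩
    exact range_eq_univ.1 (hcl.eq_univ ⟨_, σ o₀ 0, rfl⟩)
  have hinj : ∀ o o' x x', ψ o (u o * x) = ψ o' (u o' * x') → σ o x = σ o' x' := by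
    intro o o' x x' h
    set γ : ℂ → X := fun s => σ o (sg (w o) (ts o' s) x) with hγ
    have hφγ : ∀ s, s ≠ 0 → φ (γ s) = ψ o' (s • (u o' * x')) := fun s hs => by
      simp only [hγ]
      rw [hφσ, ← sg_mul, hC.eq (ts o' s) o o' _ _ h, hts o' s hs]
    have hlim : Tendsto (φ ∘ γ) (𝓝[≠] 0) (𝓝 (ψ o' 0)) := by
      have hc : Continuous fun s : ℂ => ψ o' (s • (u o' * x')) :=
        (hψc o').comp (continuous_id.smul continuous_const)
      have h1 := (hc.tendsto 0).mono_left (nhdsWithin_le_nhds (s := {0}ᶜ))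
      rw [zero_smul] at h1
      refine h1.congr' ?_
      filter_upwards [self_mem_nhdsWithin] with s hs
      exact (hφγ s hs).symm
    obtain ⟨P, hP⟩ : ∃ P, MapClusterPt P (𝓝[≠] (0 : ℂ)) γ :=
      exists_clusterPt_of_compactSpace (map γ (𝓝[≠] (0 : ℂ)))
    have hP' : MapClusterPt (φ P) (𝓝[≠] (0 : ℂ)) (φ ∘ γ) := hP.continuousAt_comp hφc.continuousAt
    have hPe : φ P = ψ o' 0 := eq_of_nhds_neBot (ClusterPt.mono hP' hlim)
    obtain ⟨z, hz⟩ := hoo P
    have h1 : ψ (oo P) (u (oo P) * z) = ψ o' 0 := by rw [← hφσ, hz, hPe]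
    have h2 := hC.eq (ts (oo P) 2) (oo P) o' _ _ h1
    rw [hts _ _ two_ne_zero, sg_null, ← h1] at h2
    have h3 : u (oo P) * z = 0 := by
      have h4 := hψi _ h2
      rw [two_smul] at h4
      exact add_eq_left.1 h4
    have h5 : z = 0 := mul_cancel (hne (oo P)) (h3.trans (mul_zero _).symm)
    rw [h3] at h1
    have h6 : P = σ o' 0 := by rw [← hv _ _ h1, ← h5, hz]
    have h7 : range (σ o') ∈ 𝓝 P := (hM.emb o').isOpen_range.mem_nhds ⟨0, h6.symm⟩
    have h8 : ∃ᶠ s in 𝓝[≠] (0 : ℂ), γ s ∈ range (σ o') := hP.frequently h7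
    obtain ⟨s, ⟨y, hy⟩, hs⟩ := (h8.and_eventually self_mem_nhdsWithin).exists
    have h9 := hM.eq (-ts o' s) o o' _ y hy.symm
    rw [sg_sg, neg_add_cancel, sg_zero] at h9
    have h10 := hcomp _ _ _ _ h9
    rw [h] at h10
    rw [h9, mul_cancel (hne o') (hψi o' h10)]
  have hφi : Function.Injective φ := by
    intro P P' h
    obtain ⟨x, hx⟩ := hoo P
    obtain ⟨x', hx'⟩ := hoo P'
    rw [← hx, ← hx']
    refine hinj _ _ _ _ ?_
    rw [← hφσ, ← hφσ, hx, hx', h]
  exact ⟨Continuous.homeoOfEquivCompactToT2 (f := Equiv.ofBijective φ ⟨hφi, hsurj⟩) hφc, u, hne,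
    hφσ⟩

end Pool.Agent.Lib.GV40
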