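import Pool.Agent.Lib.GV40.RS

/-! Project gv40: the cubic form, its gradient and its symmetries. -/

open scoped Manifold ContDiff Topology Matrix
open Set Filter Metric Complex Sum

set_option linter.unusedVariables false
set_option linter.unusedSectionVars false

noncomputable section

namespace Pool.Agent.Lib.GV40

open Pool.Agent.Lib.GT40 (E Gr Full Spans cx RAct Act)
open Pool.Agent.Lib.GU40

instance decFace {R : Type} (ip : R → R → ℤ) (L : List R) (a : R) : Decidable (Face ip L a) :=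
  List.decidableBAll _ L

instance decRel {R : Type} [Fintype R] (ip : R → R → ℤ) (r δ a b : R) :
    Decidable (Rel ip r δ a b) := Fintype.decidableForallFintype

namespace CUB

/-- The terms of the gradient. -/
def L : Fin 27 → List (Fin 27 × Fin 27 × Bool) :=
  ![[(4, 8, false), (5, 7, true), (9, 18, true), (10, 21, true), (11, 24, true)], [(3, 8, true),
  (5, 6, false), (12, 18, true), (13, 21, true), (14, 24, true)], [(3, 7, false), (4, 6, true),
  (15, 18, true), (16, 21, true), (17, 24, true)], [(1, 8, true), (2, 7, false), (9, 19, true),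
  (10, 22, true), (11, 25, true)], [(0, 8, false), (2, 6, true), (12, 19, true), (13, 22, true),
  (14, 25, true)], [(0, 7, true), (1, 6, false), (15, 19, true), (16, 22, true), (17, 25, true)],
  [(1, 5, false), (2, 4, true), (9, 20, true), (10, 23, true), (11, 26, true)], [(0, 5, true),
  (2, 3, false), (12, 20, true), (13, 23, true), (14, 26, true)], [(0, 4, false), (1, 3, true),
  (15, 20, true), (16, 23, true), (17, 26, true)], [(0, 18, true), (3, 19, true), (6, 20, true),
  (13, 17, false), (14, 16, true)], [(0, 21, true), (3, 22, true), (6, 23, true), (12, 17, true),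
  (14, 15, false)], [(0, 24, true), (3, 25, true), (6, 26, true), (12, 16, false), (13, 15,
  true)], [(1, 18, true), (4, 19, true), (7, 20, true), (10, 17, true), (11, 16, false)], [(1,
  21, true), (4, 22, true), (7, 23, true), (9, 17, false), (11, 15, true)], [(1, 24, true), (4,
  25, true), (7, 26, true), (9, 16, true), (10, 15, false)], [(2, 18, true), (5, 19, true), (8,
  20, true), (10, 14, false), (11, 13, true)], [(2, 21, true), (5, 22, true), (8, 23, true), (9,
  14, true), (11, 12, false)], [(2, 24, true), (5, 25, true), (8, 26, true), (9, 13, false), (10,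
  12, true)], [(0, 9, true), (1, 12, true), (2, 15, true), (22, 26, false), (23, 25, true)], [(3,
  9, true), (4, 12, true), (5, 15, true), (21, 26, true), (23, 24, false)], [(6, 9, true), (7,
  12, true), (8, 15, true), (21, 25, false), (22, 24, true)], [(0, 10, true), (1, 13, true), (2,
  16, true), (19, 26, true), (20, 25, false)], [(3, 10, true), (4, 13, true), (5, 16, true), (18,
  26, false), (20, 24, true)], [(6, 10, true), (7, 13, true), (8, 16, true), (18, 25, true), (19,
  24, false)], [(0, 11, true), (1, 14, true), (2, 17, true), (19, 23, false), (20, 22, true)],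
  [(3, 11, true), (4, 14, true), (5, 17, true), (18, 23, true), (20, 21, false)], [(6, 11, true),
  (7, 14, true), (8, 17, true), (18, 22, false), (19, 21, true)]]

/-- A term. -/
def tm (y : Fin 27 → ℂ) (p : Fin 27 × Fin 27 × Bool) : ℂ :=
  (if p.2.2 then -1 else 1) * (y p.1 * y p.2.1)

/-- The gradient. -/
def D (y : Fin 27 → ℂ) (j : Fin 27) : ℂ := ((L j).map (tm y)).sum

/-- A digit of a table. -/
def dg (T k i : ℕ) : ℕ := T >>> (k * i) % 2 ^ k

/-- The permutations. -/
def s6 (r : Fin 17) (μ : Fin 27) : Fin 27 := Fin.ofNat 27 (dg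
  6122270886788191444979675748118719066395839060895139770272082043519314989565983267965538552531586084417574548068505884857398446953048403704640323932679778762393422058601523953013220416706428771032705632898884200771934888362965958690496303108452402229795263886732611899566095446978841062808553436337329339613556783851696688560024438727061322125524726454451962576511342102706780194243700273842698887345232029011326562657319517384886552623943756346711726922514171360987415795589194171615041400907584194582332697729410211551899076464303196057919498910442202512048840035356921809534943415234853657903222345439981645755061549807140244165907155729062571649137647800053885938781452222273323017570305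
  5 (27 * r + μ))

/-- The signs. -/
def b6 (r : Fin 17) (μ : Fin 27) : Bool := dg
  4281364723840425269235221017205480250519521085988423388047843547481364785374311881532865591638234039978999187484447586902416181696
  1 (27 * r + μ) == 1

/-- The signs as integers. -/
def e6 (r : Fin 17) (μ : Fin 27) : ℤ := if b6 r μ then -1 else 1

/-- The image of a term. -/
def ac (r : Fin 17) (j : Fin 27) (p : Fin 27 × Fin 27 × Bool) : Fin 27 × Fin 27 × Bool :=
  (min (s6 r p.1) (s6 r p.2.1), max (s6 r p.1) (s6 r p.2.1),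
    xor (xor p.2.2 (b6 r j)) (xor (b6 r p.1) (b6 r p.2.1)))

theorem perm : ∀ r j, ((L j).map (ac r j)).Perm (L (s6 r j)) := by decide +kernel

theorem dis (j : Fin 27) : ∀ p ∈ L j, p.1 ≠ p.2.1 := fun p hp => of_decide_eq_true
  (List.all_eq_true.1 ((by decide +kernel : ∀ j, (L j).all fun p => p.1 ≠ p.2.1) j) p hp)

theorem ss6 : ∀ r μ, s6 r (s6 r μ) = μ := by decide +kernel

theorem ee6 : ∀ r μ, e6 r (s6 r μ) = e6 r μ := by decide +kernel

theorem e61 (r : Fin 17) (μ : Fin 27) : e6 r μ = 1 ∨ e6 r μ = -1 := by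
  unfold e6
  split_ifs <;> simp

theorem sq6 (r : Fin 17) (μ : Fin 27) : (e6 r μ : ℂ) * e6 r μ = 1 := by
  rcases e61 r μ with j | j <;> simp [j]

theorem cub_eq (x : Fin 27 → ℂ) : cub x =
    x 0 * x 4 * x 8 - x 0 * x 5 * x 7 - x 0 * x 9 * x 18 - x 0 * x 10 * x 21 - x 0 * x 11 * x 24
    - x 1 * x 3 * x 8 + x 1 * x 5 * x 6 - x 1 * x 12 * x 18 - x 1 * x 13 * x 21 - x 1 * x 14 * x
    24 + x 2 * x 3 * x 7 - x 2 * x 4 * x 6 - x 2 * x 15 * x 18 - x 2 * x 16 * x 21 - x 2 * x 17 *
    x 24 - x 3 * x 9 * x 19 - x 3 * x 10 * x 22 - x 3 * x 11 * x 25 - x 4 * x 12 * x 19 - x 4 * x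
    13 * x 22 - x 4 * x 14 * x 25 - x 5 * x 15 * x 19 - x 5 * x 16 * x 22 - x 5 * x 17 * x 25 - x
    6 * x 9 * x 20 - x 6 * x 10 * x 23 - x 6 * x 11 * x 26 - x 7 * x 12 * x 20 - x 7 * x 13 * x
    23 - x 7 * x 14 * x 26 - x 8 * x 15 * x 20 - x 8 * x 16 * x 23 - x 8 * x 17 * x 26 + x 9 * x
    13 * x 17 - x 9 * x 14 * x 16 - x 10 * x 12 * x 17 + x 10 * x 14 * x 15 + x 11 * x 12 * x 16
    - x 11 * x 13 * x 15 + x 18 * x 22 * x 26 - x 18 * x 23 * x 25 - x 19 * x 21 * x 26 + x 19 *
    x 23 * x 24 + x 20 * x 21 * x 25 - x 20 * x 22 * x 24 := by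
  simp only [cub, blk, Matrix.det_fin_three, Matrix.trace_fin_three, Matrix.mul_apply,
    Fin.sum_univ_three, Matrix.of_apply, Fin.val_zero, Fin.val_one, Fin.val_two, Nat.reduceMul,
    Nat.reduceAdd, Fin.reduceFinMk]
  ring

theorem d_cub : Differentiable ℂ cub := by
  rw [show cub = _ from funext cub_eq]
  fun_prop

theorem d_D (j : Fin 27) : Differentiable ℂ fun y => D y j := by
  unfold D
  induction L j with
  | nil => simp
  | cons p l ih =>
    simp only [List.map_cons, List.sum_cons, tm] at ih ⊢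
    exact Differentiable.fun_add (by fun_prop) ih

theorem D_eq (y : Fin 27 → ℂ) : D y =
    ![y 4 * y 8 - y 5 * y 7 - y 9 * y 18 - y 10 * y 21 - y 11 * y 24, 0 - y 3 * y 8 + y 5 * y 6 -
    y 12 * y 18 - y 13 * y 21 - y 14 * y 24, y 3 * y 7 - y 4 * y 6 - y 15 * y 18 - y 16 * y 21 -
    y 17 * y 24, 0 - y 1 * y 8 + y 2 * y 7 - y 9 * y 19 - y 10 * y 22 - y 11 * y 25, y 0 * y 8 -
    y 2 * y 6 - y 12 * y 19 - y 13 * y 22 - y 14 * y 25, 0 - y 0 * y 7 + y 1 * y 6 - y 15 * y 19
    - y 16 * y 22 - y 17 * y 25, y 1 * y 5 - y 2 * y 4 - y 9 * y 20 - y 10 * y 23 - y 11 * y 26,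
    0 - y 0 * y 5 + y 2 * y 3 - y 12 * y 20 - y 13 * y 23 - y 14 * y 26, y 0 * y 4 - y 1 * y 3 -
    y 15 * y 20 - y 16 * y 23 - y 17 * y 26, 0 - y 0 * y 18 - y 3 * y 19 - y 6 * y 20 + y 13 * y
    17 - y 14 * y 16, 0 - y 0 * y 21 - y 3 * y 22 - y 6 * y 23 - y 12 * y 17 + y 14 * y 15, 0 - y
    0 * y 24 - y 3 * y 25 - y 6 * y 26 + y 12 * y 16 - y 13 * y 15, 0 - y 1 * y 18 - y 4 * y 19 -
    y 7 * y 20 - y 10 * y 17 + y 11 * y 16, 0 - y 1 * y 21 - y 4 * y 22 - y 7 * y 23 + y 9 * y 17
    - y 11 * y 15, 0 - y 1 * y 24 - y 4 * y 25 - y 7 * y 26 - y 9 * y 16 + y 10 * y 15, 0 - y 2 *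
    y 18 - y 5 * y 19 - y 8 * y 20 + y 10 * y 14 - y 11 * y 13, 0 - y 2 * y 21 - y 5 * y 22 - y 8
    * y 23 - y 9 * y 14 + y 11 * y 12, 0 - y 2 * y 24 - y 5 * y 25 - y 8 * y 26 + y 9 * y 13 - y
    10 * y 12, 0 - y 0 * y 9 - y 1 * y 12 - y 2 * y 15 + y 22 * y 26 - y 23 * y 25, 0 - y 3 * y 9
    - y 4 * y 12 - y 5 * y 15 - y 21 * y 26 + y 23 * y 24, 0 - y 6 * y 9 - y 7 * y 12 - y 8 * y
    15 + y 21 * y 25 - y 22 * y 24, 0 - y 0 * y 10 - y 1 * y 13 - y 2 * y 16 - y 19 * y 26 + y 20
    * y 25, 0 - y 3 * y 10 - y 4 * y 13 - y 5 * y 16 + y 18 * y 26 - y 20 * y 24, 0 - y 6 * y 10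
    - y 7 * y 13 - y 8 * y 16 - y 18 * y 25 + y 19 * y 24, 0 - y 0 * y 11 - y 1 * y 14 - y 2 * y
    17 + y 19 * y 23 - y 20 * y 22, 0 - y 3 * y 11 - y 4 * y 14 - y 5 * y 17 - y 18 * y 23 + y 20
    * y 21, 0 - y 6 * y 11 - y 7 * y 14 - y 8 * y 17 + y 18 * y 22 - y 19 * y 21] := by
  funext j
  fin_cases j <;> simp [D, L, tm] <;> ring

theorem pol (v h : Fin 27 → ℂ) (t : ℂ) : cub (v + t • h) =
    cub v + t * ∑ j, h j * D v j + t ^ 2 * ∑ j, v j * D h j + t ^ 3 * cub h := by
  simp [cub_eq, Fin.sum_univ_succ, D_eq]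
  ring

theorem fd (v h : Fin 27 → ℂ) : fderiv ℂ cub v h = ∑ j, h j * D v j := by
  have h1 : HasDerivAt (fun t : ℂ => cub (v + t • h)) (fderiv ℂ cub v h) 0 :=
    (d_cub v).hasFDerivAt.hasLineDerivAt h
  simp only [pol] at h1
  refine h1.unique ?_
  simpa using ((((hasDerivAt_id' (0 : ℂ)).mul_const (∑ j, h j * D v j)).const_add (cub v)).fun_add
    ((hasDerivAt_pow 2 (0 : ℂ)).mul_const (∑ j, v j * D h j))).fun_add
    ((hasDerivAt_pow 3 (0 : ℂ)).mul_const (cub h))

theorem fd1 (v : Fin 27 → ℂ) (j : Fin 27) : fderiv ℂ cub v (Pi.single j 1) = D v j := by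
  simp [fd, Pi.single_apply]

theorem fd0 (v : Fin 27 → ℂ) : fderiv ℂ cub v = 0 ↔ ∀ j, D v j = 0 :=
  ⟨fun h j => by rw [← fd1, h]; rfl, fun h => by ext y; simp [fd, h]⟩

theorem D_sc {t : Fin 27 → ℂ} {c : ℂ} {j : Fin 27} (h : ∀ p ∈ L j, t p.1 * t p.2.1 = c)
    (y : Fin 27 → ℂ) : D (fun a => t a * y a) j = c * D y j := by
  rw [D, D, ← List.sum_map_mul_left]
  refine congrArg _ (List.map_congr_left fun p hp => ?_)
  simp only [tm, ← h p hp]
  ring

theorem D_smul (c : ℂ) (y : Fin 27 → ℂ) (j : Fin 27) : D (c • y) j = c * c * D y j :=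
  D_sc (t := fun _ => c) (fun _ _ => rfl) y

theorem eul (y : Fin 27 → ℂ) : cub y = (∑ j, y j * D y j) / 3 := by
  have h1 := pol y y 1
  have h2 := pol 0 y 2
  have h3 := pol 0 0 1
  simp only [zero_add, Pi.zero_apply, zero_mul, Finset.sum_const_zero, smul_zero] at h2 h3
  simp only [show ∀ j, D 0 j = 0 from fun j => by simpa using D_smul 0 0 j] at h2
  rw [one_smul, ← two_smul ℂ y, h2] at h1
  simp only [mul_zero, Finset.sum_const_zero] at h1
  linear_combination h1 / 6 + h3 / 6

theorem cub_smul (c : ℂ) (y : Fin 27 → ℂ) : cub (c • y) = c * c * c * cub y := by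
  simp only [eul, D_smul, Pi.smul_apply, smul_eq_mul, Finset.mul_sum, Finset.sum_div]
  exact Finset.sum_congr rfl fun j _ => by ring

theorem D_act (r : Fin 17) (y : Fin 27 → ℂ) (j : Fin 27) :
    D (fun μ => e6 r μ * y (s6 r μ)) j = e6 r j * D y (s6 r j) := by
  rw [D, D, ← ((perm r j).map (tm y)).sum_eq, List.map_map, ← List.sum_map_mul_left]
  refine congrArg _ (List.map_congr_left fun p _ => ?_)
  have e : y (min (s6 r p.1) (s6 r p.2.1)) * y (max (s6 r p.1) (s6 r p.2.1)) =
      y (s6 r p.1) * y (s6 r p.2.1) := by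
    rcases le_total (s6 r p.1) (s6 r p.2.1) with h | h <;> simp [h, mul_comm]
  simp only [tm, Function.comp, ac, e, e6]
  by_cases h1 : p.2.2 = true <;> by_cases h2 : b6 r j = true <;> by_cases h3 : b6 r p.1 = true <;>
    by_cases h4 : b6 r p.2.1 = true <;> simp [h1, h2, h3, h4]

theorem cub_act (r : Fin 17) (y : Fin 27 → ℂ) : cub (fun μ => e6 r μ * y (s6 r μ)) = cub y := by
  rw [eul, eul y, ← Equiv.sum_comp (Function.Involutive.toPerm _ (ss6 r)) fun j => y j * D y j]
  refine congrArg (· / 3) (Finset.sum_congr rfl fun j _ => ?_)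
  rw [D_act]
  exact (mul_mul_mul_comm _ _ _ _).trans (by rw [sq6, one_mul]; rfl)

theorem D_ax (r : Fin 27) (z : ℂ) (j : Fin 27) : D (ax r z) j = 0 := by
  refine List.sum_eq_zero fun a ha => ?_
  obtain ⟨p, hp, rfl⟩ := List.mem_map.1 ha
  by_cases h : p.1 = r
  · simp [tm, ax, show p.2.1 ≠ r from h ▸ (dis j p hp).symm]
  · simp [tm, ax, h]

theorem chi_plus {ι : Type} [Fintype ι] (w w' : ι → ℤ) (τ : ι → ℂ) :
    chi (w + w') τ = chi w τ * chi w' τ := by
  simp only [chi, Pi.add_apply, Int.cast_add, add_mul, Finset.sum_add_distrib, mul_add, exp_add]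

end CUB

end Pool.Agent.Lib.GV40
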