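import Pool.Agent.Lib.GV40.TRA
import Pool.Agent.Lib.GU40.NRK

/-! Project gv40: the shape of the transition maps, and the system of quadrics at a vertex. -/

open scoped Manifold ContDiff Topology Matrix
open Set Filter Metric Complex Sum

set_option linter.unusedVariables false
set_option linter.unusedSectionVars false

noncomputable section

namespace Pool.Agent.Lib.GV40

open Pool.Agent.Lib.GT40 (E Gr Full Spans cx RAct Act)
open Pool.Agent.Lib.GU40

variable {ι R F Λ : Type} [Fintype ι] [Fintype R] [DecidableEq R] {ip : R → R → ℤ}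
  {w : F → R → ι → ℤ} {nb : F → R → F} {vx : F → Λ} {Y : Type} [TopologicalSpace Y]
  {ψ : F → (R → ℂ) → Y} {η : F → Y → R → ℂ}

namespace TC

theorem inj (h : TC w nb vx ψ η) (o : F) {x y : R → ℂ} (e : ψ o x = ψ o y) : x = y := by
  rw [← h.inv o x, e, h.inv]

theorem back (h : TC w nb vx ψ η) {o o' : F} {τ : ι → ℂ} {x : R → ℂ}
    (e : ψ o (sg (w o) τ x) ∈ range (ψ o')) : ψ o x ∈ range (ψ o') := by
  obtain ⟨y, hy⟩ := e
  have h1 := h.eq (-τ) _ _ _ _ hy
  rw [sg_sg (w o), neg_add_cancel, sg_zero] at h1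
  exact ⟨_, h1⟩

theorem near (h : TC w nb vx ψ η) {o o' : F} {z : ℂ → R → ℂ} (hz : Continuous z)
    (e : ψ o (z 0) ∈ range (ψ o')) : (∃ s, s ≠ 0 ∧ ψ o (z s) ∈ range (ψ o')) ∧
      ContinuousAt (fun s => η o' (ψ o (z s))) 0 := by
  have a2 : ContinuousAt (fun s => ψ o (z s)) 0 := ((h.cont _).comp hz).continuousAt
  refine ⟨?_, ?_⟩
  · have h2 : ∀ᶠ s : ℂ in 𝓝 0, ψ o (z s) ∈ range (ψ o') := a2.eventually ((h.op o').mem_nhds e)
    obtain ⟨s, h3, h4⟩ := ((h2.filter_mono (nhdsWithin_le_nhds (s := {0}ᶜ))).and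
      self_mem_nhdsWithin).exists
    exact ⟨s, h4, h3⟩
  · obtain ⟨y, hy⟩ := e
    have a1 : ContinuousAt (η o') (ψ o (z 0)) := hy ▸ h.ci _ y
    exact ContinuousAt.comp (f := fun s => ψ o (z s)) a1 a2

theorem rng (hR : Rs w nb vx ip) (h : TC w nb vx ψ η) {o o' : F} (e : vx o = vx o') (x : R → ℂ) :
    ψ o x ∈ range (ψ o') := by
  obtain ⟨⟨s, hs, h1⟩, -⟩ := h.near (o := o) (o' := o') (z := fun s => s • x) (by fun_prop)
    ⟨0, by rw [zero_smul, h.same o o' e]⟩
  obtain ⟨τ, hτ⟩ := hR.con o hs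
  refine h.back (τ := τ) ?_
  rwa [show sg (w o) τ x = s • x from funext fun r => by simp [sg, hτ]]

theorem mem (hR : Rs w nb vx ip) (h : TC w nb vx ψ η) (o : F) {r : R} {x : R → ℂ} (hx : x r ≠ 0) :
    ψ o x ∈ range (ψ (nb o r)) := by
  obtain ⟨y, hy⟩ := h.edge o r
  obtain ⟨τ₀, hτ₀⟩ := hR.con o hx
  have h0 := h.eq τ₀ _ _ _ _ hy
  rw [sg_ax, hτ₀, mul_one] at h0
  obtain ⟨⟨s, hs, h1⟩, -⟩ := h.near (o := o) (o' := nb o r)
    (z := fun s c => s ^ (2 - ip r c).toNat * x c) (by fun_prop) ⟨_, h0.trans (congrArg _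
      (funext fun c => by
        rcases hR.tab.cases r c with rfl | k | k
        · simp [ax, hR.tab.two]
        · simp [ax, k, hR.tab.ne1 k]
        · simp [ax, k, hR.tab.ne0 k]))⟩
  obtain ⟨τ, hτ⟩ := hR.grd o r hs
  refine h.back (τ := τ) ?_
  rwa [show sg (w o) τ x = fun c => s ^ (2 - ip r c).toNat * x c from funext fun c => by
    rw [sg, hτ, ← zpow_natCast, Int.toNat_of_nonneg (by have := hR.tab.le2 r c; omega)]]

theorem fwd (hR : Rs w nb vx ip) (h : TC w nb vx ψ η) (o : F) {r : R} {x : R → ℂ} (hx : x r ≠ 0) :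
    ψ (nb o r) (η (nb o r) (ψ o x)) = ψ o x := by
  obtain ⟨y, hy⟩ := h.mem hR o hx
  rw [← hy, h.inv]

theorem trn (hR : Rs w nb vx ip) (h : TC w nb vx ψ η) : ∃ k C, Trn nb ip ψ k C := by
  have he : ∀ o r τ x, x r ≠ 0 → ∀ c, η (nb o r) (ψ o (sg (w o) τ x)) c =
      chi (w o c) τ * chi (w o r) τ ^ (-ip r c) * η (nb o r) (ψ o x) c := fun o r τ x hx c => by
    rw [← h.eq τ _ _ _ _ (h.fwd hR o hx), h.inv, sg, hR.chi_nb]
  have th : ∀ o r, TRNB.Th ip r fun x => η (nb o r) (ψ o x) := fun o r => by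
    refine ⟨fun x hx => h.hol _ _ _ (h.mem hR o hx), fun x y hx hy e => h.inj o ?_,
      fun s hs x hx c => ?_, fun s hs x hx c => ?_, fun c' x hx c => ?_⟩
    · rw [← h.fwd hR o hx, ← h.fwd hR o hy]
      exact congrArg _ e
    · obtain ⟨τ, hτ⟩ := hR.con o hs
      have := he o r τ x hx c
      rwa [hτ, hτ, show sg (w o) τ x = s • x from funext fun r => by simp [sg, hτ]] at this
    · obtain ⟨τ, hτ⟩ := hR.grd o r hs
      have := he o r τ x hx c
      rwa [hτ, hτ, hR.tab.two, sub_self, zpow_zero, one_zpow, mul_one,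
        show sg (w o) τ x = _ from funext fun r => by rw [sg, hτ]] at this
    · obtain ⟨τ, hτ⟩ := hR.tst o c'
      have := he o r τ x hx c
      rwa [hτ, hτ, show sg (w o) τ x = _ from funext fun r => by rw [sg, hτ]] at this
  choose k C h1 h2 h3 h4 using fun o r => TRNB.core hR.tab (th o r)
  exact ⟨k, C, h1, h2, h3, fun o r x hx =>
    (congrArg _ (h4 o r x hx).symm).trans (h.fwd hR o hx)⟩

variable {k : F → R → R → ℂ} {C : F → R → R → R → R → ℂ}

theorem cn_iff (hR : Rs w nb vx ip) (hT : Trn nb ip ψ k C) {o : F} {r : R} {x : R → ℂ}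
    (hx : x r ≠ 0) : Cn ip (C o) r x ↔ ∀ δ, ip r δ = 0 → gt ip (k o r) (C o) r x δ = 0 :=
  forall_congr' fun δ => forall_congr' fun j => by
    simp [gt, hR.tab.ne0 j, j, hT.ne, hx]

theorem qs (hR : Rs w nb vx ip) (h : TC w nb vx ψ η) (hT : Trn nb ip ψ k C) (o : F) :
    Qs ip (C o) := by
  refine ⟨hT.sy o, hT.su o, fun r r' x j hx hx' hc => (cn_iff hR hT hx').2 fun δ hδ => ?_⟩
  rw [cn_iff hR hT hx] at hc
  set y := gt ip (k o r) (C o) r x with hy
  set z : ℂ → R → ℂ := fun s c => if c = r then s * y c else y c with hz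
  have z1 : Continuous z := continuous_pi fun c => by
    simp only [hz]
    split_ifs <;> fun_prop
  have z2 : ∀ s τ, s ≠ 0 → (∀ c, chi (w o c) τ = s⁻¹) → ψ o (sg (w o) τ x) = ψ (nb o r) (z s) :=
    fun s τ hs hτ => by
    rw [← h.eq τ _ _ _ _ (hT.tr o r x hx)]
    refine congrArg _ (funext fun c => ?_)
    rw [sg, hR.chi_nb, hτ, hτ]
    rcases hR.tab.cases r c with rfl | i | i
    · simp only [hz, if_true, hR.tab.two, inv_zpow', neg_neg, zpow_two, ← hy]
      field_simp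
    · simp [hz, i, hR.tab.ne1 i, hs, ← hy]
    · simp [hz, hR.tab.ne0 i, ← hy, hc c i]
  have z3 : ψ (nb o r) (z 0) ∈ range (ψ (nb o r')) := by
    obtain ⟨u, hu⟩ := h.mem hR (nb o r) (r := r') (x := z 0) (by
      simp [hz, hy, gt, hR.tab.ne1 j, j, hT.ne, hx, hx'])
    exact hu ▸ h.rng hR (hR.tri o r r' j) u
  refine NRK.lim0 ((continuous_apply δ).continuousAt.comp (h.near z1 z3).2) continuous_id rfl
    fun s hs => ?_
  obtain ⟨τ, hτ⟩ := hR.con o (inv_ne_zero hs)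
  simp only [Function.comp, id]
  rw [← z2 s τ hs hτ, ← h.eq τ _ _ _ _ (hT.tr o r' x hx'), h.inv, sg, hR.chi_nb, hτ, hδ]
  simp [hs]

/-- A point of a neighbouring cell has a pivot different from zero. -/
theorem piv (hR : Rs w nb vx ip) (h : TC w nb vx ψ η) (hT : Trn nb ip ψ k C) {o : F} {r : R}
    {x : R → ℂ} (hx : ψ o x ∈ range (ψ (nb o r))) : x r ≠ 0 := by
  obtain ⟨u, hu⟩ := hx
  have t := hT.tr (nb o r) r
  rw [hR.inv] at t
  have g : ∀ u, gt ip (k (nb o r) r) (C (nb o r)) r u r = k (nb o r) r r / u r := fun u => by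
    simp [gt]
  by_cases h1 : u r = 0
  · exfalso
    obtain ⟨-, h2⟩ := h.near (o := nb o r) (o' := o) (z := fun s => u + s • 1) (by fun_prop)
      ⟨x, by simpa using hu.symm⟩
    refine hT.ne (nb o r) r r (NRK.lim0 ((continuous_apply r).continuousAt.comp h2) continuous_id
      rfl fun s hs => ?_)
    simp only [Function.comp]
    rw [← t (u + s • 1) (by simpa [h1] using hs), h.inv, g]
    simp only [Pi.add_apply, h1, Pi.smul_apply, Pi.one_apply, smul_eq_mul, id, mul_one, zero_add]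
    field_simp
  · rw [← h.inj o ((t u h1).trans hu), g]
    exact div_ne_zero (hT.ne _ _ _) h1

end TC

end Pool.Agent.Lib.GV40
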