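import Pool.Agent.Lib.GV40.FRM
import Pool.Agent.Lib.GV40.TRN
import Pool.Agent.Lib.GU40.B_CON
import Pool.Agent.Lib.GT40.B_MOD

/-! Project gv40: the cells of a model in a projective space. -/

open scoped Manifold ContDiff Topology Matrix
open Set Filter Metric Complex Sum

set_option linter.unusedVariables false
set_option linter.unusedSectionVars false

noncomputable section

namespace Pool.Agent.Lib.GV40

open Pool.Agent.Lib.GT40 (E Gr Full Spans cx RAct Act)
open Pool.Agent.Lib.GU40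

open LIN

variable {ι R F : Type} [Fintype ι] [Fintype R] [DecidableEq R] {q : ℕ}

/-- Cells given by vectors. -/
structure Pc (X : Set (Gr 1 q)) (wt : Fin (1 + q) → ι → ℤ) (w : F → R → ι → ℤ) (nb : F → R → F)
    (vx : F → Fin (1 + q)) (V : F → (R → ℂ) → Fin (1 + q) → ℂ)
    (co : F → (Fin (1 + q) → ℂ) → R → ℂ) (σ : F → (R → ℂ) → X) : Prop where
  on : ∀ o x, On (σ o x).1 (V o x)
  vd : ∀ o, Differentiable ℂ (V o)
  v0 : ∀ o x, V o x (vx o) ≠ 0
  cd : ∀ o y, y (vx o) ≠ 0 → ContDiffAt ℂ ∞ (co o) y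
  cs : ∀ o (c : ℂ) y, c ≠ 0 → co o (c • y) = co o y
  cv : ∀ o x, co o (V o x) = x
  cel : ∀ o (P : X) y, On P.1 y → y (vx o) ≠ 0 → σ o (co o y) = P
  tor : ∀ o τ x, On (σ o (sg (w o) τ x)).1 fun a => chi (wt a) τ * V o x a
  ed : ∀ o r z, z ≠ 0 → σ (nb o r) (ax r (1 / z)) = σ o (ax r z)
  cov : ∀ μ, ∃ o, vx o = μ

section

variable {X : Set (Gr 1 q)} {K : Set (Fin (1 + q) → ℂ)} {l₀ : Fin (1 + q)} {em : R → Fin (1 + q)}
  {v : (R → ℂ) → Fin (1 + q) → ℂ} {wt : Fin (1 + q) → ι → ℤ} {cv : R → ι → ℤ}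
  {s : R → Fin (1 + q) → Fin (1 + q)} {e : R → Fin (1 + q) → ℤ} {ip : R → R → ℤ}
  {pm : F → Equiv.Perm (Fin (1 + q))} {ε : F → Fin (1 + q) → ℂ} {nb : F → R → F}

theorem pcells (h : Md X K l₀ em v wt cv s e ip) (hF : Frm K l₀ em wt s e ip pm ε nb) :
    ∃ V co σ, Pc X wt (fun o r => wt (pm o (em r)) - wt (pm o l₀)) nb (fun o => pm o l₀) V co σ := by
  set V : F → (R → ℂ) → Fin (1 + q) → ℂ := fun o x a =>
    ε o ((pm o).symm a) * v x ((pm o).symm a) with hV
  set co : F → (Fin (1 + q) → ℂ) → R → ℂ := fun o y r =>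
    ε o (em r) * y (pm o (em r)) / (ε o l₀ * y (pm o l₀)) with hco
  have e0 : ∀ o μ, ε o μ ≠ 0 := fun o μ c => by simpa [c] using hF.sq o μ
  have V1 : ∀ o x μ, ε o μ * V o x (pm o μ) = v x μ := fun o x μ => by
    simp only [hV, Equiv.symm_apply_apply, ← mul_assoc, hF.sq, one_mul]
  have V0 : ∀ o x, V o x (pm o l₀) ≠ 0 := fun o x c => by simpa [c, h.v0] using V1 o x l₀
  have Vn : ∀ o x, V o x ≠ 0 := fun o x c => V0 o x (congrFun c _)
  have VK : ∀ o x, V o x ∈ K := fun o x => (hF.inK o _).1 (by simpa only [V1] using h.vK x)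
  have sm : ∀ y ∈ K, y ≠ 0 → ∀ c : ℂ, c ≠ 0 → c • y ∈ K := fun y hy h0 c hc => by
    obtain ⟨P, hP⟩ := ex y
    exact (h.mem P _ (smul_ne_zero hc h0) (hP.smul c)).1 ((h.mem P y h0 hP).2 hy)
  have cel : ∀ o, ∀ y ∈ K, y (pm o l₀) ≠ 0 → V o (co o y) = (ε o l₀ * y (pm o l₀))⁻¹ • y := by
    intro o y hy h0
    have h1 := mul_ne_zero (e0 o l₀) h0
    have h2 := h.cell _ (sm _ ((hF.inK o y).2 hy) (fun c => h1 (congrFun c l₀)) _ (inv_ne_zero h1))
      (inv_mul_cancel₀ h1)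
    funext a
    obtain ⟨μ, rfl⟩ := (pm o).surjective a
    refine mul_left_cancel₀ (e0 o μ) ?_
    rw [V1, Pi.smul_apply, smul_eq_mul, mul_left_comm]
    refine Eq.trans (congrFun (congrArg v (funext fun r => ?_)) μ) (congrFun h2 μ).symm
    simp only [hco, Pi.smul_apply, smul_eq_mul, div_eq_inv_mul]
  choose σ₀ hσ using fun o x => ex (V o x)
  have cel' : ∀ o (P : Gr 1 q), ∀ y ∈ K, On P y → y (pm o l₀) ≠ 0 → σ₀ o (co o y) = P :=
    fun o P y hy hP h0 => uq (Vn _ _) (hσ _ _) (cel o y hy h0 ▸ hP.smul _)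
  refine ⟨V, co, fun o x => ⟨σ₀ o x, (h.mem _ _ (Vn o x) (hσ o x)).2 (VK o x)⟩, hσ, fun o => ?_,
    V0, fun o y hy => ?_, fun o c y hc => ?_, fun o x => ?_, fun o P y hP h0 => Subtype.ext ?_,
    fun o τ x => ?_, fun o r z hz => Subtype.ext (uq (Vn _ _) (hσ _ _) ?_), hF.cov⟩
  · exact differentiable_pi.2 fun a => (differentiable_pi.1 h.vd _).const_mul _
  · exact contDiffAt_pi.2 fun r => (contDiffAt_const.mul (contDiffAt_apply ℂ ℂ _ y)).div
      (contDiffAt_const.mul (contDiffAt_apply ℂ ℂ _ y)) (mul_ne_zero (e0 o l₀) hy)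
  · funext r
    simp only [hco, Pi.smul_apply, smul_eq_mul, mul_left_comm _ c, mul_div_mul_left _ _ hc]
  · funext r
    simp only [hco, V1, h.v0, h.vem, div_one]
  · exact cel' o P.1 y ((h.mem _ _ (fun c => h0 (congrFun c _)) hP).1 P.2) hP h0
  · obtain ⟨P, hP⟩ := ex fun a => chi (wt a) τ * V o x a
    have e1 := cel' o P _ (h.tor τ _ (VK o x)) hP (mul_ne_zero (chi_ne _ _) (V0 o x))
    rw [← e1] at hP
    refine (congrArg (fun z => On (σ₀ o z) _) (funext fun r => ?_)).mp hP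
    have e2 := chi_sub (wt (pm o (em r))) (wt (pm o l₀)) 1 τ
    rw [one_smul] at e2
    simp only [hco, sg, mul_left_comm _ (chi _ _), V1, h.v0, h.vem, e2, zpow_neg, zpow_one]
    ring
  · have e1 : V (nb o r) (ax r (1 / z)) = ((e r l₀ : ℂ) / z) • V o (ax r z) := by
      funext a
      obtain ⟨μ, rfl⟩ := (pm o).surjective a
      have e2 := V1 (nb o r) (ax r (1 / z)) (s r μ)
      rw [hF.pn, hF.en, h.ss, h.ee] at e2
      have e3 : (e r μ : ℂ) * e r μ = 1 := by rcases h.e1 r μ with j | j <;> simp [j]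
      refine mul_left_cancel₀ (mul_ne_zero (e0 o μ) (left_ne_zero_of_mul_eq_one e3)) ?_
      rw [e2, Pi.smul_apply, smul_eq_mul, mul_comm (ε o μ), mul_assoc, mul_left_comm (ε o μ), V1]
      by_cases j : μ = l₀
      · rw [j, h.s0, h.vem, h.v0, mul_one, ← mul_div_assoc, ← j, e3]
        simp [ax]
      by_cases j' : μ = em r
      · rw [j', ← h.s0, h.ss, h.v0, h.s0, h.vem, ← h.ee r l₀, h.s0, ← j', ← e3]
        simp [ax, hz]
      rw [h.ax r z μ j j', h.ax r _ _ (fun c => j' (by rw [← h.s0, ← c, h.ss]))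
        fun c => j (by rw [← h.ss r μ, c, ← h.s0, h.ss])]
      simp
    rw [e1]
    exact (hσ _ _).smul _

end

theorem emb_of {A B : Type} [TopologicalSpace A] [TopologicalSpace B] {f : A → B} {g : B → A}
    (hf : Continuous f) (hi : ∀ x, g (f x) = x) (ho : IsOpen (range f))
    (hg : ∀ x, ContinuousAt g (f x)) : Topology.IsOpenEmbedding f := by
  refine .of_continuous_injective_isOpenMap hf (Function.LeftInverse.injective hi)
    (isOpenMap_iff_nhds_le.2 fun x U hU => ?_)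
  have h1 : g ⁻¹' (f ⁻¹' U) ∈ 𝓝 (f x) := hg x (by rwa [hi])
  filter_upwards [h1, ho.mem_nhds (mem_range_self x)] with y h2 h3
  obtain ⟨z, rfl⟩ := h3
  rwa [mem_preimage, hi] at h2

namespace Pc

variable {X : Set (Gr 1 q)} {wt : Fin (1 + q) → ι → ℤ} {w : F → R → ι → ℤ} {nb : F → R → F}
  {vx : F → Fin (1 + q)} {V : F → (R → ℂ) → Fin (1 + q) → ℂ}
  {co : F → (Fin (1 + q) → ℂ) → R → ℂ} {σ : F → (R → ℂ) → X} {ip : R → R → ℤ}

theorem vn (h : Pc X wt w nb vx V co σ) (o : F) (x : R → ℂ) : V o x ≠ 0 :=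
  fun c => h.v0 o x (congrFun c _)

theorem rng (h : Pc X wt w nb vx V co σ) (o : F) (P : X) :
    P ∈ range (σ o) ↔ P.1.1 (vx o) (vx o) ≠ 0 :=
  ⟨fun ⟨x, e⟩ => e ▸ (diag_iff (h.vn o x) (h.on o x) _).2 (h.v0 o x),
    fun j => ⟨_, h.cel o P _ (col P.1 _) j⟩⟩

theorem rng' (h : Pc X wt w nb vx V co σ) (o o' : F) (x : R → ℂ) :
    σ o x ∈ range (σ o') ↔ V o x (vx o') ≠ 0 :=
  (h.rng o' _).trans (diag_iff (h.vn o x) (h.on o x) _)

theorem crd (h : Pc X wt w nb vx V co σ) {o o' : F} {x : R → ℂ} (j : V o x (vx o') ≠ 0) :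
    co o' (fun a => (σ o x).1.1 a (vx o')) = co o' (V o x) := by
  rw [← h.cs o' (star (V o x (vx o')) / nr (V o x)) (V o x)
    (div_ne_zero (star_ne_zero.2 j) (nr_ne (h.vn o x)))]
  refine congrArg _ (funext fun a => ?_)
  rw [form (h.vn o x) (h.on o x), Pi.smul_apply, smul_eq_mul]
  ring

theorem ent (a b : Fin (1 + q)) : Continuous fun P : X => P.1.1 a b :=
  (continuous_apply_apply a b).comp (continuous_subtype_val.comp continuous_subtype_val)

theorem cov' (h : Pc X wt w nb vx V co σ) (P : X) : ∃ o, P ∈ range (σ o) := by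
  obtain ⟨b, hb⟩ := diag P.1
  obtain ⟨o, rfl⟩ := h.cov b
  exact ⟨o, (h.rng o P).2 hb⟩

theorem eq (h : Pc X wt w nb vx V co σ) (τ : ι → ℂ) (o o' : F) (x x' : R → ℂ)
    (e : σ o x = σ o' x') : σ o (sg (w o) τ x) = σ o' (sg (w o') τ x') := by
  obtain ⟨c, hc⟩ := par (h.vn o x) (h.on o x) (e ▸ h.on o' x')
  refine Subtype.ext (uq (y := fun a => chi (wt a) τ * V o' x' a)
    (fun c => mul_ne_zero (chi_ne _ _) (h.v0 o' x') (congrFun c _)) ?_ (h.tor o' τ x'))
  have := (h.tor o τ x).smul c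
  rwa [show c • (fun a => chi (wt a) τ * V o x a) = fun a => chi (wt a) τ * V o' x' a from
    funext fun a => by rw [hc]; exact mul_left_comm _ _ _] at this

theorem tc (h : Pc X wt w nb vx V co σ) (hR : Rs w nb vx ip) :
    TC w nb vx σ fun o P => co o fun a => P.1.1 a (vx o) := by
  have inv : ∀ o x, co o (fun a => (σ o x).1.1 a (vx o)) = x := fun o x => by
    rw [h.crd (h.v0 o x), h.cv]
  refine ⟨fun o => ?_, inv, fun o => ?_, fun o x => ?_, fun o o' x j => ?_, h.eq,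
    fun o r => ⟨_, h.ed o r 1 one_ne_zero⟩, fun o o' j => ?_⟩
  · refine Continuous.subtype_mk (f := fun x => (σ o x).1) (Continuous.subtype_mk
      (f := fun x => (σ o x).1.1) (continuous_pi fun a => continuous_pi fun b => ?_) _) _
    have c := (h.vd o).continuous
    simp only [form (h.vn o _) (h.on o _)]
    refine Continuous.div (by fun_prop) ?_ fun x => nr_ne (h.vn o x)
    unfold nr
    fun_prop
  · rw [show range (σ o) = _ from Set.ext (h.rng o)]
    exact isOpen_ne_fun (ent _ _) continuous_const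
  · exact ContinuousAt.comp (f := fun (P : X) a => P.1.1 a (vx o))
      (h.cd o (fun a => (σ o x).1.1 a (vx o)) ((h.rng o _).1 ⟨x, rfl⟩)).continuousAt
      (continuous_pi fun a => ent a _).continuousAt
  · rw [h.rng'] at j
    refine (((h.cd o' _ j).differentiableAt (by simp)).comp x (h.vd o x)).congr_of_eventuallyEq ?_
    filter_upwards [((continuous_apply (vx o')).comp (h.vd o).continuous).continuousAt.eventually_ne
      j] with y hy using h.crd hy
  · obtain ⟨x, hx⟩ := (h.rng' o o' 0).2 (j ▸ h.v0 o 0)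
    obtain ⟨τ, hτ⟩ := hR.con o' (two_ne_zero (α := ℂ))
    have e := h.eq τ _ _ _ _ hx
    rw [show sg (w o) τ 0 = 0 from funext fun r => mul_zero _, ← hx] at e
    have e' := (inv o' _).symm.trans ((congrArg (fun P : X => co o' fun a => P.1.1 a (vx o'))
      e).trans (inv o' x))
    rw [← hx, show x = 0 from funext fun r => by
      have := congrFun e' r
      rw [sg, hτ] at this
      exact (by linear_combination this : x r = 0)]

theorem ov (h : Pc X wt w nb vx V co σ) : Ov σ := fun o o' => by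
  rw [show σ o ⁻¹' range (σ o') = _ from Set.ext (h.rng' o o')]
  exact st_CON _ _ (differentiable_pi.1 (h.vd o) _)

theorem rotn (h : Pc X wt w nb vx V co σ) (θ : ι → ℝ) (o : F) (x : R → ℂ) {P' : Gr 1 q}
    (e : Rot (fun a => ∑ i, wt a i * θ i) (σ o x).1 P') : P' = (σ o (sg (w o) (cx θ) x)).1 := by
  refine uq (fun c => mul_ne_zero (chi_ne _ _) (h.v0 o x) (congrFun c _)) ?_ (h.tor o (cx θ) x)
  simpa only [chi, cx, ofReal_sum, ofReal_mul, ofReal_intCast] using rot e (h.on o x)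

end Pc

end Pool.Agent.Lib.GV40
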