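import Pool.Agent.Lib.GV40.TRN
import Pool.Agent.Lib.GV40.ALG

/-! Project gv40: normalisation of the transition maps. -/

open scoped Manifold ContDiff Topology Matrix
open Set Filter Metric Complex Sum

set_option linter.unusedVariables false
set_option linter.unusedSectionVars false

noncomputable section

namespace Pool.Agent.Lib.GV40

open Pool.Agent.Lib.GT40 (E Gr Full Spans cx RAct Act)
open Pool.Agent.Lib.GU40

variable {ι R F Λ : Type} [Fintype ι] [Fintype R] [DecidableEq R] {ip : R → R → ℤ}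
  {w : F → R → ι → ℤ} {nb : F → R → F} {vx : F → Λ} {X Y : Type} [TopologicalSpace X]
  [TopologicalSpace Y] {σ : F → (R → ℂ) → X} {ζ : F → X → R → ℂ} {ψ : F → (R → ℂ) → Y}
  {η : F → Y → R → ℂ} {k : F → R → R → ℂ} {C : F → R → R → R → R → ℂ}

open ALG in
theorem nrm (hR : Rs w nb vx ip) (hX : TC w nb vx σ ζ) (hT : Trn nb ip σ k C)
    (hY : TC w nb vx ψ η) :
    ∃ G, Nrm nb (fun _ => True) (fun o r => gt ip (k o r) (C o) r) ψ G := by
  obtain ⟨k', C', hT'⟩ := hY.trn hR
  have q := hX.qs hR hT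
  have q' := hY.qs hR hT'
  refine ⟨fun o u => (∀ c, u c ≠ 0) ∧
    ∀ r δ, ip r δ = 0 → ∀ x, Qd (C' o) r δ (u * x) = u r * u δ * Qd (C o) r δ x,
    hR.ne.elim fun o => ⟨o, scal hR.tab (q o) (q' o)⟩, fun o u h => h.1, ?_⟩
  rintro o u r - ⟨hu, H⟩
  set u' : R → ℂ := fun c =>
    k' o r c * (if c = r then 1 / u r else if ip r c = 1 then u c / u r else u c) / k o r c with hu'
  have n0 : ∀ c, u' c ≠ 0 := fun c => by
    simp only [hu']
    split_ifs <;> simp [hT.ne, hT'.ne, hu]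
  have st : ∀ x, x r ≠ 0 → ψ (nb o r) (u' * gt ip (k o r) (C o) r x) = ψ o (u * x) := fun x hx => by
    rw [← hT'.tr o r (u * x) (mul_ne_zero (hu r) hx)]
    refine congrArg _ (funext fun c => ?_)
    have := hT.ne o r c
    have := hu r
    simp only [hu', gt, Pi.mul_apply]
    split_ifs with j j'
    · field_simp
    · field_simp
    · rw [H r c (((hR.tab.cases r c).resolve_left j).resolve_left j')]
      field_simp
  refine ⟨u', ⟨n0, fun r' δ j x => ext hR.tab (q _) (q' _) n0 (face_nil r) (fun c _ i => ?_)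
    (fun y _ h1 h2 => ?_) (face_nil r') j (su_nil x)⟩, st⟩
  · obtain ⟨a, b, i⟩ := hR.tab.cn c r i
    exact ⟨a, b, face_nil a, face_nil b, i⟩
  have h3 : (u' * y) r ≠ 0 := mul_ne_zero (n0 r) h1
  have e1 := hT.tr (nb o r) r y h1
  have e2 := hT'.tr (nb o r) r _ h3
  rw [hR.inv] at e1 e2
  have h4 : gt ip (k (nb o r) r) (C (nb o r)) r y r ≠ 0 := by simp [gt, hT.ne, h1]
  have e3 := st _ h4
  rw [hX.inj _ ((hT.tr o r _ h4).trans e1)] at e3
  rw [TC.cn_iff hR hT' h3, hY.inj _ (e2.trans e3)]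
  exact fun δ i => mul_eq_zero_of_right _ ((TC.cn_iff hR hT h1).1 h2 δ i)

end Pool.Agent.Lib.GV40
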