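import Pool.Agent.Lib.GV40.RS
import Pool.Agent.Lib.GV40.CL1
import Pool.Agent.Lib.GU40.B_SGN
import Pool.Agent.Lib.GU40.B_ORI
import Pool.Agent.Lib.GU40.B_KF
import Pool.Agent.Lib.GU40.B_POT

/-! Project gv40: all orientations agree. -/

open scoped Manifold ContDiff Topology Matrix
open Set Filter Metric Complex Sum

set_option linter.unusedVariables false
set_option linter.unusedSectionVars false

noncomputable section

namespace Pool.Agent.Lib.GV40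

open Pool.Agent.Lib.GT40 (E Gr Full Spans cx RAct Act)
open Pool.Agent.Lib.GU40

open SGNB in
theorem sgn {ι R F Λ : Type} [Fintype ι] [Fintype R] [DecidableEq R] {ip : R → R → ℤ}
    {w : F → R → ι → ℤ} {nb : F → R → F} {vx : F → Λ} {d : ℕ} {Y : Type} [TopologicalSpace Y]
    [ChartedSpace (E d) Y] [IsManifold 𝓘(ℂ, E d) ω Y] {s : F → (R → ℂ) → Y} {κ : F → Y → R → ℂ}
    {ρ : (ι → ℝ) → Y → Y} {h : Y → HS.Mat d} (hR : Rs w nb vx ip) (hD : Dat d w nb s κ ρ)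
    (hO : Ov s) (hv : ∀ o o', vx o = vx o' → range (s o) = range (s o') ∧ s o 0 = s o' 0)
    (hK : GH.Kaehler h) :
    (∀ o r, Ori d (s o) 0 (ax r 1) 1) ∨ ∀ o r, Ori d (s o) 0 (ax r 1) (-1) := by
  have hC := hR.cmb
  obtain ⟨-, h1⟩ := st_SG1 ι R F d Y w nb s κ ρ hC hD
  have ed : ∀ (ε : ℝ), ε = 1 ∨ ε = -1 → ∀ o r, (∀ z, Ori d (s o) (ax r z) (ax r 1) ε) →
      ∀ z, Ori d (s (nb o r)) (ax r z) (ax r 1) ε := by
    intro ε hε o r a
    obtain ⟨c, hc⟩ := cross st_ORI hD (a 1)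
    obtain ⟨b | b, b'⟩ := h1 (nb o r) r <;> rcases hε with rfl | rfl
    · exact b
    · exact absurd ⟨b c, hc⟩ (b' c)
    · exact absurd ⟨hc, b c⟩ (b' c)
    · exact b
  have tri : ∀ o r r', ip r r' = 1 → (∀ z, Ori d (s o) (ax r z) (ax r 1) 1) →
      ∀ z, Ori d (s o) (ax r' z) (ax r' 1) 1 :=
    fun o r r' e a => (h1 o r').1.resolve_right fun a' => by
      obtain ⟨N, hN, eN⟩ := hR.tab.eul
      choose ξ' hξ using hR.cor o
      set ξ := ∑ c, ξ' c with hx0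
      have x0 : ∀ c, w o c ⬝ᵥ ξ = N := fun c => by simp only [hx0, dotProduct_sum, hξ, eN]
      have x1 : 0 < w o r ⬝ᵥ ξ := by rw [x0]; exact_mod_cast hN
      have x2 : 0 < w o r' ⬝ᵥ ξ := by rw [x0]; exact_mod_cast hN
      have x3 : w (nb o r) r' ⬝ᵥ ξ = 0 := by
        rw [hR.ref, e, one_smul, sub_dotProduct, x0, x0, sub_self]
      obtain ⟨H, hH⟩ := st_MOM st_KF st_POT ι R F d Y w nb s κ ρ h ξ hC hD hK
      have gl : ∀ o r, ∃ k c, c ≠ 0 ∧ H o (ax r 1) = H (nb o r) (ax r c) + k ∧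
          Dense (s o ⁻¹' range (s (nb o r))) ∧
          ∀ x, s o x ∈ range (s (nb o r)) → H o x = H (nb o r) (κ (nb o r) (s o x)) + k := by
        intro o r
        obtain ⟨c, hc, e⟩ := hD.edge.1 o r
        obtain ⟨k, hk⟩ := hH.glue o (nb o r) (hO _ _).1
        have e1 := e 1 one_ne_zero
        refine ⟨k, c, hc, ?_, (hO _ _).2 ⟨_, _, e1⟩, hk⟩
        rw [hk _ ⟨_, e1⟩, ← e1, hD.inv, div_one]
      obtain ⟨k1, c1, n1, g1, d1, f1⟩ := gl o r
      obtain ⟨k2, c2, n2, g2, d2, f2⟩ := gl o r'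
      obtain ⟨k3, c3, n3, g3, -, f3⟩ := gl (nb o r) r'
      obtain ⟨v1, v2⟩ := hv _ _ (hR.tri o r r' e)
      obtain ⟨k4, f4⟩ := hH.glue (nb (nb o r) r') (nb o r') (hO _ _).1
      obtain ⟨x, ⟨y, hy⟩, hx⟩ := d1.exists_mem_open ((hD.op (nb o r')).preimage
        (hD.sm o).continuous) d2.nonempty
      obtain ⟨y', hy'⟩ : s o x ∈ range (s (nb (nb o r) r')) := v1 ▸ hx
      have q1 := f1 x ⟨y, hy⟩
      have q2 := f2 x hx
      have q3 := f3 y ⟨y', hy'.trans hy.symm⟩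
      have q4 := f4 y' (v1 ▸ mem_range_self _)
      have q5 := f4 0 ⟨0, v2.symm⟩
      rw [← hy, hD.inv] at q1
      rw [hy, ← hy', hD.inv] at q3
      rw [hy'] at q4
      rw [v2, hD.inv] at q5
      have o1 : w (nb o r) r ⬝ᵥ ξ = -(w o r ⬝ᵥ ξ) := by rw [hC.opp, neg_dotProduct]
      have o2 : w (nb o r') r' ⬝ᵥ ξ = -(w o r' ⬝ᵥ ξ) := by rw [hC.opp, neg_dotProduct]
      have o3 : w (nb (nb o r) r') r' ⬝ᵥ ξ = 0 := by rw [hC.opp, neg_dotProduct, x3, neg_zero]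
      have y1 : (0 : ℝ) < (w o r ⬝ᵥ ξ : ℤ) := by exact_mod_cast x1
      have y2 : (0 : ℝ) < (w o r' ⬝ᵥ ξ : ℤ) := by exact_mod_cast x2
      have u1 := hH.up o r 1 1 a one_ne_zero (by linarith)
      have u2 := hH.down _ r c1 1 (ed 1 (Or.inl rfl) o r a) n1 (by rw [o1]; push_cast at y1 ⊢; linarith)
      have u3 := hH.down o r' 1 (-1) a' one_ne_zero (by linarith)
      have u4 := hH.up _ r' c2 (-1) (ed (-1) (Or.inr rfl) o r' a') n2
        (by rw [o2]; push_cast at y2 ⊢; linarith)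
      have u5 := hH.flat _ r' 1 x3
      have u6 := hH.flat _ r' c3 o3
      rw [u5, u6] at g3
      linarith
  have all : ∀ o r r', (∀ z, Ori d (s o) (ax r z) (ax r 1) 1) →
      ∀ z, Ori d (s o) (ax r' z) (ax r' 1) 1 := fun o r r' a => by
    rcases hR.tab.cases r r' with rfl | j | j
    · exact a
    · exact tri o r r' j a
    · obtain ⟨b, b', i1, i2⟩ := hR.tab.cn r r' j
      exact tri o b r' (by rw [hR.tab.sym]; exact (hR.tab.snd j i1 i2).2.2.1) (tri o r b i1 a)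
  by_cases h2 : ∃ o r, ∀ z, Ori d (s o) (ax r z) (ax r 1) 1
  · obtain ⟨o, r, a⟩ := h2
    exact Or.inl fun o' r' => ax_zero r' ▸
      hR.gen (fun o => ∀ r z, Ori d (s o) (ax r z) (ax r 1) 1)
        (fun o r _ b r' => all _ r r' (ed 1 (Or.inl rfl) o r (b r))) o o'
        (fun r' => all o r r' a) r' 0
  · exact Or.inr fun o r => ax_zero r ▸ (h1 o r).1.resolve_left (fun a => h2 ⟨o, r, a⟩) 0

end Pool.Agent.Lib.GV40
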