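import Pool.Agent.Lib.GV40.MDL
import Pool.Agent.Lib.GV40.NRM
import Pool.Agent.Lib.GV40.SGN
import Pool.Agent.Lib.GV40.CL2
import Pool.Agent.Lib.GU40.B_DJ
import Pool.Agent.Lib.GT40.All

/-! Project gv40: the theorem for a model in a projective space. -/

open scoped Manifold ContDiff Topology Matrix
open Set Filter Metric Complex Sum

set_option linter.unusedVariables false
set_option linter.unusedSectionVars false

noncomputable section

namespace Pool.Agent.Lib.GV40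

open Pool.Agent.Lib.GT40 (E Gr Full Spans cx RAct Act)
open Pool.Agent.Lib.GU40

open LIN

variable {ι R F : Type} [Fintype ι] [Fintype R] [DecidableEq R] {q d : ℕ} {Y : Type}
  [TopologicalSpace Y] [ChartedSpace (E d) Y] [IsManifold 𝓘(ℂ, E d) ω Y] {X : Set (Gr 1 q)}
  {wt : Fin (1 + q) → ι → ℤ} {w : F → R → ι → ℤ} {nb : F → R → F} {vx : F → Fin (1 + q)}
  {V : F → (R → ℂ) → Fin (1 + q) → ℂ} {co : F → (Fin (1 + q) → ℂ) → R → ℂ}
  {σ : F → (R → ℂ) → X} {ip : R → R → ℤ}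

theorem dat (h : Pc X wt w nb vx V co σ) (hR : Rs w nb vx ip) {Φ : X ≃ₜ Y} (hD : Diffeo d Φ)
    (hT : DiagHol d Φ) : ∃ κ ρ, Dat d w nb (fun o x => Φ (σ o x)) κ ρ := by
  have hc := h.tc hR
  obtain ⟨k, C, ht⟩ := hc.trn hR
  obtain ⟨⟨G, hG, hG'⟩, hS⟩ := hD
  choose ρ hρ hρ' using fun θ : ι → ℝ => hT (fun a => ∑ i, wt a i * θ i) fun P hP P' e => by
    obtain ⟨o, x, hx⟩ := h.cov' ⟨P, hP⟩
    rw [h.rotn θ o x (P' := P') (by rw [hx]; exact e)]
    exact (σ o _).2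
  refine ⟨fun o y => co o fun a => (Φ.symm y).1.1 a (vx o), ρ, fun o => ?_, fun o x => ?_,
    fun o x => ?_, fun o => ?_, fun y => ?_, fun θ o x => hρ' θ _ _ ?_, hρ,
    fun o r => ⟨1, one_ne_zero, fun z hz => congrArg Φ (h.ed o r z hz)⟩, fun o r e => ?_⟩
  · have fu : ∀ x, Full fun a (_ : Fin 1) => V o x a := fun x => (full_iff _).2 (h.vn o x)
    have sp : ∀ x, Spans (σ o x).1 fun a (_ : Fin 1) => V o x a := fun x =>
      (spans_iff _ _).2 (h.on o x)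
    have : (fun x => Φ (σ o x)) = G ∘ fun x a (_ : Fin 1) => V o x a :=
      funext fun x => (hG' _ _ (fu x) (sp x)).symm
    rw [this]
    have c : ContDiff ℝ ∞ (V o) := (contDiffOn_univ.1
      (SV.H85.contDiffOn_top isOpen_univ (h.vd o).differentiableOn)).restrict_scalars ℝ
    exact hG.comp_contMDiff (contDiff_pi.2 fun a => contDiff_pi.2 fun _ =>
      contDiff_pi.1 c a).contMDiff fun x => ⟨fu x, _, (σ o x).2, sp x⟩
  · rw [Φ.symm_apply_apply]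
    exact hc.inv o x
  · refine ContMDiffAt.comp (g := fun P : Fin (1 + q) → Fin (1 + q) → ℂ => co o fun a => P a (vx o))
      (f := fun y => (Φ.symm y).1.1) _ ?_ (hS _)
    rw [Φ.symm_apply_apply]
    exact (ContDiffAt.comp (f := fun (P : Fin (1 + q) → Fin (1 + q) → ℂ) a => P a (vx o)) _
      ((h.cd o (fun a => (σ o x).1.1 a (vx o)) ((h.rng o _).1 ⟨x, rfl⟩)).restrict_scalars ℝ)
      (contDiff_pi.2 fun a => contDiff_apply_apply ℝ ℂ a _).contDiffAt).contMDiffAt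
  · have : range (fun x => Φ (σ o x)) = Φ '' range (σ o) := range_comp Φ (σ o)
    rw [this]
    exact Φ.isOpenMap _ (hc.op o)
  · obtain ⟨o, x, hx⟩ := h.cov' (Φ.symm y)
    exact ⟨o, x, by simp only [hx, Φ.apply_symm_apply]⟩
  · obtain ⟨P', hP'⟩ := GT40.MODB.conj_ex (fun a => ∑ i, wt a i * θ i) (σ o x).1
    rw [← h.rotn θ o x hP']
    exact hP'
  · exact hc.piv hR ht ⟨0, Φ.injective e⟩ rfl

theorem fin (h : Pc X wt w nb vx V co σ) (P₀ : X) {ψ : F → (R → ℂ) → Y} {η : F → Y → R → ℂ}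
    {φ : X ≃ₜ Y} {u : F → R → ℂ} (hc : Cell d w nb ψ η) (hu : ∀ o r, u o r ≠ 0)
    (hφ : ∀ o x, φ (σ o x) = ψ o (u o * x)) : Bihol d φ := by
  classical
  refine ⟨?_, fun y => ?_⟩
  · let G : (Fin (1 + q) → Fin 1 → ℂ) → Y := fun A =>
      if h : A ∈ Bas X then φ ⟨h.2.choose, h.2.choose_spec.1⟩ else φ P₀
    have hG : ∀ A (P : X), Full A → Spans P.1 A → G A = φ P := by
      intro A P hA hP
      have h : A ∈ Bas X := ⟨hA, P.1, P.2, hP⟩
      simp only [G, dif_pos h]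
      congr 1
      exact Subtype.ext (uq ((full_iff _).1 hA) ((spans_iff _ _).1 h.2.choose_spec.2)
        ((spans_iff _ _).1 hP))
    refine ⟨G, fun A hA => ?_, hG⟩
    obtain ⟨hA1, P, hP, hs⟩ := id hA
    obtain ⟨o, ho⟩ := h.cov' ⟨P, hP⟩
    have h0 : A (vx o) 0 ≠ 0 :=
      (diag_iff ((full_iff _).1 hA1) ((spans_iff _ _).1 hs) _).1 ((h.rng o _).1 ho)
    have key : ∀ B ∈ Bas X, B (vx o) 0 ≠ 0 → G B = (ψ o ∘ fun B => u o * co o fun a => B a 0) B := by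
      rintro B ⟨hB1, Q, hQ, hQs⟩ hB
      rw [hG B ⟨Q, hQ⟩ hB1 hQs, ← h.cel o ⟨Q, hQ⟩ _ ((spans_iff _ _).1 hQs) hB, hφ]
      rfl
    have hn : ∀ᶠ B in 𝓝 A, B (vx o) 0 ≠ 0 :=
      (continuous_apply_apply (vx o) 0).continuousAt.eventually_ne h0
    have hd : DifferentiableAt ℂ (fun B : Fin (1 + q) → Fin 1 → ℂ => u o * co o fun a => B a 0) A :=
      (DifferentiableAt.comp (f := fun (B : Fin (1 + q) → Fin 1 → ℂ) a => B a 0) A
        ((h.cd o (fun a => A a 0) h0).differentiableAt (by simp)) (by fun_prop)).const_mul _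
    refine ((hc.hol o _).comp A hd.mdifferentiableAt).mdifferentiableWithinAt.congr_of_eventuallyEq
      ?_ (key A hA h0)
    filter_upwards [self_mem_nhdsWithin, nhdsWithin_le_nhds hn] with B h1 h2 using key B h1 h2
  · obtain ⟨o, x, hx⟩ := h.cov' (φ.symm y)
    have hy : y ∈ range (ψ o) := ⟨u o * x, by rw [← hφ, hx, φ.apply_symm_apply]⟩
    refine ⟨fun z a _ => V o ((u o)⁻¹ * η o z) a, ?_⟩
    filter_upwards [(hc.op o).mem_nhds hy] with z hz
    obtain ⟨t, rfl⟩ := hz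
    have hd : Differentiable ℂ fun z a (_ : Fin 1) => V o ((u o)⁻¹ * z) a :=
      differentiable_pi.2 fun a => differentiable_pi.2 fun _ =>
        differentiable_pi.1 ((h.vd o).comp (differentiable_id.const_mul _)) a
    refine ⟨(hd _).mdifferentiableAt.comp _ (hc.hi o t), (full_iff _).2 (h.vn o _), ?_⟩
    have e : u o * ((u o)⁻¹ * t) = t := by
      funext r
      simp only [Pi.mul_apply, Pi.inv_apply]
      rw [mul_inv_cancel_left₀ (hu o r)]
    have e' : φ.symm (ψ o t) = σ o ((u o)⁻¹ * t) := by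
      rw [φ.symm_apply_eq, hφ, e]
    rw [e', hc.inv]
    exact (spans_iff _ _).2 (h.on o _)

theorem cells [T2Space Y] [CompactSpace Y] {s : F → (R → ℂ) → Y} {κ : F → Y → R → ℂ}
    {ρ : (ι → ℝ) → Y → Y} (hc : Cmb w nb) (h : Dat d w nb s κ ρ)
    (ho : ∀ o r, Ori d (s o) 0 (ax r 1) 1) : ∃ ψ η, Cell d w nb ψ η ∧ ∀ o, ψ o 0 = s o 0 := by
  obtain ⟨A, hA⟩ := GT40.st_ACT GT40.st_ID GT40.st_LOC _ d Y ρ (st_DJ ι R F d Y w nb s κ ρ h).1
  choose ψ η hl using fun o => st_CEL ι R F d Y w nb s κ ρ A hc h hA o (ho o)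
  refine ⟨ψ, η, ⟨fun o => (hl o).hol, fun o => (hl o).inv, fun o => (hl o).op, fun o => (hl o).hi,
    fun τ o o' x x' e => ?_,
    fun o r => st_EDG ι R F d Y w nb s κ ρ A o r _ _ _ _ hc h hA (hl o) (hl _)⟩,
    fun o => (hl o).zero⟩
  rw [← (hl o).eqv, ← (hl o').eqv, e]

theorem proj {K : Set (Fin (1 + q) → ℂ)} {l₀ : Fin (1 + q)} {em : R → Fin (1 + q)}
    {v : (R → ℂ) → Fin (1 + q) → ℂ} {cv : R → ι → ℤ} {s : R → Fin (1 + q) → Fin (1 + q)}
    {e : R → Fin (1 + q) → ℤ} (hM : Md X K l₀ em v wt cv s e ip) (Φ : X ≃ₜ Y)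
    {h : Y → HS.Mat d} (hK : GH.Kaehler h) (h1 : Diffeo d Φ) (h2 : DiagHol d Φ) :
    ∃ Ψ : X ≃ₜ Y, Bihol d Ψ := by
  obtain ⟨F, _, pm, ε, nb, hF⟩ := frames hM
  obtain ⟨V, co, σ, hP⟩ := pcells hM hF
  have hR := hF.rs
  have hX := hP.tc hR
  obtain ⟨k, C, ht⟩ := hX.trn hR
  have := GT40.PJ.part5 (k := 1) (q := q)
  have : CompactSpace X := isCompact_iff_compactSpace.1 hM.cl.isCompact
  have : T2Space Y := Φ.t2Space
  have : CompactSpace Y := Φ.compactSpace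
  obtain ⟨κ, ρ, hD⟩ := dat hP hR h1 h2
  have rg : ∀ o, range (fun x => Φ (σ o x)) = Φ '' range (σ o) := fun o => range_comp Φ (σ o)
  have hO : Ov fun o x => Φ (σ o x) := fun o o' => by
    have e : (fun x => Φ (σ o x)) ⁻¹' range (fun x => Φ (σ o' x)) = σ o ⁻¹' range (σ o') := by
      ext x
      simp
    rw [e]
    exact hP.ov o o'
  obtain ⟨ψ, η, hc, hz⟩ : ∃ ψ η, Cell d _ nb ψ η ∧ ∀ o, ψ o 0 = Φ (σ o 0) := by
    rcases sgn hR hD hO (fun o o' j => ⟨by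
      rw [rg, rg, Subset.antisymm (range_subset_iff.2 (hX.rng hR j))
        (range_subset_iff.2 (hX.rng hR j.symm))], congrArg Φ (hX.same o o' j)⟩) hK with ho | ho
    · exact cells hR.cmb hD ho
    · obtain ⟨-, a, a'⟩ := st_DJ _ _ _ d Y _ _ _ κ ρ hD
      obtain ⟨ψ, η, hc, hz⟩ := cells hR.cmb a fun o r => a' o r (ho o r)
      exact ⟨ψ, η, hc, fun o => by rw [hz, star_zero]⟩
  obtain ⟨G, hN⟩ := nrm hR hX ht (ψ := ψ) (η := η) ⟨fun o => (hc.hol o).continuous, hc.inv, hc.op,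
    fun o x => (hc.hi o x).continuousAt, fun o o' x ⟨y, hy⟩ =>
      mdifferentiableAt_iff_differentiableAt.1
        (MDifferentiableAt.comp x (hy ▸ hc.hi _ y) (hc.hol o x)), hc.eq, hc.edge,
    fun o o' j => by rw [hz, hz, hX.same o o' j]⟩
  obtain ⟨φ, u, hu, hφ⟩ := st_GLU _ _ _ d _ Y _ nb _ _ σ ψ η G hR.cmb hR.gen ⟨Φ⟩
    ⟨fun o => emb_of (hX.cont o) (hX.inv o) (hX.op o) (hX.ci o), hP.cov',
      fun o r x _ => ht.tr o r x, fun o r x _ => hX.piv hR ht, hX.eq⟩ hc hN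
    fun o o' e => Φ.injective (by rw [← hz, ← hz, e])
  exact hR.ne.elim fun o => ⟨φ, fin hP (σ o 0) hc hu hφ⟩

end Pool.Agent.Lib.GV40
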