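import Pool.Agent.Lib.GV40.Blue

/-! Project gv40: consequences of the table of inner products. -/

open scoped Manifold ContDiff Topology Matrix
open Set Filter Metric Complex Sum

set_option linter.unusedVariables false
set_option linter.unusedSectionVars false

noncomputable section

namespace Pool.Agent.Lib.GV40

open Pool.Agent.Lib.GT40 (E Gr Full Spans cx RAct Act)
open Pool.Agent.Lib.GU40

variable {ι R F Λ : Type} [Fintype ι] [Fintype R] [DecidableEq R] {ip : R → R → ℤ}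

namespace Ip

theorem cases (h : Ip ip) (r c : R) : c = r ∨ ip r c = 1 ∨ ip r c = 0 := by
  by_cases e : r = c
  · exact Or.inl e.symm
  · exact Or.inr (h.le1 r c e).symm

theorem ne1 (h : Ip ip) {r c : R} (e : ip r c = 1) : c ≠ r := by
  rintro rfl
  have := h.two c
  omega

theorem ne0 (h : Ip ip) {r c : R} (e : ip r c = 0) : c ≠ r := by
  rintro rfl
  have := h.two c
  omega

theorem eq2 (h : Ip ip) {r c : R} (e : ip r c = 2) : c = r := by
  rcases h.cases r c with e' | e' | e'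
  · exact e'
  all_goals omega

theorem le2 (h : Ip ip) (r c : R) : 0 ≤ ip r c ∧ ip r c ≤ 2 := by
  rcases h.cases r c with rfl | e' | e'
  · rw [h.two]
    omega
  all_goals omega

theorem snd (h : Ip ip) {r δ a b : R} (h0 : ip r δ = 0) (h1 : ip r a = 1) (e : Rel ip r δ a b) :
    ip r b = 1 ∧ ip a b = 0 ∧ ip δ a = 1 ∧ ip δ b = 1 := by
  have e1 := e r
  have e2 := e a
  have e3 := e δ
  have e4 := e b
  have := h.two r
  have := h.two a
  have := h.two δ
  have := h.two b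
  have := h.sym r a
  have := h.sym r b
  have := h.sym r δ
  have := h.sym a b
  have := h.sym a δ
  have := h.sym b δ
  have := h.le2 a b
  have := h.le2 b δ
  have i1 : ip δ a ≠ 2 := fun c => by
    rw [h.eq2 c] at h1
    omega
  have i2 : ip δ b ≠ 2 := fun c => by
    rw [h.eq2 c] at e1
    omega
  omega

end Ip

theorem Rel.swap {r δ a b : R} (e : Rel ip r δ a b) : Rel ip r δ b a := fun c => by
  rw [add_comm]
  exact e c

theorem Rel.symm {r δ a b : R} (e : Rel ip r δ a b) : Rel ip a b r δ := fun c => (e c).symm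

theorem Rel.trans {r δ a b a' b' : R} (e : Rel ip r δ a b) (e' : Rel ip a b a' b') :
    Rel ip r δ a' b' := fun c => (e' c).trans (e c)

theorem chi_dir (w ξ : ι → ℤ) (z : ℂ) :
    chi w (fun a => ξ a * z) = exp (I * ((w ⬝ᵥ ξ : ℤ) * z)) := by
  simp only [chi, dotProduct, Int.cast_sum, Int.cast_mul, Finset.sum_mul, mul_assoc]

theorem zp (ξ : ι → ℤ) {s : ℂ} (hs : s ≠ 0) : ∃ τ, ∀ w, chi w τ = s ^ (w ⬝ᵥ ξ) := by
  refine ⟨fun a => ξ a * (-I * log s), fun w => ?_⟩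
  rw [chi_dir, mul_left_comm, ← mul_assoc I, mul_neg, I_mul_I, neg_neg, one_mul, exp_int_mul,
    exp_log hs]

theorem chi_sub (w w' : ι → ℤ) (n : ℤ) (τ : ι → ℂ) :
    chi (w - n • w') τ = chi w τ * chi w' τ ^ (-n) := by
  simp only [chi]
  rw [← exp_int_mul, ← exp_add]
  congr 1
  simp only [Pi.sub_apply, Pi.smul_apply, smul_eq_mul, Int.cast_sub, Int.cast_mul, sub_mul,
    Finset.sum_sub_distrib, mul_assoc, ← Finset.mul_sum, Int.cast_neg]
  ring

variable {w : F → R → ι → ℤ} {nb : F → R → F} {vx : F → Λ}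

namespace Rs

theorem con (h : Rs w nb vx ip) (o : F) {s : ℂ} (hs : s ≠ 0) : ∃ τ, ∀ r, chi (w o r) τ = s := by
  obtain ⟨N, hN, e⟩ := h.tab.eul
  choose ξ hξ using h.cor o
  refine ⟨fun a => (∑ c, ξ c) a * (-I * log s / N), fun r => ?_⟩
  have h0 : (N : ℂ) ≠ 0 := by exact_mod_cast hN.ne'
  rw [chi_dir, dotProduct_sum]
  simp only [hξ, e, Int.cast_natCast]
  rw [mul_div_cancel₀ _ h0, ← mul_assoc, mul_neg, I_mul_I, neg_neg, one_mul, exp_log hs]

theorem cmb (h : Rs w nb vx ip) : Cmb w nb := by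
  refine ⟨fun o r r' hr => ?_, fun o r => ?_, fun o s hs => h.con o hs, fun o r => ?_⟩
  · obtain ⟨ξ, hξ⟩ := h.cor o r
    obtain ⟨ξ', hξ'⟩ := h.cor o r'
    set ζ : ι → ℤ := (2 : ℤ) • ξ' - ip r r' • ξ with hζ
    have e1 : w o r ⬝ᵥ ζ = 0 := by
      rw [hζ, dotProduct_sub, dotProduct_smul, dotProduct_smul, hξ, hξ', h.tab.two, h.tab.sym r' r]
      simp [mul_comm]
    have e2 : w o r' ⬝ᵥ ζ ≠ 0 := by
      rw [hζ, dotProduct_sub, dotProduct_smul, dotProduct_smul, hξ, hξ', h.tab.two]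
      rcases h.tab.le1 r r' hr.symm with e | e <;> simp [e]
    have e3 : ((w o r' ⬝ᵥ ζ : ℤ) : ℂ) ≠ 0 := by exact_mod_cast e2
    have e4 : cx (fun a => (ζ a : ℝ) * (Real.pi / (w o r' ⬝ᵥ ζ : ℤ))) =
        fun a => (ζ a : ℂ) * (Real.pi / (w o r' ⬝ᵥ ζ : ℤ)) := by
      funext a
      simp only [cx, ofReal_mul, ofReal_div, ofReal_intCast]
    refine ⟨fun a => ζ a * (Real.pi / (w o r' ⬝ᵥ ζ : ℤ)), ?_, ?_⟩
    · rw [e4, chi_dir, e1]
      simp
    · rw [e4, chi_dir, mul_div_cancel₀ _ e3, mul_comm, exp_pi_mul_I]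
      norm_num
  · obtain ⟨ξ, hξ⟩ := h.cor o r
    by_contra c
    have e := hξ r
    rw [show w o r = 0 from funext fun a => by_contra fun c' => c ⟨a, c'⟩, zero_dotProduct,
      h.tab.two] at e
    omega
  · rw [h.ref, h.tab.two, two_smul]
    abel

/-- The character of the neighbour. -/
theorem chi_nb (h : Rs w nb vx ip) (o : F) (r c : R) (τ : ι → ℂ) :
    chi (w (nb o r) c) τ = chi (w o c) τ * chi (w o r) τ ^ (-ip r c) := by
  rw [h.ref, chi_sub]

/-- The grading attached to a direction. -/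
theorem grd (h : Rs w nb vx ip) (o : F) (r : R) {s : ℂ} (hs : s ≠ 0) :
    ∃ τ, ∀ c, chi (w o c) τ = s ^ (2 - ip r c) := by
  obtain ⟨τ, hτ⟩ := h.con o (zpow_ne_zero 2 hs)
  obtain ⟨ξ, hξ⟩ := h.cor o r
  obtain ⟨τ', hτ'⟩ := zp (-ξ) hs
  refine ⟨τ + τ', fun c => ?_⟩
  rw [chi_add, hτ, hτ', dotProduct_neg, hξ, ← zpow_add₀ hs, sub_eq_add_neg]

theorem tst (h : Rs w nb vx ip) (o : F) (r : R) : ∃ τ, ∀ c, chi (w o c) τ = 2 ^ ip r c := by
  obtain ⟨ξ, hξ⟩ := h.cor o r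
  obtain ⟨τ, hτ⟩ := zp ξ (two_ne_zero (α := ℂ))
  exact ⟨τ, fun c => by rw [hτ, hξ]⟩

end Rs

theorem two_inj {m n : ℤ} (h : (2 : ℂ) ^ m = 2 ^ n) : m = n := by
  have h1 : ((2 : ℝ) ^ m : ℝ) = (2 : ℝ) ^ n := by
    simpa using congrArg norm h
  exact zpow_right_injective₀ (by norm_num) (by norm_num) h1

end Pool.Agent.Lib.GV40
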