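import Pool.Agent.Lib.GU40.SDefs

/-! The two exceptional spaces, the list of models, the action of the torus. -/

open scoped Manifold ContDiff Topology Matrix

namespace Pool.Agent.Lib.GV40

open Pool.Agent.Lib.GT40 (Gr)
open Pool.Agent.Lib.GU40 (Fm Iso)

/-- The three square blocks of size three of a vector with 27 entries. -/
def blk (x : Fin 27 → ℂ) (s : Fin 3) : Matrix (Fin 3) (Fin 3) ℂ :=
  Matrix.of fun i j => x ⟨9 * s + 3 * i + j, by omega⟩

/-- The cubic form of Cartan, `det A + det B + det C - tr (A B C)`. -/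
noncomputable def cub (x : Fin 27 → ℂ) : ℂ :=
  (blk x 0).det + (blk x 1).det + (blk x 2).det - (blk x 0 * blk x 1 * blk x 2).trace

/-- The Cayley plane: the lines of singular points of the cubic form. -/
def Cay : Set (Gr 1 26) := {P | ∀ v, Matrix.of P.1 *ᵥ v = v → fderiv ℂ cub v = 0}

/-- The vector with the 56 entries `1`, `x`, the gradient of the cubic form at `x`, its value. -/
noncomputable def frd (x : Fin 27 → ℂ) (a : Fin 56) : ℂ :=
  if a.1 = 0 then 1 else if h : a.1 < 28 then x ⟨a - 1, by omega⟩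
  else if h' : a.1 < 55 then fderiv ℂ cub x (Pi.single ⟨a - 28, by omega⟩ 1) else cub x

/-- The Freudenthal variety: the closure of the set of the lines spanned by these vectors. -/
def Fre : Set (Gr 1 55) := closure {P | ∃ x, Matrix.of P.1 *ᵥ frd x = frd x}

/-- The models: a component of a space of isotropic planes, the Cayley plane, the Freudenthal
variety. -/
def Model (k q : ℕ) (X : Set (Gr k q)) : Prop :=
  (∃ S, (S = 0 ∨ k = q ∧ (S = Fm k q 1 ∨ S = Fm k q (-1))) ∧
    ∃ P ∈ Iso S, X = connectedComponentIn (Iso S) P) ∨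
  (⟨k, q, X⟩ : Σ k q, Set (Gr k q)) = ⟨1, 26, Cay⟩ ∨
  (⟨k, q, X⟩ : Σ k q, Set (Gr k q)) = ⟨1, 55, Fre⟩

variable {k q : ℕ} {Y : Type} [TopologicalSpace Y]

/-- `P'` is the image of `P` under the diagonal unitary matrix with entries `exp (i θ a)`. -/
def Rot (θ : Fin (k + q) → ℝ) (P P' : Gr k q) : Prop :=
  ∀ a b, P'.1 a b = Complex.exp (Complex.I * θ a) * P.1 a b * Complex.exp (-(Complex.I * θ b))

/-- Every diagonal unitary matrix that preserves `X` acts on `Y`, through `Φ`, by a holomorphic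
map. -/
def DiagHol (d : ℕ) [ChartedSpace (Fin d → ℂ) Y] {X : Set (Gr k q)} (Φ : X ≃ₜ Y) : Prop :=
  ∀ θ : Fin (k + q) → ℝ, (∀ P ∈ X, ∀ P', Rot θ P P' → P' ∈ X) →
    ∃ f : Y → Y, MDifferentiable 𝓘(ℂ, Fin d → ℂ) 𝓘(ℂ, Fin d → ℂ) f ∧
      ∀ P P' : X, Rot θ P.1 P'.1 → f (Φ P) = Φ P'

end Pool.Agent.Lib.GV40
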