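import Pool.Agent.Lib.GV40.WH

/-! Project gv40: the transition maps are forced by the weights. -/

open scoped Manifold ContDiff Topology Matrix
open Set Filter Metric Complex Sum

set_option linter.unusedVariables false
set_option linter.unusedSectionVars false

noncomputable section

namespace Pool.Agent.Lib.GV40

open Pool.Agent.Lib.GT40 (E Gr Full Spans cx RAct Act)
open Pool.Agent.Lib.GU40

variable {ι R F Λ : Type} [Fintype ι] [Fintype R] [DecidableEq R] {ip : R → R → ℤ}

namespace TRNB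

open WH

theorem bil (B : R → R → ℂ) (a b : R) (α β : ℂ) :
    ∑ c, ∑ e, B c e * (ax a α + ax b β) c * (ax a α + ax b β) e =
      α * α * B a a + α * β * (B a b + B b a) + β * β * B b b := by
  simp only [Pi.add_apply, ax, mul_add, add_mul, mul_ite, ite_mul, mul_zero, zero_mul,
    Finset.sum_add_distrib, Finset.sum_ite_eq', Finset.mem_univ, if_true]
  ring

/-- An injective holomorphic map with the right weights. -/
structure Th (ip : R → R → ℤ) (r : R) (θ : (R → ℂ) → R → ℂ) : Prop where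
  hd : ∀ x, x r ≠ 0 → DifferentiableAt ℂ θ x
  hi : ∀ x y, x r ≠ 0 → y r ≠ 0 → θ x = θ y → x = y
  h1 : ∀ s, s ≠ 0 → ∀ x, x r ≠ 0 → ∀ c, θ (s • x) c = s * s ^ (-ip r c) * θ x c
  h2 : ∀ s : ℂ, s ≠ 0 → ∀ x, x r ≠ 0 → ∀ c,
    θ (fun c => s ^ (2 - ip r c) * x c) c = s ^ (2 - ip r c) * θ x c
  h3 : ∀ c' x, x r ≠ 0 → ∀ c, θ (fun c => 2 ^ ip c' c * x c) c =
    2 ^ ip c' c * (2 ^ ip c' r) ^ (-ip r c) * θ x c

variable {r : R} {θ : (R → ℂ) → R → ℂ}

theorem dG (h : Th ip r θ) (c : R) : Differentiable ℂ fun x => θ (Function.update x r 1) c := by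
  intro x
  have h1 : DifferentiableAt ℂ (fun x : R → ℂ => Function.update x r (1 : ℂ)) x := by
    refine differentiableAt_pi.2 fun e => ?_
    simp only [Function.update_apply]
    split_ifs <;> fun_prop
  exact (differentiableAt_pi.1 ((h.hd _ (by simp)).comp x h1)) c

theorem hG (hi : Ip ip) (h : Th ip r θ) (c : R) {s : ℂ} (hs : s ≠ 0) (x : R → ℂ) :
    θ (Function.update (gr (fun c => ip r c = 1) s x) r 1) c =
      s ^ (2 - ip r c) * θ (Function.update x r 1) c := by
  rw [← h.h2 s hs _ (by simp)]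
  congr 1
  funext e
  rcases hi.cases r e with rfl | k | k
  · simp [hi.two]
  · simp [gr, p1, p2, k, hi.ne1 k]
  · simp [gr, p1, p2, k, hi.ne0 k, sq, zpow_ofNat]

theorem red (h : Th ip r θ) {x : R → ℂ} (hx : x r ≠ 0) (c : R) : θ x c = x r * x r ^ (-ip r c) *
    θ (Function.update (Function.update ((x r)⁻¹ • x) r 0) r 1) c := by
  rw [← h.h1 _ hx _ (by simp)]
  congr 1
  funext e
  by_cases k : e = r
  · simp [k]
  · simp [k, hx]

theorem f0 (hi : Ip ip) (h : Th ip r θ) : ∃ k, ∀ x, x r ≠ 0 → θ x r = k / x r := by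
  refine ⟨θ (Function.update 0 r 1) r, fun x hx => ?_⟩
  rw [red h hx, wh0 (A := fun c => ip r c = 1) (dG h r 0).continuousAt fun s hs => by
    rw [hG hi h r hs, hi.two]; simp, hi.two, zpow_neg, zpow_two]
  field_simp

theorem f1 (hi : Ip ip) (h : Th ip r θ) {a : R} (ha : ip r a = 1) :
    ∃ k, ∀ x, x r ≠ 0 → θ x a = k * x a / x r := by
  obtain ⟨m, hm⟩ : ∃ m : R → ℂ, ∀ x, x r ≠ 0 →
      θ x a = (∑ c, (if ip r c = 1 then x c else 0) * m c) / x r := by
    refine ⟨fun c => fderiv ℂ (fun x => θ (Function.update x r 1) a) 0 (ax c 1), fun x hx => ?_⟩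
    rw [red h hx, wh1 (A := fun c => ip r c = 1) (dG h a 0) fun s hs => by
      rw [hG hi h a hs, ha]; simp, ha, zpow_neg, zpow_one, mul_inv_cancel₀ hx, one_mul,
      Finset.sum_div]
    refine Finset.sum_congr rfl fun c _ => ?_
    by_cases k : ip r c = 1
    · simp only [p1, if_pos k, Function.update_of_ne (hi.ne1 k), Pi.smul_apply, smul_eq_mul]
      ring
    · simp [p1, k]
  have z : ∀ c, ip r c = 1 → c ≠ a → m c = 0 := fun c k k' => by
    have r1 : ip r r ≠ 1 := by rw [hi.two]; omega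
    have e := h.h3 a (ax r 1 + ax c 1) (by simp [ax, (hi.ne1 k).symm]) a
    rw [hm _ (by simp [ax, (hi.ne1 k).symm, zpow_ne_zero]), hm _ (by simp [ax, (hi.ne1 k).symm]),
      Finset.sum_eq_single c (fun b _ hb => by
        by_cases j : b = r <;> simp [ax, hb, j, r1]) (by simp),
      Finset.sum_eq_single c (fun b _ hb => by
        by_cases j : b = r <;> simp [ax, hb, j, r1]) (by simp)] at e
    simp only [if_pos k, ax, Pi.add_apply, if_true, if_neg (hi.ne1 k), if_neg (hi.ne1 k).symm, ha,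
      zpow_neg, zpow_one, zero_add, add_zero, mul_one, one_mul, div_one, hi.two] at e
    by_contra c0
    have t0 : (2 : ℂ) ^ ip a r ≠ 0 := zpow_ne_zero _ two_ne_zero
    field_simp at e
    exact k' (hi.eq2 (two_inj (e.trans (by norm_num))))
  refine ⟨m a, fun x hx => ?_⟩
  rw [hm x hx, Finset.sum_eq_single a (fun c _ k' => by
    by_cases k : ip r c = 1 <;> simp [k, z c, k']) (by simp), if_pos ha, mul_comm]

theorem f2 (hi : Ip ip) (h : Th ip r θ) {δ : R} (hδ : ip r δ = 0) :
    ∃ (k : ℂ) (B : R → R → ℂ), (∀ a b, B a b = B b a) ∧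
      (∀ a b, B a b ≠ 0 → ip r a = 1 ∧ Rel ip r δ a b) ∧
      ∀ x, x r ≠ 0 → θ x δ = k * x δ + (∑ a, ∑ b, B a b * x a * x b) / x r := by
  have r1 : ip r r ≠ 1 := by rw [hi.two]; omega
  have r0 : ip r r ≠ 0 := by rw [hi.two]; omega
  obtain ⟨l, B, sy, su, hm⟩ : ∃ (l : R → ℂ) (B : R → R → ℂ), (∀ a b, B a b = B b a) ∧
      (∀ a b, B a b ≠ 0 → ip r a = 1) ∧ ∀ x, x r ≠ 0 →
      θ x δ = ∑ c, (if ip r c = 0 then x c else 0) * l c + (∑ a, ∑ b, B a b * x a * x b) / x r := by
    obtain ⟨l, B, sy, e⟩ := wh2 (A := fun c => ip r c = 1) (dG h δ) fun s hs x => by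
      rw [hG hi h δ hs, hδ, sub_zero, zpow_two]
    refine ⟨l, fun a b => if ip r a = 1 ∧ ip r b = 1 then B a b else 0,
      fun a b => by simp only [sy a b, and_comm], fun a b k => by_contra fun c => k (by simp [c]),
      fun x hx => ?_⟩
    rw [red h hx, e, hδ, neg_zero, zpow_zero, mul_one, mul_add]
    simp only [Finset.mul_sum, Finset.sum_div]
    congr 1
    · refine Finset.sum_congr rfl fun c _ => ?_
      rcases hi.cases r c with rfl | k | k
      · simp [p2, r0, r1]
      · simp [p2, k]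
      · simp [p2, k, hi.ne0 k, hx, ← mul_assoc]
    · refine Finset.sum_congr rfl fun a _ => Finset.sum_congr rfl fun b _ => ?_
      by_cases k : ip r a = 1
      · by_cases k' : ip r b = 1
        · simp only [p1, k, k', if_true, and_self, Function.update_of_ne (hi.ne1 k),
            Function.update_of_ne (hi.ne1 k'), Pi.smul_apply, smul_eq_mul]
          field_simp
        · simp [p1, k']
      · simp [p1, k]
  have b0 : ∀ a, ip r a ≠ 1 → ∀ b, B a b = 0 ∧ B b a = 0 := fun a k b =>
    ⟨by_contra fun c => k (su a b c), by_contra fun c => k (su a b (sy a b ▸ c))⟩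
  have z : ∀ c, ip r c = 0 → c ≠ δ → l c = 0 := fun c k k' => by
    have q : ∀ α β : ℂ, α ≠ 0 → θ (ax r α + ax c β) δ = β * l c := fun α β h0 => by
      rw [hm _ (by simpa [ax, (hi.ne0 k).symm] using h0), bil, (b0 r r1 r).1, (b0 r r1 c).1,
        (b0 r r1 c).2, (b0 c (by omega) c).1, Finset.sum_eq_single c (fun b _ hb => by
          by_cases j : b = r <;> simp [ax, hb, j, r0]) (by simp)]
      simp [ax, k, hi.ne0 k]
    have e := h.h3 δ (ax r 1 + ax c 1) (by simp [ax, (hi.ne0 k).symm]) δ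
    have e' : (fun e => 2 ^ ip δ e * (ax r (1 : ℂ) + ax c 1) e) =
        ax r (2 ^ ip δ r) + ax c (2 ^ ip δ c) := funext fun e => by
      simp only [ax, Pi.add_apply, mul_add, mul_ite, mul_one, mul_zero]
      congr 1 <;> split_ifs with j <;> simp [j]
    rw [e', q _ _ (zpow_ne_zero _ two_ne_zero), q _ _ one_ne_zero, hδ, neg_zero, zpow_zero, mul_one,
      one_mul, hi.two] at e
    by_contra c0
    exact k' (hi.eq2 (two_inj (mul_right_cancel₀ c0 e)))
  refine ⟨l δ, B, sy, fun a b k => ⟨su a b k, fun c => ?_⟩, fun x hx => ?_⟩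
  · have ka := su a b k
    have kb := su b a (sy a b ▸ k)
    have q : ∀ ρ α β : ℂ, ρ ≠ 0 → θ (ax r ρ + (ax a α + ax b β)) δ =
        (α * α * B a a + α * β * (B a b + B b a) + β * β * B b b) / ρ := fun ρ α β h0 => by
      have e0 : (ax r ρ + (ax a α + ax b β)) r = ρ := by
        simp [ax, (hi.ne1 ka).symm, (hi.ne1 kb).symm]
      rw [hm _ (by rwa [e0]), e0, ← bil, Finset.sum_eq_zero fun e _ => ?_, zero_add]
      · congr 1
        refine Finset.sum_congr rfl fun e _ => Finset.sum_congr rfl fun f _ => ?_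
        by_cases j : e = r
        · simp [j, (b0 r r1 f).1]
        by_cases j' : f = r
        · simp [j', (b0 r r1 e).2]
        simp [ax, j, j']
      · split_ifs with j
        · have j1 : e ≠ a := fun c => by rw [c] at j; omega
          have j2 : e ≠ b := fun c => by rw [c] at j; omega
          simp [ax, hi.ne0 j, j1, j2]
        · simp
    have t0 : (2 : ℂ) ^ ip c r ≠ 0 := zpow_ne_zero _ two_ne_zero
    have e : ∀ α β : ℂ, 2 ^ ip c a * α * (2 ^ ip c a * α) * B a a +
        2 ^ ip c a * α * (2 ^ ip c b * β) * (B a b + B b a) +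
        2 ^ ip c b * β * (2 ^ ip c b * β) * B b b =
        2 ^ ip c r * 2 ^ ip c δ * (α * α * B a a + α * β * (B a b + B b a) + β * β * B b b) :=
      fun α β => by
      have e := h.h3 c (ax r 1 + (ax a α + ax b β))
        (by simp [ax, (hi.ne1 ka).symm, (hi.ne1 kb).symm]) δ
      have e' : (fun e => 2 ^ ip c e * (ax r (1 : ℂ) + (ax a α + ax b β)) e) =
          ax r (2 ^ ip c r) + (ax a (2 ^ ip c a * α) + ax b (2 ^ ip c b * β)) := funext fun e => by
        simp only [ax, Pi.add_apply, mul_add, mul_ite, mul_one, mul_zero]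
        congr 1
        · split_ifs with j <;> simp [j]
        · congr 1 <;> split_ifs with j <;> simp [j]
      rw [e', q _ _ _ t0, q _ _ _ one_ne_zero, hδ, neg_zero, zpow_zero, mul_one, div_one,
        div_eq_iff t0] at e
      linear_combination e
    have e4 : (2 ^ ip c a * 2 ^ ip c b - 2 ^ ip c r * 2 ^ ip c δ) * B a b = 0 := by
      have e1 := e 1 1
      have e2 := e 1 0
      have e3 := e 0 1
      rw [← sy a b] at e1
      linear_combination (e1 - e2 - e3) / 2
    rw [mul_eq_zero, or_iff_left k, sub_eq_zero, ← zpow_add₀ two_ne_zero,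
      ← zpow_add₀ two_ne_zero] at e4
    exact two_inj e4
  · rw [hm x hx, Finset.sum_eq_single δ (fun c _ k' => by
      by_cases k : ip r c = 0 <;> simp [k, z c, k']) (by simp), if_pos hδ, mul_comm]

theorem core (hi : Ip ip) (h : Th ip r θ) : ∃ (k : R → ℂ) (C : R → R → R → ℂ), (∀ c, k c ≠ 0) ∧
    (∀ δ a b, C δ a b = C δ b a) ∧ (∀ δ a b, C δ a b ≠ 0 → ip r a = 1 ∧ Rel ip r δ a b) ∧
    ∀ x, x r ≠ 0 → θ x = gt ip k (fun _ => C) r x := by
  have e : ∀ c, ∃ (k : ℂ) (B : R → R → ℂ), (∀ a b, B a b = B b a) ∧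
      (∀ a b, B a b ≠ 0 → ip r c = 0 ∧ ip r a = 1 ∧ Rel ip r c a b) ∧ ∀ x, x r ≠ 0 → θ x c =
        (k * (if c = r then 1 else if ip r c = 1 then x c else x r * x c) +
          ∑ a, ∑ b, B a b * x a * x b) / x r := fun c => by
    rcases hi.cases r c with rfl | j | j
    · obtain ⟨k, hk⟩ := f0 hi h
      exact ⟨k, 0, fun _ _ => rfl, fun _ _ c => (c rfl).elim, fun x hx => by simp [hk x hx]⟩
    · obtain ⟨k, hk⟩ := f1 hi h j
      exact ⟨k, 0, fun _ _ => rfl, fun _ _ c => (c rfl).elim, fun x hx => by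
        simp [hk x hx, j, hi.ne1 j]⟩
    · obtain ⟨k, B, h1, h2, h3⟩ := f2 hi h j
      refine ⟨k, B, h1, fun a b c => ⟨j, h2 a b c⟩, fun x hx => ?_⟩
      rw [h3 x hx, if_neg (hi.ne0 j), if_neg (by omega)]
      field_simp
  choose k B sy su hm using e
  have b0 : ∀ c a, B c r a = 0 ∧ B c a r = 0 ∧ B c a a = 0 := fun c a => by
    have r2 := hi.two r
    refine ⟨by_contra fun j => ?_, by_contra fun j => ?_, by_contra fun j => ?_⟩
    · have := (su c r a j).2.1
      omega
    · have := (su c r a (sy c a r ▸ j)).2.1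
      omega
    · obtain ⟨j0, j1, j2⟩ := su c a a j
      have := (hi.snd j0 j1 j2).2.1
      have := hi.two a
      omega
  have q : ∀ c (α β : ℂ), c ≠ r → α ≠ 0 → ∀ e, θ (ax r α + ax c β) e =
      k e * (if e = r then 1 else if e = c then (if ip r c = 1 then β else α * β) else 0) / α :=
    fun c α β hc h0 e => by
    rw [hm e _ (by simpa [ax, hc.symm] using h0), bil, (b0 e r).1, (b0 e c).1, (b0 e c).2.1,
      (b0 e c).2.2]
    by_cases j : e = r
    · simp [ax, j, hc.symm]
    · by_cases j' : e = c <;> simp [ax, j, j', hc, hc.symm]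
  have k0 : ∀ c, k c ≠ 0 := fun c hc => by
    by_cases j : c = r
    · have e : ∀ α : ℂ, α ≠ 0 → θ (ax r α) = 0 := fun α h0 => funext fun e => by
        have := bil (B e) r r α 0
        rw [ax_zero, add_zero, (b0 e r).1] at this
        rw [hm e _ (by simpa [ax] using h0), this]
        by_cases j' : e = r
        · simp [j', ← j, hc]
        · simp [ax, j']
      have := congrFun (h.hi (ax r 1) (ax r 2) (by simp [ax]) (by simp [ax])
        ((e 1 one_ne_zero).trans (e 2 two_ne_zero).symm)) r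
      simp [ax] at this
    · have := congrFun (h.hi (ax r 1 + ax c 1) (ax r 1 + ax c 0) (by simp [ax, Ne.symm j])
        (by simp [ax]) (funext fun e => by
          rw [q c 1 1 j one_ne_zero, q c 1 0 j one_ne_zero]
          by_cases j' : e = c <;> simp [j', hc])) c
      simp [ax] at this
  refine ⟨k, fun δ a b => B δ a b / k δ, k0, fun δ a b => by simp only [sy δ a b],
    fun δ a b j => (su δ a b fun c => j (by simp [c])).2, fun x hx => funext fun c => ?_⟩
  rw [hm c x hx, gt]
  congr 1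
  have z : ip r c ≠ 0 → ∑ a, ∑ b, B c a b * x a * x b = 0 := fun j =>
    Finset.sum_eq_zero fun a _ => Finset.sum_eq_zero fun b _ => by
      rw [show B c a b = 0 from by_contra fun i => j (su c a b i).1, zero_mul, zero_mul]
  split_ifs with j j'
  · rw [z (by rw [j, hi.two]; omega), add_zero]
  · rw [z (by omega), add_zero]
  · simp only [Qd, mul_add, Finset.mul_sum]
    congr 1
    refine Finset.sum_congr rfl fun a _ => Finset.sum_congr rfl fun b _ => ?_
    have := k0 c
    field_simp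

end TRNB

end Pool.Agent.Lib.GV40
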