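import Pool.Agent.Lib.GV40.RS
import Pool.Agent.Lib.GU40.K28

/-! Project gv40: entire functions that are homogeneous for weights one and two. -/

open scoped Manifold ContDiff Topology Matrix
open Set Filter Metric Complex Sum

set_option linter.unusedVariables false
set_option linter.unusedSectionVars false

noncomputable section

namespace Pool.Agent.Lib.GV40

open Pool.Agent.Lib.GT40 (E Gr Full Spans cx RAct Act)
open Pool.Agent.Lib.GU40

namespace WH

variable {R : Type} [Fintype R] [DecidableEq R] (A : R → Prop) [DecidablePred A]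

/-- The part of weight one. -/
def p1 (x : R → ℂ) : R → ℂ := fun c => if A c then x c else 0

/-- The part of weight two. -/
def p2 (x : R → ℂ) : R → ℂ := fun c => if A c then 0 else x c

/-- The grading. -/
def gr (s : ℂ) (x : R → ℂ) : R → ℂ := s • p1 A x + (s * s) • p2 A x

theorem clm_sum (L : (R → ℂ) →L[ℂ] ℂ) (y : R → ℂ) : L y = ∑ c, y c * L (ax c 1) := by
  have e : y = ∑ c, y c • ax c 1 := by
    funext c
    simp [Finset.sum_apply, ax]
  conv_lhs => rw [e]
  simp only [map_sum, map_smul, smul_eq_mul]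

variable {A} {G : (R → ℂ) → ℂ}

theorem wh0 (hG : ContinuousAt G 0) {x : R → ℂ} (h : ∀ s, s ≠ 0 → G (gr A s x) = G x) :
    G x = G 0 := by
  have c : Continuous fun s : ℂ => gr A s x := by
    unfold gr
    fun_prop
  have c1 : Tendsto (fun s : ℂ => gr A s x) (𝓝[≠] 0) (𝓝 0) := by
    simpa [gr] using (c.tendsto 0).mono_left (nhdsWithin_le_nhds (s := {0}ᶜ))
  exact tendsto_nhds_unique (l := 𝓝[≠] (0 : ℂ)) (tendsto_const_nhds.congr'
    (eventually_nhdsWithin_of_forall fun s hs => (h s hs).symm)) (hG.tendsto.comp c1)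

theorem wh1 (hG : DifferentiableAt ℂ G 0) {x : R → ℂ} (h : ∀ s, s ≠ 0 → G (gr A s x) = s * G x) :
    G x = ∑ c, p1 A x c * fderiv ℂ G 0 (ax c 1) := by
  rw [← clm_sum]
  exact K28.deg1 (w := p2 A x) hG fun s hs => by rw [zero_add]; exact h s hs

theorem wh2 (hG : Differentiable ℂ G) (h : ∀ s, s ≠ 0 → ∀ x, G (gr A s x) = s * s * G x) :
    ∃ (l : R → ℂ) (B : R → R → ℂ), (∀ a b, B a b = B b a) ∧ ∀ x,
      G x = ∑ c, p2 A x c * l c + ∑ a, ∑ b, B a b * p1 A x a * p1 A x b := by
  have d1 : ∀ c, Differentiable ℂ fun x => fderiv ℂ G x (ax c 1) := fun c =>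
    differentiableOn_univ.1 (SV.H85.differentiableOn_fderiv_apply isOpen_univ hG.differentiableOn _)
  have ch : ∀ s, s ≠ 0 → ∀ x c, (if A c then s else s * s) * fderiv ℂ G (gr A s x) (ax c 1) =
      s * s * fderiv ℂ G x (ax c 1) := by
    intro s hs x c
    have e : ∀ t : ℂ, gr A s (x + t • ax c 1) =
        gr A s x + t • ((if A c then s else s * s) • ax c 1) := fun t => by
      funext c'
      by_cases k : c' = c
      · subst k
        by_cases k' : A c' <;> simp [gr, p1, p2, ax, k'] <;> ring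
      · by_cases k' : A c' <;> by_cases k'' : A c <;> simp [gr, p1, p2, ax, k, k', k'']
    have ln : ∀ y z : R → ℂ, HasDerivAt (fun t : ℂ => G (y + t • z)) (fderiv ℂ G y z) 0 :=
      fun y z => (hG y).hasFDerivAt.hasLineDerivAt z
    have h1 := ln (gr A s x) ((if A c then s else s * s) • ax c 1)
    simp only [← e, h s hs] at h1
    have h2 := h1.unique ((ln x (ax c 1)).const_mul (s * s))
    rwa [map_smul, smul_eq_mul] at h2
  have eu : ∀ x, 2 * G x = fderiv ℂ G x (p1 A x + (2 : ℂ) • p2 A x) := fun x => by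
    have e : gr A 1 x = x := by
      funext c
      by_cases k : A c <;> simp [gr, p1, p2, k]
    have h1 : HasDerivAt (fun s : ℂ => gr A s x) (p1 A x + (2 : ℂ) • p2 A x) 1 := by
      have := ((hasDerivAt_id' (1 : ℂ)).smul_const (p1 A x)).fun_add
        (((hasDerivAt_id' (1 : ℂ)).fun_mul (hasDerivAt_id' (1 : ℂ))).smul_const (p2 A x))
      simpa [gr, one_add_one_eq_two] using this
    have h2 := HasFDerivAt.comp_hasDerivAt_of_eq (1 : ℂ) (hG x).hasFDerivAt h1 e.symm
    have h3 : HasDerivAt (fun s : ℂ => s * s * G x) (2 * G x) 1 := by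
      simpa [one_add_one_eq_two] using
        ((hasDerivAt_id' (1 : ℂ)).fun_mul (hasDerivAt_id' (1 : ℂ))).mul_const (G x)
    refine h3.unique (h2.congr_of_eventuallyEq ?_)
    filter_upwards [isOpen_ne.mem_nhds (one_ne_zero (α := ℂ))] with s hs
    exact (h s hs x).symm
  set M : R → R → ℂ := fun a b => fderiv ℂ (fun x => fderiv ℂ G x (ax a 1)) 0 (ax b 1) with hM
  refine ⟨fun c => fderiv ℂ G 0 (ax c 1), fun a b => (M a b + M b a) / 4,
    fun a b => by simp only [add_comm], fun x => ?_⟩
  have e1 : ∀ c, (p1 A x + (2 : ℂ) • p2 A x) c * fderiv ℂ G x (ax c 1) =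
      2 * (p2 A x c * fderiv ℂ G 0 (ax c 1)) + ∑ b, M c b * p1 A x c * p1 A x b := fun c => by
    by_cases k : A c
    · rw [wh1 (A := A) (G := fun x => fderiv ℂ G x (ax c 1)) (d1 c 0) fun s hs => by
        have := ch s hs x c
        rw [if_pos k, mul_assoc] at this
        exact mul_left_cancel₀ hs this]
      simp only [Pi.add_apply, Pi.smul_apply, p2, if_pos k, smul_zero, add_zero, zero_mul,
        mul_zero, zero_add, Finset.mul_sum, hM]
      exact Finset.sum_congr rfl fun b _ => by ring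
    · rw [wh0 (A := A) (G := fun x => fderiv ℂ G x (ax c 1)) (d1 c 0).continuousAt fun s hs => by
        have := ch s hs x c
        rw [if_neg k] at this
        exact mul_left_cancel₀ (mul_ne_zero hs hs) this]
      simp [p1, k, mul_assoc]
  have e2 := eu x
  rw [clm_sum] at e2
  simp only [e1, Finset.sum_add_distrib, ← Finset.mul_sum] at e2
  have e3 : ∑ a, ∑ b, (M a b + M b a) / 4 * p1 A x a * p1 A x b =
      (∑ a, ∑ b, M a b * p1 A x a * p1 A x b) / 4 + (∑ a, ∑ b, M a b * p1 A x a * p1 A x b) / 4 := by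
    nth_rewrite 2 [Finset.sum_comm]
    simp only [Finset.sum_div, ← Finset.sum_add_distrib]
    exact Finset.sum_congr rfl fun a _ => Finset.sum_congr rfl fun b _ => by ring
  rw [e3]
  linear_combination e2 / 2

end WH

end Pool.Agent.Lib.GV40
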